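import Mathlib

/-!
Traces on the direct summands of tensor products cut out by idempotents of the group algebra of the
symmetric group.
-/

set_option autoImplicit false
set_option linter.unusedSectionVars false

namespace Pool.Agent.W350

open Finset

section

variable {n N : ℕ}

/-- the cycles (including fixed points) of a permutation -/
abbrev Orb (σ : Equiv.Perm (Fin n)) := Quotient (Equiv.Perm.SameCycle.setoid σ)

/-- the length of a cycle -/
noncomputable def len (σ : Equiv.Perm (Fin n)) (q : Orb σ) : ℕ :=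
  Nat.card {x : Fin n // (Quotient.mk _ x : Orb σ) = q}

theorem zpow_inv {A : Type*} (σ : Equiv.Perm (Fin n)) (w : Fin n → A) (hw : ∀ x, w (σ x) = w x)
    (i : ℤ) (x : Fin n) : w ((σ ^ i) x) = w x := by
  induction i using Int.induction_on generalizing x with
  | zero => simp
  | succ i ih =>
    rw [zpow_add_one, Equiv.Perm.mul_apply, ih, hw]
  | pred i ih =>
    rw [zpow_sub_one, Equiv.Perm.mul_apply, ih]
    have := hw (σ⁻¹ x)
    have e : σ (σ⁻¹ x) = x := σ.apply_symm_apply x
    rw [e] at this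
    exact this.symm

theorem same_of_inv {A : Type*} (σ : Equiv.Perm (Fin n)) (w : Fin n → A)
    (hw : ∀ x, w (σ x) = w x) {x y : Fin n} (h : σ.SameCycle x y) : w x = w y := by
  obtain ⟨i, hi⟩ := h
  rw [← hi, zpow_inv σ w hw]

open Classical in
/-- words fixed by a permutation are functions on its cycles -/
noncomputable def wordEquiv (σ : Equiv.Perm (Fin n)) :
    {w : Fin n → Fin N // w ∘ σ = w} ≃ (Orb σ → Fin N) where
  toFun w := fun q => Quotient.lift (s := Equiv.Perm.SameCycle.setoid σ) w.1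
    (fun _ _ h => same_of_inv σ w.1 (fun x => congrFun w.2 x) h) q
  invFun u := ⟨fun x => u (Quotient.mk _ x), by
    funext x
    change u _ = u _
    congr 1
    apply Quotient.sound
    exact (Equiv.Perm.sameCycle_apply_left).2 (Equiv.Perm.SameCycle.refl σ x)⟩
  left_inv w := by
    apply Subtype.ext
    funext x
    rfl
  right_inv u := by
    funext q
    induction q using Quotient.inductionOn with
    | h x => rfl

open Classical in
theorem word_sum {R : Type*} [CommRing R] (σ : Equiv.Perm (Fin n)) (β : Fin n → Fin N → R)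
    (hβ : ∀ j, β (σ j) = β j) (m : ℕ) :
    ∏ q : Orb σ, ∑ a : Fin N, (β q.out a) ^ (m * len σ q) =
      ∑ w : Fin n → Fin N, if w ∘ σ = w then (∏ j, β j (w j)) ^ m else 0 := by
  rw [← Finset.sum_filter, Finset.sum_subtype (univ.filter fun w : Fin n → Fin N => w ∘ σ = w)
    (p := fun w => w ∘ σ = w) (by simp)]
  rw [Finset.prod_univ_sum, Fintype.piFinset_univ]
  refine (Fintype.sum_equiv (wordEquiv σ) _ _ fun w => ?_).symm
  have h1 : ∀ q : Orb σ, ∀ x : Fin n, (Quotient.mk _ x : Orb σ) = q → β x = β q.out := by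
    intro q x hx
    apply same_of_inv σ β hβ
    apply Quotient.exact (s := Equiv.Perm.SameCycle.setoid σ)
    rw [hx, Quotient.out_eq]
  have h2 : ∏ j, β j (w.1 j) = ∏ q : Orb σ, (β q.out (wordEquiv σ w q)) ^ (len σ q) := by
    rw [← Finset.prod_fiberwise (s := univ) (g := fun j : Fin n => (Quotient.mk _ j : Orb σ))]
    refine Finset.prod_congr rfl fun q _ => ?_
    have h3 : ∀ j ∈ univ.filter (fun j : Fin n => (Quotient.mk _ j : Orb σ) = q),
        β j (w.1 j) = β q.out (wordEquiv σ w q) := by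
      intro j hj
      rw [mem_filter] at hj
      rw [h1 q j hj.2]
      congr 1
      rw [← hj.2]
      rfl
    rw [Finset.prod_congr rfl h3, Finset.prod_const]
    congr 1
    rw [len, Nat.card_eq_fintype_card, Fintype.card_subtype]
  rw [h2, ← Finset.prod_pow]
  refine Finset.prod_congr rfl fun q _ => ?_
  rw [← pow_mul, mul_comm]

/-- the signed action of permutations on functions of words -/
noncomputable def wrep (n N : ℕ) : Representation ℚ (Equiv.Perm (Fin n)) ((Fin n → Fin N) → ℚ) where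
  toFun σ := ((Equiv.Perm.sign σ : ℤ) : ℚ) •
    LinearMap.funLeft ℚ ℚ (fun w : Fin n → Fin N => w ∘ σ)
  map_one' := by
    ext φ w
    simp [LinearMap.funLeft]
  map_mul' σ τ := by
    apply LinearMap.ext
    intro φ
    funext w
    simp only [Equiv.Perm.sign_mul, LinearMap.smul_apply, Pi.smul_apply, LinearMap.funLeft_apply,
      Module.End.mul_apply, smul_eq_mul, Units.val_mul, Int.cast_mul]
    rw [mul_assoc]
    rfl

theorem wrep_apply (σ : Equiv.Perm (Fin n)) (φ : (Fin n → Fin N) → ℚ) (w : Fin n → Fin N) :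
    wrep n N σ φ w = ((Equiv.Perm.sign σ : ℤ) : ℚ) * φ (w ∘ σ) := rfl

/-- the projector of an element of the group algebra -/
noncomputable def proj (e : MonoidAlgebra ℚ (Equiv.Perm (Fin n))) (N : ℕ) :
    Module.End ℚ ((Fin n → Fin N) → ℚ) := (wrep n N).asAlgebraHom e

theorem proj_apply (e : MonoidAlgebra ℚ (Equiv.Perm (Fin n))) (φ : (Fin n → Fin N) → ℚ)
    (w : Fin n → Fin N) :
    proj e N φ w = ∑ σ, e.coeff σ * (((Equiv.Perm.sign σ : ℤ) : ℚ) * φ (w ∘ σ)) := by
  rw [proj, Representation.asAlgebraHom_def, MonoidAlgebra.lift_apply,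
    Finsupp.sum_fintype _ _ (fun σ => by simp)]
  rw [LinearMap.sum_apply, Finset.sum_apply]
  refine Finset.sum_congr rfl fun σ _ => ?_
  rw [LinearMap.smul_apply, Pi.smul_apply, wrep_apply, smul_eq_mul]

open Classical in
/-- restriction to a set of words -/
noncomputable def dz (Z : (Fin n → Fin N) → Prop) : Module.End ℚ ((Fin n → Fin N) → ℚ) where
  toFun φ := fun w => if Z w then φ w else 0
  map_add' φ ψ := by
    funext w
    simp only [Pi.add_apply]
    split_ifs <;> simp
  map_smul' c φ := by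
    funext w
    simp only [Pi.smul_apply, RingHom.id_apply]
    split_ifs <;> simp

open Classical in
/-- the diagonal coefficient of the projector at a word -/
noncomputable def dcoef (e : MonoidAlgebra ℚ (Equiv.Perm (Fin n))) (w : Fin n → Fin N) : ℚ :=
  ∑ σ : Equiv.Perm (Fin n), if w ∘ σ = w then e.coeff σ * ((Equiv.Perm.sign σ : ℤ) : ℚ) else 0

open Classical in
theorem sum_dcoef_nonneg (e : MonoidAlgebra ℚ (Equiv.Perm (Fin n))) (he : e * e = e)
    (Z : (Fin n → Fin N) → Prop)
    (hZ : ∀ σ, e.coeff σ ≠ 0 → ∀ w, Z (w ∘ σ) ↔ Z w) :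
    0 ≤ ∑ w : Fin n → Fin N, if Z w then dcoef e w else 0 := by
  have hP : proj e N * proj e N = proj e N := by
    rw [proj, ← map_mul, he]
  have hD : dz Z * dz Z = dz (n := n) (N := N) Z := by
    apply LinearMap.ext
    intro φ
    funext w
    change (if Z w then (if Z w then φ w else 0) else 0) = if Z w then φ w else 0
    split_ifs <;> rfl
  have hc : proj e N * dz Z = dz Z * proj e N := by
    apply LinearMap.ext
    intro φ
    funext w
    rw [Module.End.mul_apply, Module.End.mul_apply, proj_apply]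
    change _ = if Z w then proj e N φ w else 0
    rw [proj_apply]
    have h1 : ∀ σ, e.coeff σ * (((Equiv.Perm.sign σ : ℤ) : ℚ) * (dz Z φ) (w ∘ σ)) =
        if Z w then e.coeff σ * (((Equiv.Perm.sign σ : ℤ) : ℚ) * φ (w ∘ σ)) else 0 := by
      intro σ
      by_cases h0 : e.coeff σ = 0
      · simp [h0]
      · have h2 := hZ σ h0 w
        change e.coeff σ * (((Equiv.Perm.sign σ : ℤ) : ℚ) * (if Z (w ∘ σ) then φ (w ∘ σ) else 0)) = _
        by_cases h3 : Z w
        · rw [if_pos (h2.2 h3), if_pos h3]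
        · rw [if_neg (fun h => h3 (h2.1 h)), if_neg h3, mul_zero, mul_zero]
    rw [Finset.sum_congr rfl fun σ _ => h1 σ]
    split_ifs
    · rfl
    · simp
  have hid : IsIdempotentElem (dz Z * proj e N) := by
    rw [IsIdempotentElem]
    calc dz Z * proj e N * (dz Z * proj e N) = dz Z * (proj e N * dz Z) * proj e N := by
          simp only [mul_assoc]
      _ = (dz Z * dz Z) * (proj e N * proj e N) := by rw [hc]; simp only [mul_assoc]
      _ = dz Z * proj e N := by rw [hD, hP]
  have htr : LinearMap.trace ℚ _ (dz Z * proj e N) =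
      ∑ w : Fin n → Fin N, if Z w then dcoef e w else 0 := by
    rw [LinearMap.trace_eq_matrix_trace ℚ (Pi.basisFun ℚ (Fin n → Fin N)), Matrix.trace]
    refine Finset.sum_congr rfl fun w _ => ?_
    rw [Matrix.diag_apply, LinearMap.toMatrix_apply, Pi.basisFun_repr, Pi.basisFun_apply,
      Module.End.mul_apply]
    change (if Z w then proj e N (Pi.single w 1) w else 0) = _
    rw [proj_apply]
    split_ifs with h
    · rw [dcoef]
      refine Finset.sum_congr rfl fun σ _ => ?_
      by_cases h1 : w ∘ σ = w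
      · rw [if_pos h1, h1, Pi.single_eq_same, mul_one]
      · rw [if_neg h1, Pi.single_eq_of_ne h1, mul_zero, mul_zero]
    · rfl
  rw [← htr, (LinearMap.IsIdempotentElem.isProj_range _ hid).trace]
  exact Nat.cast_nonneg _

theorem len_pos (σ : Equiv.Perm (Fin n)) (q : Orb σ) : 0 < len σ q := by
  rw [len, Nat.card_pos_iff]
  exact ⟨⟨⟨q.out, Quotient.out_eq q⟩⟩, inferInstance⟩

open Classical in
/-- the trace of the identity -/
theorem dim_eq (e : MonoidAlgebra ℚ (Equiv.Perm (Fin n))) (r : Fin n → ℕ) (hr : ∀ j, r j ≤ N)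
    (hinv : ∀ σ, e.coeff σ ≠ 0 → ∀ j, r (σ j) = r j) :
    ∑ σ : Equiv.Perm (Fin n), e.coeff σ * ((Equiv.Perm.sign σ : ℤ) : ℚ) * ∏ q : Orb σ, (r q.out : ℚ) =
      ∑ w : Fin n → Fin N, if (∀ j, (w j : ℕ) < r j) then dcoef e w else 0 := by
  have h1 : ∀ σ : Equiv.Perm (Fin n),
      e.coeff σ * ((Equiv.Perm.sign σ : ℤ) : ℚ) * ∏ q : Orb σ, (r q.out : ℚ) =
      ∑ w : Fin n → Fin N, if (∀ j, (w j : ℕ) < r j) then
        (if w ∘ σ = w then e.coeff σ * ((Equiv.Perm.sign σ : ℤ) : ℚ) else 0) else 0 := by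
    intro σ
    by_cases h0 : e.coeff σ = 0
    · simp [h0]
    · have h2 := word_sum (R := ℚ) (N := N) σ (fun j a => if (a : ℕ) < r j then 1 else 0)
        (fun j => by
          funext a
          rw [hinv σ h0 j]) 1
      have h3 : ∀ q : Orb σ, ∑ a : Fin N, ((if (a : ℕ) < r q.out then (1 : ℚ) else 0) ^
          (1 * len σ q)) = r q.out := by
        intro q
        have h4 : ∀ a : Fin N, ((if (a : ℕ) < r q.out then (1 : ℚ) else 0) ^ (1 * len σ q)) =
            if (a : ℕ) < r q.out then 1 else 0 := by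
          intro a
          split_ifs
          · rw [one_pow]
          · rw [zero_pow]
            have := len_pos σ q
            omega
        rw [Finset.sum_congr rfl fun a _ => h4 a, Finset.sum_boole]
        congr 1
        have h5 : (univ.filter fun a : Fin N => (a : ℕ) < r q.out).card = r q.out := by
          rw [Fin.card_filter_val_lt]
          exact min_eq_right (hr _)
        exact h5
      rw [Finset.prod_congr rfl fun q _ => h3 q] at h2
      rw [h2, Finset.mul_sum]
      refine Finset.sum_congr rfl fun w _ => ?_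
      have h6 : ∏ j, (if ((w j : Fin N) : ℕ) < r j then (1 : ℚ) else 0) =
          if (∀ j, (w j : ℕ) < r j) then 1 else 0 := by
        split_ifs with h
        · exact Finset.prod_eq_one fun j _ => if_pos (h j)
        · push Not at h
          obtain ⟨j, hj⟩ := h
          exact Finset.prod_eq_zero (mem_univ j) (if_neg (by omega))
      rw [pow_one, h6]
      split_ifs <;> simp
  rw [Finset.sum_congr rfl fun σ _ => h1 σ, Finset.sum_comm]
  refine Finset.sum_congr rfl fun w _ => ?_
  split_ifs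
  · rfl
  · simp

open Classical in
theorem dim_nonneg (e : MonoidAlgebra ℚ (Equiv.Perm (Fin n))) (he : e * e = e) (r : Fin n → ℕ)
    (hinv : ∀ σ, e.coeff σ ≠ 0 → ∀ j, r (σ j) = r j) :
    0 ≤ ∑ σ : Equiv.Perm (Fin n), e.coeff σ * ((Equiv.Perm.sign σ : ℤ) : ℚ) *
      ∏ q : Orb σ, (r q.out : ℚ) := by
  classical
  rw [dim_eq (N := ∑ j, r j) e r (fun j => Finset.single_le_sum (f := r)
    (fun _ _ => Nat.zero_le _) (mem_univ j)) hinv]
  have h7 := sum_dcoef_nonneg (N := ∑ j, r j) e he (fun w => ∀ j, (w j : ℕ) < r j) (by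
    intro σ hσ w
    constructor
    · intro h j
      have := h (σ⁻¹ j)
      have e1 : σ (σ⁻¹ j) = j := σ.apply_symm_apply j
      rw [Function.comp, e1] at this
      have h6 := hinv σ hσ (σ⁻¹ j)
      rw [e1] at h6
      rwa [h6]
    · intro h j
      have := h (σ j)
      rw [hinv σ hσ j] at this
      exact this)
  convert h7

open Classical in
/-- the trace of a diagonal operator on the summand is at most its norm times the dimension -/
theorem schur_bound (e : MonoidAlgebra ℚ (Equiv.Perm (Fin n))) (he : e * e = e)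
    (β : Fin n → Fin N → ℂ) (r : Fin n → ℕ) (hr : ∀ j, r j ≤ N)
    (hβ0 : ∀ j (a : Fin N), r j ≤ a → β j a = 0) {c : ℝ} (hβ : ∀ j a, ‖β j a‖ ≤ c)
    (hinv : ∀ σ, e.coeff σ ≠ 0 → ∀ j, r (σ j) = r j ∧ β (σ j) = β j) {m : ℕ} (hm : 1 ≤ m) :
    ‖∑ σ : Equiv.Perm (Fin n), ((e.coeff σ * ((Equiv.Perm.sign σ : ℤ) : ℚ) : ℚ) : ℂ) *
      ∏ q : Orb σ, ∑ a : Fin N, (β q.out a) ^ (m * len σ q)‖ ≤
      (c ^ n) ^ m * ((∑ σ : Equiv.Perm (Fin n), e.coeff σ * ((Equiv.Perm.sign σ : ℤ) : ℚ) *
        ∏ q : Orb σ, (r q.out : ℚ) : ℚ) : ℝ) := by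
  set ψ : (Fin n → Fin N) → ℂ := fun w => (∏ j, β j (w j)) ^ m with hψ
  have h1 : ∑ σ : Equiv.Perm (Fin n), ((e.coeff σ * ((Equiv.Perm.sign σ : ℤ) : ℚ) : ℚ) : ℂ) *
      ∏ q : Orb σ, ∑ a : Fin N, (β q.out a) ^ (m * len σ q) =
      ∑ w : Fin n → Fin N, ψ w * ((dcoef e w : ℚ) : ℂ) := by
    have h2 : ∀ σ : Equiv.Perm (Fin n),
        ((e.coeff σ * ((Equiv.Perm.sign σ : ℤ) : ℚ) : ℚ) : ℂ) *
        ∏ q : Orb σ, ∑ a : Fin N, (β q.out a) ^ (m * len σ q) =
        ∑ w : Fin n → Fin N, ψ w * (((if w ∘ σ = w then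
          e.coeff σ * ((Equiv.Perm.sign σ : ℤ) : ℚ) else 0 : ℚ)) : ℂ) := by
      intro σ
      by_cases h0 : e.coeff σ = 0
      · simp [h0]
      · rw [word_sum σ β (fun j => (hinv σ h0 j).2) m, Finset.mul_sum]
        refine Finset.sum_congr rfl fun w _ => ?_
        split_ifs
        · rw [mul_comm]
        · simp
    rw [Finset.sum_congr rfl fun σ _ => h2 σ, Finset.sum_comm]
    refine Finset.sum_congr rfl fun w _ => ?_
    rw [dcoef, ← Finset.mul_sum]
    push_cast
    rfl
  have hR : ∀ w : Fin n → Fin N, ¬ (∀ j, (w j : ℕ) < r j) → ψ w = 0 := by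
    intro w hw
    push Not at hw
    obtain ⟨j, hj⟩ := hw
    rw [hψ]
    simp only
    rw [Finset.prod_eq_zero (mem_univ j) (hβ0 j (w j) hj), zero_pow (by omega)]
  -- group the words by the value of `ψ`
  set I : Finset ℂ := univ.image ψ with hI
  set cb : ℂ → ℚ := fun b => ∑ w : Fin n → Fin N,
    if (ψ w = b ∧ ∀ j, (w j : ℕ) < r j) then dcoef e w else 0 with hcb
  have hcb0 : ∀ b, 0 ≤ cb b := by
    intro b
    suffices hs : ∀ σ, e.coeff σ ≠ 0 → ∀ w : Fin n → Fin N,
        (ψ (w ∘ σ) = b ∧ ∀ j, ((w ∘ σ) j : ℕ) < r j) ↔ (ψ w = b ∧ ∀ j, (w j : ℕ) < r j) by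
      have h7 := sum_dcoef_nonneg e he (fun w => ψ w = b ∧ ∀ j, (w j : ℕ) < r j) hs
      convert h7
    intro σ hσ w
    have h3 : ψ (w ∘ σ) = ψ w := by
      rw [hψ]
      simp only [Function.comp]
      congr 1
      have h4 : ∀ j, β j (w (σ j)) = β (σ j) (w (σ j)) := fun j => by rw [(hinv σ hσ j).2]
      rw [Finset.prod_congr rfl fun j _ => h4 j]
      exact Equiv.prod_comp σ fun j => β j (w j)
    have h5 : (∀ j, ((w ∘ σ) j : ℕ) < r j) ↔ ∀ j, (w j : ℕ) < r j := by
      constructor
      · intro h j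
        have := h (σ⁻¹ j)
        have e1 : σ (σ⁻¹ j) = j := σ.apply_symm_apply j
        rw [Function.comp, e1] at this
        have h6 := (hinv σ hσ (σ⁻¹ j)).1
        rw [e1] at h6
        rwa [h6]
      · intro h j
        have := h (σ j)
        rw [(hinv σ hσ j).1] at this
        exact this
    rw [h3, h5]
  have h3 : ∑ w : Fin n → Fin N, ψ w * ((dcoef e w : ℚ) : ℂ) = ∑ b ∈ I, b * ((cb b : ℚ) : ℂ) := by
    have h4 : ∀ b ∈ I, b * ((cb b : ℚ) : ℂ) = ∑ w : Fin n → Fin N,
        if ψ w = b then ψ w * ((dcoef e w : ℚ) : ℂ) else 0 := by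
      intro b _
      rw [hcb]
      push_cast
      rw [Finset.mul_sum]
      refine Finset.sum_congr rfl fun w _ => ?_
      by_cases hb : ψ w = b
      · rw [if_pos hb]
        by_cases hw : ∀ j, (w j : ℕ) < r j
        · rw [if_pos ⟨hb, hw⟩, hb]
        · rw [if_neg (fun h => hw h.2), ← hb, hR w hw]
          simp
      · rw [if_neg hb, if_neg (fun h => hb h.1)]
        simp
    rw [Finset.sum_congr rfl h4, Finset.sum_comm]
    refine Finset.sum_congr rfl fun w _ => ?_
    rw [Finset.sum_ite_eq, if_pos (mem_image_of_mem _ (mem_univ w))]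
  have h4 : ∑ b ∈ I, cb b = ∑ w : Fin n → Fin N, if (∀ j, (w j : ℕ) < r j) then dcoef e w else 0 := by
    rw [hcb, Finset.sum_comm]
    refine Finset.sum_congr rfl fun w _ => ?_
    by_cases hw : ∀ j, (w j : ℕ) < r j
    · rw [if_pos hw]
      have h5 : ∀ b ∈ I, (if (ψ w = b ∧ ∀ j, (w j : ℕ) < r j) then dcoef e w else 0) =
          if ψ w = b then dcoef e w else 0 := by
        intro b _
        by_cases hb : ψ w = b
        · rw [if_pos ⟨hb, hw⟩, if_pos hb]
        · rw [if_neg (fun h => hb h.1), if_neg hb]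
      rw [Finset.sum_congr rfl h5, Finset.sum_ite_eq, if_pos (mem_image_of_mem _ (mem_univ w))]
    · rw [if_neg hw]
      exact Finset.sum_eq_zero fun b _ => if_neg fun h => hw h.2
  rw [h1, h3, dim_eq e r hr (fun σ hσ j => (hinv σ hσ j).1), ← h4]
  refine (norm_sum_le _ _).trans ?_
  push_cast
  rw [Finset.mul_sum]
  refine Finset.sum_le_sum fun b hb => ?_
  have h5 : ‖((cb b : ℚ) : ℂ)‖ = ((cb b : ℚ) : ℝ) := by
    rw [← Complex.ofReal_ratCast, Complex.norm_real, Real.norm_eq_abs, abs_of_nonneg]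
    exact_mod_cast hcb0 b
  rw [norm_mul, h5]
  refine mul_le_mul_of_nonneg_right ?_ (by exact_mod_cast hcb0 b)
  rw [hI, mem_image] at hb
  obtain ⟨w, _, rfl⟩ := hb
  rw [hψ]
  simp only
  rw [norm_pow, norm_prod]
  refine pow_le_pow_left₀ (Finset.prod_nonneg fun _ _ => norm_nonneg _) ?_ m
  calc ∏ j, ‖β j (w j)‖ ≤ ∏ _j : Fin n, c := Finset.prod_le_prod (fun _ _ => norm_nonneg _)
        fun j _ => hβ j (w j)
    _ = c ^ n := by simp

end

end Pool.Agent.W350
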