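import Pool.Agent.W350.Eigen
import Pool.Agent.W350.Schur

/-!
The weight bound for direct summands of tensor products of `h¹` of hyperelliptic curves.
-/

set_option autoImplicit false
set_option linter.unusedSectionVars false

namespace Pool.Agent.W350

open Polynomial Finset Pool.Agent.H341R2

open Classical in
theorem concrete_bound {n : ℕ} (f : Fin n → ℤ[X]) (hodd : ∀ j, Odd (f j).natDegree)
    (e : MonoidAlgebra ℚ (Equiv.Perm (Fin n))) (he : e * e = e)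
    (hinv : ∀ σ, e.coeff σ ≠ 0 → ∀ j, f (σ j) = f j) {p : Nat.Primes}
    (hp : ∀ j, GoodPrime (f j) 1 p) {m : ℕ} (hm : 1 ≤ m) :
    ‖∑ σ : Equiv.Perm (Fin n), ((e.coeff σ * ((Equiv.Perm.sign σ : ℤ) : ℚ) : ℚ) : ℂ) *
      ∏ q : Orb σ, (traceH1 (f q.out) 1 p (m * len σ q) : ℂ)‖ ≤
      ((∑ σ : Equiv.Perm (Fin n), e.coeff σ * ((Equiv.Perm.sign σ : ℤ) : ℚ) *
        ∏ q : Orb σ, (((f q.out).natDegree - 1 : ℕ) : ℚ) : ℚ) : ℝ) *
        (p : ℝ) ^ ((n : ℝ) * m / 2) := by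
  have hex : ∀ g : ℤ[X], ∃ β : ℕ → ℂ, (Odd g.natDegree ∧ GoodPrime g 1 p) →
      (∀ j, ‖β j‖ ≤ Real.sqrt (p : ℝ)) ∧ (∀ j, g.natDegree - 1 ≤ j → β j = 0) ∧
      ∀ m, 1 ≤ m → (traceH1 g 1 p m : ℂ) = ∑ j ∈ range (g.natDegree - 1), β j ^ m := by
    intro g
    by_cases h : Odd g.natDegree ∧ GoodPrime g 1 p
    · obtain ⟨β, hβ⟩ := eigen_curve h.1 h.2
      exact ⟨β, fun _ => hβ⟩
    · exact ⟨0, fun h' => absurd h' h⟩
  choose B hB using hex
  have hB' : ∀ j, (∀ a, ‖B (f j) a‖ ≤ Real.sqrt (p : ℝ)) ∧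
      (∀ a, (f j).natDegree - 1 ≤ a → B (f j) a = 0) ∧
      ∀ m, 1 ≤ m → (traceH1 (f j) 1 p m : ℂ) = ∑ a ∈ range ((f j).natDegree - 1), B (f j) a ^ m :=
    fun j => hB (f j) ⟨hodd j, hp j⟩
  set N : ℕ := ∑ j, (f j).natDegree with hN
  have hr : ∀ j, (f j).natDegree - 1 ≤ N := fun j =>
    (Nat.sub_le _ _).trans (Finset.single_le_sum (f := fun j => (f j).natDegree)
      (fun _ _ => Nat.zero_le _) (mem_univ j))
  have h1 := schur_bound (N := N) e he (fun j a => B (f j) a) (fun j => (f j).natDegree - 1) hr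
    (fun j a ha => (hB' j).2.1 a ha) (c := Real.sqrt (p : ℝ)) (fun j a => (hB' j).1 a)
    (fun σ hσ j => by simp only [hinv σ hσ j]; exact ⟨trivial, trivial⟩) hm
  have h2 : ∀ σ : Equiv.Perm (Fin n), ∀ q : Orb σ,
      (traceH1 (f q.out) 1 p (m * len σ q) : ℂ) = ∑ a : Fin N, (B (f q.out) a) ^ (m * len σ q) := by
    intro σ q
    have h3 : 1 ≤ m * len σ q := Nat.mul_pos hm (len_pos σ q)
    rw [(hB' q.out).2.2 _ h3,
      Fin.sum_univ_eq_sum_range (fun a => B (f q.out) a ^ (m * len σ q)) N]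
    refine Finset.sum_subset (Finset.range_mono (hr q.out)) fun a _ ha => ?_
    rw [(hB' q.out).2.1 a (by simpa using ha), zero_pow (by omega)]
  simp only [h2]
  refine h1.trans (le_of_eq ?_)
  rw [mul_comm]
  congr 1
  rw [← pow_mul, Real.sqrt_eq_rpow, ← Real.rpow_natCast, ← Real.rpow_mul (Nat.cast_nonneg _)]
  congr 1
  push_cast
  ring

end Pool.Agent.W350
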