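import Pool.Agent.H341R2.WeilSharp
import Pool.Agent.H341R2.CurveFacts

/-!
Frobenius eigenvalues of hyperelliptic curves with one point at infinity.
-/

set_option autoImplicit false
set_option linter.unusedSectionVars false

namespace Pool.Agent.W350

open Polynomial Finset Pool.Agent.H341R2 Pool.Agent.H341R2.Sharp

/-- Newton's identities for a product of linear factors -/
theorem newton_prod (s : Multiset ℂ) : ∀ n : ℕ,
    (n : ℂ) * ((s.map fun α => (1 - C α * X : ℂ[X])).prod).coeff n =
      -∑ j ∈ range n, ((s.map fun α => (1 - C α * X : ℂ[X])).prod).coeff (n - 1 - j) *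
        (s.map fun α => α ^ (j + 1)).sum := by
  induction s using Multiset.induction_on with
  | empty =>
    intro n
    simp only [Multiset.map_zero, Multiset.prod_zero, Multiset.sum_zero, mul_zero,
      Finset.sum_const_zero, neg_zero]
    rcases Nat.eq_zero_or_pos n with h | h
    · simp [h]
    · rw [coeff_one, if_neg (by omega), mul_zero]
  | cons α s ih =>
    intro n
    set P : ℂ[X] := (s.map fun α => (1 - C α * X : ℂ[X])).prod with hP
    set q : ℕ → ℂ := fun j => (s.map fun α => α ^ (j + 1)).sum with hq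
    have hih : ∀ n : ℕ, (n : ℂ) * P.coeff n = -∑ j ∈ range n, P.coeff (n - 1 - j) * q j := ih
    simp only [Multiset.map_cons, Multiset.prod_cons, Multiset.sum_cons]
    rw [← hP]
    have hc0 : ((1 - C α * X) * P).coeff 0 = P.coeff 0 := by
      rw [sub_mul, one_mul, coeff_sub, mul_assoc, coeff_C_mul, coeff_X_mul_zero, mul_zero, sub_zero]
    have hc : ∀ k, ((1 - C α * X) * P).coeff (k + 1) = P.coeff (k + 1) - α * P.coeff k := by
      intro k
      rw [sub_mul, one_mul, coeff_sub, mul_assoc, coeff_C_mul, coeff_X_mul]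
    rcases n with _ | k
    · simp
    · rw [hc, Finset.sum_range_succ]
      have h1 : k + 1 - 1 - k = 0 := by omega
      rw [h1, hc0]
      have h2 : ∀ j ∈ range k, ((1 - C α * X) * P).coeff (k + 1 - 1 - j) *
          (α ^ (j + 1) + (s.map fun α => α ^ (j + 1)).sum) =
          P.coeff (k + 1 - 1 - j) * q j - α * (P.coeff (k - 1 - j) * q j) +
            (P.coeff (k + 1 - 1 - j) * α ^ (j + 1) - P.coeff (k + 1 - 1 - (j + 1)) * α ^ (j + 2)) := by
        intro j hj
        rw [mem_range] at hj
        have e1 : k + 1 - 1 - j = (k - 1 - j) + 1 := by omega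
        have e2 : k + 1 - 1 - (j + 1) = k - 1 - j := by omega
        rw [e1, hc, e2]
        change _ * (α ^ (j + 1) + q j) = _
        ring
      rw [Finset.sum_congr rfl h2, Finset.sum_add_distrib, Finset.sum_sub_distrib,
        ← Finset.mul_sum]
      have h3 : ∑ j ∈ range k, (P.coeff (k + 1 - 1 - j) * α ^ (j + 1) -
          P.coeff (k + 1 - 1 - (j + 1)) * α ^ (j + 2)) =
          P.coeff k * α - P.coeff 0 * α ^ (k + 1) := by
        have h4 := Finset.sum_range_sub' (fun j => P.coeff (k + 1 - 1 - j) * α ^ (j + 1)) k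
        simp only [Nat.sub_zero, zero_add, pow_one] at h4
        have h5 : k + 1 - 1 - k = 0 := by omega
        rw [h5, Nat.add_sub_cancel] at h4
        exact h4
      have h6 := hih k
      have h7 := hih (k + 1)
      rw [Finset.sum_range_succ, h1] at h7
      rw [h3]
      change _ = -(_ - α * ∑ j ∈ range k, P.coeff (k - 1 - j) * q j + _ + _ * (_ + q k))
      push_cast at h7 ⊢
      linear_combination h7 - α * h6

/-- the power sums are determined by the polynomial -/
theorem power_unique (a : ℂ[X]) (ha0 : a.coeff 0 = 1) (S S' : ℕ → ℂ)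
    (h : ∀ n : ℕ, (n : ℂ) * a.coeff n = ∑ m ∈ Icc 1 n, a.coeff (n - m) * S m)
    (h' : ∀ n : ℕ, (n : ℂ) * a.coeff n = ∑ m ∈ Icc 1 n, a.coeff (n - m) * S' m) :
    ∀ m, 1 ≤ m → S m = S' m := by
  intro m
  induction m using Nat.strong_induction_on with
  | _ n ih =>
    intro hn
    have h1 := h n
    rw [h' n] at h1
    obtain ⟨k, rfl⟩ : ∃ k, n = k + 1 := ⟨n - 1, by omega⟩
    rw [Finset.sum_Icc_succ_top (by omega), Finset.sum_Icc_succ_top (by omega), Nat.sub_self,
      ha0, one_mul, one_mul] at h1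
    have h2 : ∑ m ∈ Icc 1 k, a.coeff (k + 1 - m) * S m =
        ∑ m ∈ Icc 1 k, a.coeff (k + 1 - m) * S' m := by
      refine Finset.sum_congr rfl fun m hm => ?_
      rw [mem_Icc] at hm
      rw [ih m (by omega) hm.1]
    rw [h2] at h1
    exact (add_left_cancel h1).symm

theorem eq_prod_roots (a : ℂ[X]) (ha0 : a.coeff 0 = 1) :
    a = ((a.roots.map fun z => z⁻¹).map fun α => (1 - C α * X : ℂ[X])).prod := by
  have ha : a ≠ 0 := by
    rintro rfl
    simp at ha0
  have h1 : a = C a.leadingCoeff * (a.roots.map fun z => X - C z).prod :=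
    (IsAlgClosed.splits a).eq_prod_roots
  have hz : ∀ z ∈ a.roots, z ≠ 0 := by
    rintro z hz rfl
    rw [mem_roots ha, IsRoot.def, ← coeff_zero_eq_eval_zero, ha0] at hz
    exact one_ne_zero hz
  have h2 : (a.roots.map fun z => X - C z).prod =
      (a.roots.map fun z => C (-z)).prod *
        ((a.roots.map fun z => z⁻¹).map fun α => (1 - C α * X : ℂ[X])).prod := by
    rw [Multiset.map_map, ← Multiset.prod_map_mul]
    congr 1
    refine Multiset.map_congr rfl fun z hz' => ?_
    have := hz z hz'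
    simp only [Function.comp]
    rw [mul_sub, mul_one, ← mul_assoc, ← C_mul]
    have e : -z * z⁻¹ = -1 := by field_simp
    rw [e, C_neg, C_neg, C_1]
    ring
  have h3 : a = (C a.leadingCoeff * (a.roots.map fun z => C (-z)).prod) *
      ((a.roots.map fun z => z⁻¹).map fun α => (1 - C α * X : ℂ[X])).prod := by
    rw [mul_assoc, ← h2, ← h1]
  have h4 : (a.roots.map fun z => (C (-z) : ℂ[X])).prod = C (a.roots.map fun z => -z).prod := by
    rw [← Multiset.prod_hom _ (C : ℂ →+* ℂ[X]), Multiset.map_map]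
    rfl
  rw [h4, ← C_mul] at h3
  have h5 : (((a.roots.map fun z => z⁻¹).map fun α => (1 - C α * X : ℂ[X])).prod).coeff 0 = 1 := by
    rw [coeff_zero_eq_eval_zero, eval_multiset_prod, Multiset.map_map]
    apply Multiset.prod_eq_one
    intro x hx
    rw [Multiset.mem_map] at hx
    obtain ⟨y, _, rfl⟩ := hx
    simp
  have h6 : a.leadingCoeff * (a.roots.map fun z => -z).prod = 1 := by
    have := congrArg (fun f : ℂ[X] => f.coeff 0) h3
    simp only [coeff_C_mul, h5, ha0, mul_one] at this
    exact this.symm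
  rw [h6, C_1, one_mul] at h3
  exact h3

theorem eigen_monic {F : Type} [Field F] [Fintype F] [DecidableEq F] (hF : ringChar F ≠ 2)
    {f : F[X]} (hf : f.Monic) (hd : 1 ≤ f.natDegree)
    (hns : ∀ (c : F) (h : F[X]), f ≠ C c * h ^ 2) :
    ∃ α : ℕ → ℂ, (∀ j, ‖α j‖ ≤ Real.sqrt (Fintype.card F)) ∧
      (∀ j, f.natDegree - 1 ≤ j → α j = 0) ∧
      ∀ m, 1 ≤ m → (T f m : ℂ) = -∑ j ∈ range (f.natDegree - 1), α j ^ m := by
  classical
  set d := f.natDegree with hdd
  obtain ⟨r, hr, hlam⟩ := exists_r hF hf hd hns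
  have hA : ∀ n, d ≤ n → A f n = 0 := fun n hn => A_eq_zero f r hf hr hlam n hn
  set a : ℂ[X] := ∑ n ∈ range d, C (A f n : ℂ) * X ^ n with ha
  have hcoeff : ∀ n, a.coeff n = (A f n : ℂ) := by
    intro n
    rw [ha, finsetSum_coeff]
    simp_rw [coeff_C_mul_X_pow]
    by_cases hn : n < d
    · rw [sum_eq_single n]
      · simp
      · intro m _ hm
        rw [if_neg (Ne.symm hm)]
      · intro h
        exact absurd (mem_range.2 hn) h
    · rw [hA n (by omega)]
      rw [sum_eq_zero]
      · simp
      · intro m hm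
        rw [mem_range] at hm
        rw [if_neg (by omega)]
  have hdeg : a.natDegree ≤ d - 1 := by
    rw [natDegree_le_iff_coeff_eq_zero]
    intro n hn
    rw [hcoeff, hA n (by omega)]
    simp
  have hq0 : 0 < Real.sqrt (Fintype.card F) := Real.sqrt_pos.2 (by exact_mod_cast Fintype.card_pos)
  have ha0 : a.coeff 0 = 1 := by rw [hcoeff, A_zero]; simp
  have hTb : ∀ m, 1 ≤ m → ‖(T f m : ℂ)‖ ≤ (5 * d) * (Real.sqrt (Fintype.card F)) ^ m := by
    intro m hm
    have := (T_bound hF hf hd hns m hm).1
    rw [Complex.norm_intCast]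
    exact this
  have hid : ∀ n : ℕ, (n : ℂ) * a.coeff n = ∑ m ∈ Icc 1 n, a.coeff (n - m) * (T f m : ℂ) := by
    intro n
    rw [hcoeff]
    have := n_mul_A f n
    simp_rw [hcoeff]
    exact_mod_cast this
  have hroot : ∀ z, a.eval z = 0 → 1 ≤ Real.sqrt (Fintype.card F) * ‖z‖ := fun z hz =>
    root_norm a ha0 (fun m => (T f m : ℂ)) _ (5 * d) hq0 (by positivity) hTb hid z hz
  have haz : a ≠ 0 := by
    intro h
    rw [h] at ha0
    simp at ha0
  set s : Multiset ℂ := a.roots.map fun z => z⁻¹ with hs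
  have hcard : s.card ≤ d - 1 := by
    rw [hs, Multiset.card_map]
    exact (card_roots' a).trans hdeg
  have hsn : ∀ z ∈ s, ‖z‖ ≤ Real.sqrt (Fintype.card F) := by
    intro z hz
    rw [hs, Multiset.mem_map] at hz
    obtain ⟨y, hy, rfl⟩ := hz
    rw [mem_roots haz] at hy
    have h1 := hroot y hy
    have hy0 : 0 < ‖y‖ := by
      rcases (norm_nonneg y).eq_or_lt with h | h
      · rw [← h, mul_zero] at h1
        linarith
      · exact h
    rw [norm_inv, inv_le_iff_one_le_mul₀ hy0]
    exact h1
  have hpow : ∀ m, 1 ≤ m → (T f m : ℂ) = -(s.map fun α => α ^ m).sum := by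
    refine power_unique a ha0 _ (fun m => -(s.map fun α => α ^ m).sum) hid ?_
    intro n
    have h1 := newton_prod s n
    rw [← eq_prod_roots a ha0] at h1
    rw [h1, ← Finset.sum_neg_distrib]
    refine Finset.sum_bij (fun j _ => j + 1) ?_ ?_ ?_ ?_
    · intro j hj
      rw [mem_range] at hj
      rw [mem_Icc]
      omega
    · intro i _ j _ h
      omega
    · intro m hm
      rw [mem_Icc] at hm
      exact ⟨m - 1, mem_range.2 (by omega), by omega⟩
    · intro j hj
      rw [mem_range] at hj
      have e : n - 1 - j = n - (j + 1) := by omega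
      rw [e]
      ring
  obtain ⟨l, hl⟩ : ∃ l : List ℂ, (l : Multiset ℂ) = s := Quot.exists_rep s
  refine ⟨fun j => l.getD j 0, ?_, ?_, ?_⟩
  · intro j
    beta_reduce
    by_cases hj : j < l.length
    · rw [List.getD_eq_getElem _ _ hj]
      apply hsn
      rw [← hl]
      exact List.getElem_mem hj
    · rw [List.getD_eq_default _ _ (by omega), norm_zero]
      exact Real.sqrt_nonneg _
  · intro j hj
    beta_reduce
    rw [List.getD_eq_default]
    rw [← hl, Multiset.coe_card] at hcard
    omega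
  · intro m hm
    rw [hpow m hm, ← hl, Multiset.map_coe, Multiset.sum_coe]
    congr 1
    rw [← hl, Multiset.coe_card] at hcard
    have h1 : ∀ (l : List ℂ) (N : ℕ), l.length ≤ N →
        (l.map fun α => α ^ m).sum = ∑ j ∈ range N, (l.getD j 0) ^ m := by
      intro l
      induction l with
      | nil =>
        intro N _
        simp [zero_pow (by omega : m ≠ 0)]
      | cons x l ih =>
        intro N hN
        obtain ⟨M, rfl⟩ : ∃ M, N = M + 1 := ⟨N - 1, by simp at hN; omega⟩
        rw [Finset.sum_range_succ', List.map_cons, List.sum_cons, ih M (by simpa using hN)]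
        simp [add_comm]
    exact h1 l (d - 1) hcard

/-- Frobenius eigenvalues of the curve `y² = f(x)`, `deg f` odd, at a good prime. -/
theorem eigen_curve {f : ℤ[X]} (hodd : Odd f.natDegree) {p : Nat.Primes} (h : GoodPrime f 1 p) :
    ∃ β : ℕ → ℂ, (∀ j, ‖β j‖ ≤ Real.sqrt (p : ℝ)) ∧ (∀ j, f.natDegree - 1 ≤ j → β j = 0) ∧
      ∀ m, 1 ≤ m → (traceH1 f 1 p m : ℂ) = ∑ j ∈ range (f.natDegree - 1), β j ^ m := by
  classical
  have hp : Fact (p : ℕ).Prime := ⟨p.2⟩
  set g : (ZMod (p : ℕ))[X] := f.map (Int.castRingHom (ZMod (p : ℕ))) with hg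
  set c : ZMod (p : ℕ) := ((f.leadingCoeff : ℤ) : ZMod (p : ℕ)) with hc
  have hc0 : c ≠ 0 := by
    rw [hc, Ne, ZMod.intCast_zmod_eq_zero_iff_dvd]
    exact h.not_dvd_lc
  have hgd : g.natDegree = f.natDegree := by
    rw [hg]
    exact natDegree_map_of_leadingCoeff_ne_zero _ (by simpa using hc0)
  have hglc : g.leadingCoeff = c := by
    rw [leadingCoeff, hgd, hg, coeff_map]
    rfl
  set g1 : (ZMod (p : ℕ))[X] := C c⁻¹ * g with hg1
  have hgg1 : g = C c * g1 := by
    rw [hg1, ← mul_assoc, ← C_mul, mul_inv_cancel₀ hc0, C_1, one_mul]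
  have hmon : g1.Monic := by
    rw [Monic, hg1, leadingCoeff_mul, leadingCoeff_C, hglc, inv_mul_cancel₀ hc0]
  have hg1d : g1.natDegree = f.natDegree := by
    rw [hg1, natDegree_C_mul (inv_ne_zero hc0), hgd]
  have hd1 : 1 ≤ f.natDegree := hodd.pos
  have hsep : g1.Separable := by
    have h1 : g.Separable := h.2
    rw [hgg1] at h1
    exact h1.of_mul_right
  have hF : ringChar (ZMod (p : ℕ)) ≠ 2 := by
    rw [ZMod.ringChar_zmod_n]
    exact h.ne_two
  obtain ⟨α, hα1, hα2, hα3⟩ := eigen_monic hF hmon (by omega) (not_const_mul_sq hsep (by omega))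
  rw [hg1d] at hα2 hα3
  rw [ZMod.card] at hα1
  have hleg : legendreSym p f.leadingCoeff = 1 ∨ legendreSym p f.leadingCoeff = -1 :=
    legendreSym.eq_one_or_neg_one p hc0
  refine ⟨fun j => (legendreSym p f.leadingCoeff : ℂ) * α j, ?_, ?_, ?_⟩
  · intro j
    beta_reduce
    rw [norm_mul]
    rcases hleg with h1 | h1 <;> rw [h1] <;> simpa using hα1 j
  · intro j hj
    beta_reduce
    rw [hα2 j hj, mul_zero]
  · intro m hm
    have hm0 : m ≠ 0 := by omega
    let _ : Fintype (GaloisField p m) := Fintype.ofFinite _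
    have h1 := traceH1_eq h m hm0
    have hinf : @charInf (GaloisField p m) _ (Fintype.ofFinite _) _ f = 0 := by
      rw [charInf, if_pos hodd]
    rw [hinf, add_zero, legendreSym.at_one, one_pow, one_mul] at h1
    have hring : ringChar (GaloisField p m) = p := ringChar.eq (GaloisField p m) p
    have hT := T_eq_sum (F := ZMod (p : ℕ)) (E := GaloisField p m) hF g1
    rw [GaloisField.finrank p hm0] at hT
    have hS : @charS (GaloisField p m) _ (Fintype.ofFinite _) _ f =
        legendreSym p f.leadingCoeff ^ m * Sharp.T g1 m := by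
      rw [hT, charS, Finset.mul_sum]
      refine Finset.sum_congr rfl fun x _ => ?_
      have h2 : aeval x f = ((f.leadingCoeff : ℤ) : GaloisField p m) * aeval x g1 := by
        have h3 : aeval x f = aeval x g :=
          (aeval_map_algebraMap (ZMod (p : ℕ)) x f).symm
        rw [h3, hgg1, map_mul, aeval_C, hc, map_intCast]
      rw [h2, map_mul, galoisField_quadraticChar p h.ne_two m hm0 _ h.not_dvd_lc]
    rw [h1, hS]
    push_cast
    rw [hα3 m hm]
    simp only [mul_pow]
    rw [← Finset.mul_sum]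
    ring

end Pool.Agent.W350
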