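import Pool.Agent.W350.HomsFrob

/-!
Artin's induction theorem for rational class functions, in the form needed for densities.
-/

set_option autoImplicit false
set_option linter.unusedSectionVars false

namespace Pool.Agent.W350

open Finset

section

variable {G : Type} [Group G] [Fintype G]

open Classical in
theorem span1 : ∀ n : ℕ, ∀ f : G → ℝ, (∀ x y, Subgroup.zpowers x = Subgroup.zpowers y → f x = f y) →
    (∀ x, n < orderOf x → f x = 0) →
    ∃ h : G → ℝ, ∀ x, f x = ∑ g, if x ∈ Subgroup.zpowers g then h g else 0 := by
  intro n
  induction n with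
  | zero =>
    intro f _ h0
    refine ⟨0, fun x => ?_⟩
    rw [h0 x (orderOf_pos x)]
    simp
  | succ n ih =>
    intro f hf h0
    let N : G → ℕ := fun g => (univ.filter fun g' : G => Subgroup.zpowers g' = Subgroup.zpowers g).card
    have hN : ∀ g, 0 < N g := fun g => Finset.card_pos.2 ⟨g, by simp⟩
    let h1 : G → ℝ := fun g => if orderOf g = n + 1 then f g / N g else 0
    obtain ⟨h2, hh2⟩ := ih (fun x => f x - ∑ g, if x ∈ Subgroup.zpowers g then h1 g else 0) (by
        intro x y hxy
        have e : ∀ g, (x ∈ Subgroup.zpowers g ↔ y ∈ Subgroup.zpowers g) := by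
          intro g
          rw [← Subgroup.zpowers_le, ← Subgroup.zpowers_le, hxy]
        simp only [hf x y hxy, e])
      (by
        intro x hx
        rcases Nat.lt_or_ge (n + 1) (orderOf x) with h3 | h3
        · have e : ∀ g, (if x ∈ Subgroup.zpowers g then h1 g else 0) = 0 := by
            intro g
            split_ifs with h4
            · have h5 : orderOf x ∣ orderOf g := by
                rw [← Nat.card_zpowers, ← Nat.card_zpowers]
                exact Subgroup.card_dvd_of_le ((Subgroup.zpowers_le).2 h4)
              have h6 := Nat.le_of_dvd (orderOf_pos g) h5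
              have h7 : orderOf g ≠ n + 1 := by omega
              simp only [h1, if_neg h7]
            · rfl
          simp only [e, Finset.sum_const_zero, sub_zero]
          exact h0 x h3
        · have h4 : orderOf x = n + 1 := by omega
          have e : ∀ g, (if x ∈ Subgroup.zpowers g then h1 g else 0) =
              if Subgroup.zpowers g = Subgroup.zpowers x then f x / N x else 0 := by
            intro g
            by_cases h5 : Subgroup.zpowers g = Subgroup.zpowers x
            · rw [if_pos h5, if_pos (h5 ▸ Subgroup.mem_zpowers x)]
              have h6 : orderOf g = n + 1 := by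
                rw [← Nat.card_zpowers, h5, Nat.card_zpowers, h4]
              have h7 : N g = N x := by simp only [N, h5]
              simp only [h1, if_pos h6, h7, hf g x h5]
            · rw [if_neg h5]
              split_ifs with h6
              · by_cases h7 : orderOf g = n + 1
                · exfalso
                  apply h5
                  symm
                  apply Subgroup.eq_of_le_of_card_ge ((Subgroup.zpowers_le).2 h6)
                  rw [Nat.card_zpowers, Nat.card_zpowers, h7, h4]
                · simp only [h1, if_neg h7]
              · rfl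
          simp only [e]
          rw [← Finset.sum_filter, Finset.sum_const, nsmul_eq_mul]
          have h6 : ((univ.filter fun g' : G => Subgroup.zpowers g' = Subgroup.zpowers x).card : ℝ) =
              N x := rfl
          rw [h6, mul_div_cancel₀ _ (by exact_mod_cast (hN x).ne'), sub_self])
    refine ⟨fun g => h1 g + h2 g, fun x => ?_⟩
    have h3 := hh2 x
    rw [sub_eq_iff_eq_add] at h3
    rw [h3, ← Finset.sum_add_distrib]
    refine Finset.sum_congr rfl fun g _ => ?_
    split_ifs <;> ring

open Classical in
/-- the number of `a` with `a⁻¹ x a ∈ H` -/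
theorem card_conj (H : Subgroup G) (x : G) :
    ((univ.filter fun a : G => a⁻¹ * x * a ∈ H).card : ℝ) = Nat.card H * fixCos H x := by
  have e : {a : G // a⁻¹ * x * a ∈ H} ≃ {q : G ⧸ H // x • q = q} × H := by
    refine (Equiv.subtypeEquiv (Subgroup.groupEquivQuotientProdSubgroup (s := H))
      (q := fun y => x • y.1 = y.1) ?_).trans
      { toFun := fun y => (⟨y.1.1, y.2⟩, y.1.2)
        invFun := fun y => ⟨(y.1.1, y.2), y.1.2⟩
        left_inv := fun y => rfl
        right_inv := fun y => rfl }
    intro a
    have h1 : (Subgroup.groupEquivQuotientProdSubgroup (s := H) a).1 = (a : G ⧸ H) := rfl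
    rw [h1]
    change _ ↔ ((x * a : G) : G ⧸ H) = (a : G ⧸ H)
    rw [eq_comm, QuotientGroup.eq, mul_assoc]
  have h1 := Nat.card_congr e
  rw [Nat.card_prod, Nat.card_eq_fintype_card, Fintype.card_subtype] at h1
  rw [h1, fixCos]
  push_cast
  ring

/-- **Artin induction**: a class function which is constant on the generators of each cyclic
subgroup is a combination of permutation characters on cosets of cyclic subgroups, with sum of
coefficients its mean value. -/
theorem artin_induction (f : G → ℝ)
    (hz : ∀ x y, Subgroup.zpowers x = Subgroup.zpowers y → f x = f y)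
    (hc : ∀ a x, f (a⁻¹ * x * a) = f x) :
    ∃ c : G → ℝ, (∀ x, f x = ∑ g, c g * fixCos (Subgroup.zpowers g) x) ∧
      ∑ g, c g = (∑ x, f x) / Fintype.card G := by
  classical
  obtain ⟨h, hh⟩ := span1 (Fintype.card G) f hz (fun x hx => by
    have := orderOf_le_card_univ (x := x)
    omega)
  have hG : (Fintype.card G : ℝ) ≠ 0 := by exact_mod_cast Fintype.card_ne_zero
  refine ⟨fun g => h g * Nat.card (Subgroup.zpowers g) / Fintype.card G, fun x => ?_, ?_⟩
  · have h1 : (Fintype.card G : ℝ) * f x = ∑ a : G, f (a⁻¹ * x * a) := by
      simp only [hc, Finset.sum_const, Finset.card_univ, nsmul_eq_mul]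
    have h2 : ∑ a : G, f (a⁻¹ * x * a) =
        ∑ g, h g * (Nat.card (Subgroup.zpowers g) * fixCos (Subgroup.zpowers g) x) := by
      rw [Finset.sum_congr rfl fun a _ => hh (a⁻¹ * x * a), Finset.sum_comm]
      refine Finset.sum_congr rfl fun g _ => ?_
      rw [← card_conj, ← Finset.sum_filter, Finset.sum_const, nsmul_eq_mul, mul_comm]
    rw [h2] at h1
    rw [← mul_right_inj' hG, h1, Finset.mul_sum]
    refine Finset.sum_congr rfl fun g _ => ?_
    field_simp
  · rw [← Finset.sum_div]
    congr 1
    rw [Finset.sum_congr rfl fun x _ => hh x, Finset.sum_comm]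
    refine Finset.sum_congr rfl fun g _ => ?_
    rw [← Finset.sum_filter, Finset.sum_const, nsmul_eq_mul, mul_comm]
    congr 1
    rw [Nat.card_eq_fintype_card, Fintype.card_subtype]

end

end Pool.Agent.W350
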