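import Pool.Agent.W350.Mean

/-!
Bessel's inequality at the edge for almost orthogonal systems, with the quadratic mean.
-/

set_option autoImplicit false
set_option linter.unusedSectionVars false

namespace Pool.Agent.W350

open Complex Filter Topology ComplexConjugate Pool.Agent.H341R2

section

variable {κ : Type} [DecidableEq κ]

theorem pointwise (K : Finset κ) (t : ℂ) (v : κ → ℂ) (m : κ → ℝ) :
    ‖t + ∑ k ∈ K, (m k : ℂ) * v k‖ ^ 2 =
      ‖t‖ ^ 2 + (∑ k ∈ K, 2 * (m k * (t * conj (v k)).re) +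
        ∑ k ∈ K, ∑ l ∈ K, (m k * m l) * (v k * conj (v l)).re) := by
  have e1 : ‖t + ∑ k ∈ K, (m k : ℂ) * v k‖ ^ 2 =
      ((t + ∑ k ∈ K, (m k : ℂ) * v k) * conj (t + ∑ k ∈ K, (m k : ℂ) * v k)).re := by
    rw [Complex.mul_conj, Complex.ofReal_re, Complex.normSq_eq_norm_sq]
  have e2 : ‖t‖ ^ 2 = (t * conj (t)).re := by
    rw [Complex.mul_conj, Complex.ofReal_re, Complex.normSq_eq_norm_sq]
  have e3 : ((∑ k ∈ K, (m k : ℂ) * v k) * conj (t)).re =
      (t * conj (∑ k ∈ K, (m k : ℂ) * v k)).re := by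
    rw [← Complex.conj_re, map_mul, Complex.conj_conj, mul_comm]
  have e4 : (t * conj (∑ k ∈ K, (m k : ℂ) * v k)).re =
      ∑ k ∈ K, m k * (t * conj (v k)).re := by
    rw [map_sum, Finset.mul_sum, Complex.re_sum]
    refine Finset.sum_congr rfl fun k _ => ?_
    rw [map_mul, Complex.conj_ofReal, mul_left_comm, Complex.re_ofReal_mul]
  have e5 : ((∑ k ∈ K, (m k : ℂ) * v k) * conj (∑ k ∈ K, (m k : ℂ) * v k)).re =
      ∑ k ∈ K, ∑ l ∈ K, (m k * m l) * (v k * conj (v l)).re := by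
    rw [map_sum, Finset.sum_mul_sum, Complex.re_sum]
    refine Finset.sum_congr rfl fun k _ => ?_
    rw [Complex.re_sum]
    refine Finset.sum_congr rfl fun l _ => ?_
    rw [map_mul, Complex.conj_ofReal]
    have : (m k : ℂ) * v k * ((m l : ℂ) * conj (v l)) =
        ((m k * m l : ℝ) : ℂ) * (v k * conj (v l)) := by
      push_cast; ring
    rw [this, Complex.re_ofReal_mul]
  rw [e1, map_add, add_mul, mul_add, mul_add, Complex.add_re, Complex.add_re, Complex.add_re,
    e3, e4, e5, e2, ← Finset.mul_sum]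
  ring

theorem abs_re_mul_conj_le {x y : ℂ} {a b : ℝ} (hx : ‖x‖ ≤ a) (hy : ‖y‖ ≤ b) :
    |(x * conj y).re| ≤ a * b := by
  refine (Complex.abs_re_le_norm _).trans ?_
  rw [norm_mul, Complex.norm_conj]
  exact mul_le_mul hx hy (norm_nonneg _) ((norm_nonneg _).trans hx)

theorem expand (K : Finset κ) (t : Nat.Primes → ℂ) (v : κ → Nat.Primes → ℂ) (m : κ → ℝ)
    (b : ℝ) (ht : ∀ p, ‖t p‖ ≤ b) (c : κ → ℝ) (hv : ∀ k p, ‖v k p‖ ≤ c k) {ε : ℝ} (hε : 0 < ε) :
    0 ≤ E ε (fun p => ‖t p‖ ^ 2) + (∑ k ∈ K, 2 * (m k * E ε fun p => (t p * conj (v k p)).re) +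
          ∑ k ∈ K, ∑ l ∈ K, (m k * m l) * E ε fun p => (v k p * conj (v l p)).re) := by
  have hbt : ∀ p, |‖t p‖ ^ 2| ≤ b ^ 2 := by
    intro p
    rw [abs_of_nonneg (sq_nonneg _)]
    exact pow_le_pow_left₀ (norm_nonneg _) (ht p) 2
  have hb1' : ∀ k p, |2 * (m k * (t p * conj (v k p)).re)| ≤ 2 * (|m k| * (b * c k)) := by
    intro k p
    rw [abs_mul, abs_mul, abs_two]
    gcongr
    exact abs_re_mul_conj_le (ht p) (hv k p)
  have hb2' : ∀ k l p, |m k * m l * (v k p * conj (v l p)).re| ≤ |m k * m l| * (c k * c l) := by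
    intro k l p
    rw [abs_mul]
    gcongr
    exact abs_re_mul_conj_le (hv k p) (hv l p)
  have hS2 : ∀ k p, |∑ l ∈ K, m k * m l * (v k p * conj (v l p)).re| ≤
      ∑ l ∈ K, |m k * m l| * (c k * c l) := fun k p =>
    (Finset.abs_sum_le_sum_abs _ _).trans (Finset.sum_le_sum fun l _ => hb2' k l p)
  have hexp : E ε (fun p => ‖t p + ∑ k ∈ K, (m k : ℂ) * v k p‖ ^ 2) =
      E ε (fun p => ‖t p‖ ^ 2) + (∑ k ∈ K, 2 * (m k * E ε fun p => (t p * conj (v k p)).re) +
        ∑ k ∈ K, ∑ l ∈ K, (m k * m l) * E ε fun p => (v k p * conj (v l p)).re) := by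
    have s1 : ∀ p, |∑ k ∈ K, 2 * (m k * (t p * conj (v k p)).re)| ≤
        ∑ k ∈ K, 2 * (|m k| * (b * c k)) := fun p =>
      (Finset.abs_sum_le_sum_abs _ _).trans (Finset.sum_le_sum fun k _ => hb1' k p)
    have s2 : ∀ p, |∑ k ∈ K, ∑ l ∈ K, (m k * m l) * (v k p * conj (v l p)).re| ≤
        ∑ k ∈ K, ∑ l ∈ K, |m k * m l| * (c k * c l) := fun p =>
      (Finset.abs_sum_le_sum_abs _ _).trans (Finset.sum_le_sum fun k _ => hS2 k p)
    rw [funext fun p => pointwise K (t p) (fun k => v k p) m,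
      E_add hε hbt (B' := ∑ k ∈ K, 2 * (|m k| * (b * c k)) +
      ∑ k ∈ K, ∑ l ∈ K, |m k * m l| * (c k * c l))
      (fun p => (abs_add_le _ _).trans (add_le_add (s1 p) (s2 p))), E_add hε s1 s2,
      E_sum hε K _ (fun k => 2 * (|m k| * (b * c k))) (fun k _ p => hb1' k p),
      E_sum hε K _ (fun k => ∑ l ∈ K, |m k * m l| * (c k * c l)) (fun k _ p => hS2 k p)]
    congr 2
    · refine Finset.sum_congr rfl fun k _ => ?_
      rw [E_const_mul, E_const_mul]
    · refine Finset.sum_congr rfl fun k _ => ?_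
      rw [E_sum hε K _ (fun l => |m k * m l| * (c k * c l)) (fun l _ p => hb2' k l p)]
      refine Finset.sum_congr rfl fun l _ => ?_
      rw [E_const_mul]
  rw [← hexp]
  exact E_nonneg fun p => sq_nonneg _

theorem E_const {ε : ℝ} (c : ℝ) : E ε (fun _ => c) = c * lam ε := by
  rw [E, lam, ← tsum_mul_left]

/-- **Bessel's inequality at the edge.** -/
theorem bessel_refined (K : Finset κ) (t : Nat.Primes → ℂ) (v : κ → Nat.Primes → ℂ)
    (n : κ → ℝ) (hn : ∀ k ∈ K, 0 < n k) (b : ℝ) (ht : ∀ p, ‖t p‖ ≤ b)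
    (c : κ → ℝ) (hv : ∀ k p, ‖v k p‖ ≤ c k)
    (horth : ∀ k ∈ K, ∀ l ∈ K,
      PNegl fun p => (v k p * conj (v l p)).re - if k = l then n k else 0)
    {η : ℝ} (hη : 0 < η) :
    ∀ᶠ ε : ℝ in 𝓝[>] 0, ∑ k ∈ K, (E ε fun p => (t p * conj (v k p)).re) ^ 2 / n k ≤
      lam ε * E ε (fun p => ‖t p‖ ^ 2) + η * (lam ε) ^ 2 := by
  have hb0 : 0 ≤ b := (norm_nonneg _).trans (ht ⟨2, Nat.prime_two⟩)
  have hc0 : ∀ k, 0 ≤ c k := fun k => (norm_nonneg _).trans (hv k ⟨2, Nat.prime_two⟩)
  set M : ℝ := ∑ k ∈ K, ∑ l ∈ K, (b * c k / n k) * (b * c l / n l) with hM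
  have hM0 : 0 ≤ M := Finset.sum_nonneg fun k hk => Finset.sum_nonneg fun l hl => by
    have h1 := hn k hk
    have h2 := hn l hl
    have h3 := hc0 k
    have h4 := hc0 l
    positivity
  set δ : ℝ := η / (M + 1) with hδ
  have hδ0 : 0 < δ := by positivity
  have ev1 : ∀ᶠ ε : ℝ in 𝓝[>] 0, ∀ k ∈ K, ∀ l ∈ K,
      |E ε fun p => (v k p * conj (v l p)).re - if k = l then n k else 0| ≤ δ * lam ε := by
    rw [Filter.eventually_all_finset]
    intro k hk
    rw [Filter.eventually_all_finset]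
    intro l hl
    exact horth k hk l hl δ hδ0
  filter_upwards [ev1, self_mem_nhdsWithin, lam_tendsto.eventually_gt_atTop 0] with ε h1 h2 hlam
  have hε : (0 : ℝ) < ε := h2
  set A : κ → ℝ := fun k => E ε fun p => (t p * conj (v k p)).re with hA
  have hAb : ∀ k, |A k| ≤ b * c k * lam ε := by
    intro k
    have h3 : ∀ p, |(t p * conj (v k p)).re| ≤ b * c k := fun p =>
      abs_re_mul_conj_le (ht p) (hv k p)
    rw [abs_le]
    constructor
    · have h4 := E_le hε (φ := fun p => (-1) * (t p * conj (v k p)).re) (B := b * c k)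
        (fun p => by rw [abs_mul, abs_neg, abs_one, one_mul]; exact h3 p)
        (b := b * c k) (fun p => by have := (abs_le.1 (h3 p)).1; linarith)
      rw [E_const_mul] at h4
      linarith
    · exact E_le hε h3 fun p => (le_abs_self _).trans (h3 p)
  have hG : ∀ k ∈ K, ∀ l ∈ K, (E ε fun p => (v k p * conj (v l p)).re) =
      (if k = l then n k else 0) * lam ε +
        E ε fun p => (v k p * conj (v l p)).re - if k = l then n k else 0 := by
    intro k hk l hl
    have h3 : ∀ p, |(v k p * conj (v l p)).re - if k = l then n k else 0| ≤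
        c k * c l + |if k = l then n k else 0| := fun p =>
      (abs_sub _ _).trans (by gcongr; exact abs_re_mul_conj_le (hv k p) (hv l p))
    rw [← E_const, ← E_add hε (B := |if k = l then n k else 0|) (fun _ => le_refl _) h3]
    congr 1
    funext p
    ring
  have h0 := expand K t v (fun k => -(A k / (n k * lam ε))) b ht c hv hε
  have h3 : ∑ k ∈ K, 2 * (-(A k / (n k * lam ε)) * E ε fun p => (t p * conj (v k p)).re) =
      -2 * ∑ k ∈ K, A k ^ 2 / (n k * lam ε) := by
    rw [Finset.mul_sum]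
    refine Finset.sum_congr rfl fun k hk => ?_
    change 2 * (-(A k / (n k * lam ε)) * A k) = _
    ring
  have h4 : ∑ k ∈ K, ∑ l ∈ K, (-(A k / (n k * lam ε)) * -(A l / (n l * lam ε))) *
      (E ε fun p => (v k p * conj (v l p)).re) ≤
      ∑ k ∈ K, A k ^ 2 / (n k * lam ε) + M * (δ * lam ε) := by
    have h5 : ∀ k ∈ K, ∀ l ∈ K, (-(A k / (n k * lam ε)) * -(A l / (n l * lam ε))) *
      (E ε fun p => (v k p * conj (v l p)).re) ≤
        (if k = l then A k ^ 2 / (n k * lam ε) else 0) +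
          ((b * c k / n k) * (b * c l / n l)) * (δ * lam ε) := by
      intro k hk l hl
      have hk0 := hn k hk
      have hl0 := hn l hl
      rw [hG k hk l hl, mul_add]
      refine add_le_add (le_of_eq ?_) ?_
      · split_ifs with hkl
        · subst hkl
          field_simp
        · ring
      · refine (le_abs_self _).trans ?_
        rw [abs_mul]
        refine mul_le_mul ?_ (h1 k hk l hl) (abs_nonneg _) ?_
        · rw [abs_mul, abs_neg, abs_neg, abs_div, abs_div, abs_of_pos (mul_pos hk0 hlam),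
            abs_of_pos (mul_pos hl0 hlam)]
          have q1 : |A k| / (n k * lam ε) ≤ b * c k / n k := by
            rw [div_le_div_iff₀ (mul_pos hk0 hlam) hk0]
            calc |A k| * n k ≤ (b * c k * lam ε) * n k :=
                  mul_le_mul_of_nonneg_right (hAb k) hk0.le
              _ = b * c k * (n k * lam ε) := by ring
          have q2 : |A l| / (n l * lam ε) ≤ b * c l / n l := by
            rw [div_le_div_iff₀ (mul_pos hl0 hlam) hl0]
            calc |A l| * n l ≤ (b * c l * lam ε) * n l :=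
                  mul_le_mul_of_nonneg_right (hAb l) hl0.le
              _ = b * c l * (n l * lam ε) := by ring
          exact mul_le_mul q1 q2 (by positivity) ((by positivity : (0 : ℝ) ≤ _).trans q1)
        · have h7 := hc0 k
          have h8 := hc0 l
          positivity
    refine (Finset.sum_le_sum fun k hk => Finset.sum_le_sum fun l hl => h5 k hk l hl).trans ?_
    have h6 : ∑ k ∈ K, ∑ l ∈ K, ((if k = l then A k ^ 2 / (n k * lam ε) else 0) +
          ((b * c k / n k) * (b * c l / n l)) * (δ * lam ε)) =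
        ∑ k ∈ K, A k ^ 2 / (n k * lam ε) + M * (δ * lam ε) := by
      rw [hM, Finset.sum_mul, ← Finset.sum_add_distrib]
      refine Finset.sum_congr rfl fun k hk => ?_
      rw [Finset.sum_add_distrib, Finset.sum_ite_eq, if_pos hk, Finset.sum_mul]
    exact h6.le
  rw [h3] at h0
  have h5 : ∑ k ∈ K, A k ^ 2 / (n k * lam ε) ≤ E ε (fun p => ‖t p‖ ^ 2) + M * (δ * lam ε) := by
    linarith
  have h6 : ∑ k ∈ K, A k ^ 2 / n k = lam ε * ∑ k ∈ K, A k ^ 2 / (n k * lam ε) := by
    rw [Finset.mul_sum]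
    refine Finset.sum_congr rfl fun k hk => ?_
    have hk0 := hn k hk
    field_simp
  change ∑ k ∈ K, A k ^ 2 / n k ≤ _
  rw [h6]
  have h7 : M * δ ≤ η := by
    rw [hδ, mul_div_assoc']
    rw [div_le_iff₀ (by positivity)]
    nlinarith
  calc lam ε * ∑ k ∈ K, A k ^ 2 / (n k * lam ε)
      ≤ lam ε * (E ε (fun p => ‖t p‖ ^ 2) + M * (δ * lam ε)) :=
        mul_le_mul_of_nonneg_left h5 hlam.le
    _ = lam ε * E ε (fun p => ‖t p‖ ^ 2) + (M * δ) * (lam ε) ^ 2 := by ring
    _ ≤ _ := by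
        have := mul_le_mul_of_nonneg_right h7 (sq_nonneg (lam ε))
        linarith

end

end Pool.Agent.W350
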