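import Mathlib

/-!
Characters of rational representations are constant on the generators of cyclic subgroups.
-/

set_option autoImplicit false
set_option linter.unusedSectionVars false

namespace Pool.Agent.W350

open Module

section

/-- over `ℂ`, the traces of the powers of an endomorphism of finite order are the power sums of its
eigenvalues -/
theorem trace_pow_eq {W : Type} [AddCommGroup W] [Module ℂ W] [FiniteDimensional ℂ W]
    (b : Module.End ℂ W) {n : ℕ} (hn : 0 < n) (hb : b ^ n = 1) :
    ∃ (I : Type) (_ : Fintype I) (μ : I → ℂ), (∀ i, μ i ^ n = 1) ∧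
      ∀ k : ℕ, LinearMap.trace ℂ W (b ^ k) = ∑ i, μ i ^ k := by
  classical
  have hss : b.IsSemisimple := by
    apply Module.End.isSemisimple_of_squarefree_aeval_eq_zero (p := Polynomial.X ^ n - 1)
    · apply Polynomial.Separable.squarefree
      have h1 : (Polynomial.X ^ n - 1 : Polynomial ℂ) = Polynomial.X ^ n - Polynomial.C 1 := by simp
      rw [h1]
      exact Polynomial.separable_X_pow_sub_C 1 (by exact_mod_cast hn.ne') one_ne_zero
    · simp [hb]
  let eigenDecomp := DirectSum.isInternal_submodule_of_iSupIndep_of_iSup_eq_top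
    b.eigenspaces_iSupIndep hss.iSup_eigenspace_eq_top
  let I := (ν : ℂ) × Fin (finrank ℂ (b.eigenspace ν))
  let v : Basis I ℂ W := eigenDecomp.collectedBasis fun μ ↦ finBasis ℂ (b.eigenspace μ)
  have : Fintype I := FiniteDimensional.fintypeBasisIndex v
  let μ : I → ℂ := Sigma.fst
  have hsv (i : I) : b (v i) = μ i • v i :=
    Module.End.mem_eigenspace_iff.mp (eigenDecomp.collectedBasis_mem _ i)
  have hpow : ∀ k : ℕ, ∀ i : I, (b ^ k) (v i) = μ i ^ k • v i := by
    intro k i
    induction k with
    | zero => simp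
    | succ k ih =>
      rw [pow_succ', Module.End.mul_apply, ih, map_smul, hsv, smul_smul, pow_succ]
  refine ⟨I, this, μ, fun i => ?_, fun k => ?_⟩
  · have h1 := hpow n i
    rw [hb, Module.End.one_apply] at h1
    have h2 : (μ i ^ n - 1) • v i = 0 := by rw [sub_smul, one_smul, ← h1, sub_self]
    rcases smul_eq_zero.1 h2 with h3 | h3
    · exact sub_eq_zero.1 h3
    · exact absurd h3 (v.ne_zero i)
  · rw [LinearMap.trace_eq_matrix_trace ℂ v, Matrix.trace]
    refine Finset.sum_congr rfl fun i _ => ?_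
    rw [Matrix.diag_apply, LinearMap.toMatrix_apply, hpow, map_smul, Basis.repr_self]
    simp

theorem trace_pow_coprime {V : Type} [AddCommGroup V] [Module ℚ V] [FiniteDimensional ℚ V]
    (a : Module.End ℚ V) {n : ℕ} (hn : 0 < n) (ha : a ^ n = 1) {j : ℕ} (hj : j.Coprime n) :
    LinearMap.trace ℚ V (a ^ j) = LinearMap.trace ℚ V a := by
  classical
  set b : Module.End ℂ (TensorProduct ℚ ℂ V) := LinearMap.baseChange ℂ a with hb
  have hbp : ∀ k : ℕ, b ^ k = LinearMap.baseChange ℂ (a ^ k) := by
    intro k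
    induction k with
    | zero => rw [pow_zero, pow_zero]; exact (LinearMap.baseChange_id).symm
    | succ k ih =>
      rw [pow_succ, pow_succ, ih, hb]
      exact (LinearMap.baseChange_comp _ _).symm
  have hbn : b ^ n = 1 := by
    rw [hbp, ha]
    exact LinearMap.baseChange_id
  obtain ⟨I, _, μ, hμ, htr⟩ := trace_pow_eq b hn hbn
  have htr' : ∀ k : ℕ, ((LinearMap.trace ℚ V (a ^ k) : ℚ) : ℂ) = ∑ i, μ i ^ k := by
    intro k
    rw [← htr, hbp, LinearMap.trace_baseChange]
    rfl
  -- a primitive root of unity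
  have : NeZero n := ⟨hn.ne'⟩
  have hζ : IsPrimitiveRoot (Complex.exp (2 * Real.pi * Complex.I / n)) n :=
    Complex.isPrimitiveRoot_exp n hn.ne'
  set ζ : ℂ := Complex.exp (2 * Real.pi * Complex.I / n) with hζdef
  choose e he using fun i => (hζ.eq_pow_of_pow_eq_one (hμ i))
  -- the polynomial
  set g : Polynomial ℚ := ∑ i, Polynomial.X ^ (e i) - Polynomial.C (LinearMap.trace ℚ V a) with hg
  have hev : ∀ z : ℂ, Polynomial.aeval z g = ∑ i, z ^ (e i) - ((LinearMap.trace ℚ V a : ℚ) : ℂ) := by
    intro z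
    rw [hg, map_sub, map_sum]
    simp
  have h1 : Polynomial.aeval ζ g = 0 := by
    rw [hev, sub_eq_zero]
    have := htr' 1
    rw [pow_one] at this
    rw [this]
    refine Finset.sum_congr rfl fun i _ => ?_
    rw [(he i).2, pow_one]
  have h2 : Polynomial.cyclotomic n ℚ ∣ g := by
    rw [Polynomial.cyclotomic_eq_minpoly_rat hζ hn]
    exact minpoly.dvd ℚ ζ h1
  have h3 : Polynomial.aeval (ζ ^ j) g = 0 := by
    obtain ⟨q, hq⟩ := h2
    rw [hq, map_mul, Polynomial.cyclotomic_eq_minpoly_rat (hζ.pow_of_coprime j hj) hn,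
      minpoly.aeval, zero_mul]
  rw [hev, sub_eq_zero] at h3
  have h4 := htr' j
  have h5 : ∑ i, μ i ^ j = ∑ i, (ζ ^ j) ^ (e i) := by
    refine Finset.sum_congr rfl fun i _ => ?_
    rw [← (he i).2, ← pow_mul, ← pow_mul, mul_comm]
  rw [h5, h3] at h4
  exact_mod_cast h4

/-- the character of a rational representation is constant on the generators of a cyclic
subgroup -/
theorem trace_zpowers {G : Type} [Group G] [Fintype G] {V : Type} [AddCommGroup V] [Module ℚ V]
    [FiniteDimensional ℚ V] (ρ : Representation ℚ G V) (x y : G)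
    (h : Subgroup.zpowers x = Subgroup.zpowers y) :
    LinearMap.trace ℚ V (ρ x) = LinearMap.trace ℚ V (ρ y) := by
  have hy : y ∈ Subgroup.zpowers x := h ▸ Subgroup.mem_zpowers y
  have hfin : IsOfFinOrder x := isOfFinOrder_of_finite x
  rw [← hfin.mem_powers_iff_mem_zpowers] at hy
  obtain ⟨j, hj⟩ := hy
  simp only at hj
  have ho : orderOf y = orderOf x := by
    rw [← Nat.card_zpowers, ← h, Nat.card_zpowers]
  have hco : j.Coprime (orderOf x) := by
    rw [← hj, hfin.orderOf_pow] at ho
    have h1 := orderOf_pos x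
    have h2 : (orderOf x).gcd j = 1 := by
      have h3 : (orderOf x).gcd j ∣ orderOf x := Nat.gcd_dvd_left _ _
      have h4 := Nat.div_mul_cancel h3
      rw [ho] at h4
      exact Nat.eq_of_mul_eq_mul_left h1 (by rw [h4, mul_one])
    rw [Nat.coprime_comm]
    exact h2
  rw [← hj, map_pow]
  refine (trace_pow_coprime (ρ x) (orderOf_pos x) ?_ hco).symm
  rw [← map_pow, pow_orderOf_eq_one, map_one]

theorem trace_conj {G : Type} [Group G] {V : Type} [AddCommGroup V] [Module ℚ V]
    (ρ : Representation ℚ G V) (a x : G) :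
    LinearMap.trace ℚ V (ρ (a⁻¹ * x * a)) = LinearMap.trace ℚ V (ρ x) := by
  rw [map_mul, LinearMap.trace_mul_comm, ← map_mul]
  congr 2
  group

end

end Pool.Agent.W350
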