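import Pool.Agent.W350.Bessel
import Pool.Agent.W350.RatChar

/-!
The edge inequality for Euler products twisted by rational Artin representations.
-/

set_option autoImplicit false
set_option linter.unusedSectionVars false

namespace Pool.Agent.W350

open Complex Filter Topology ComplexConjugate NumberField Polynomial Pool.Agent.H341R2

section

variable {K : Type} [Field K] [NumberField K] [IsGalois ℚ K]

/-- the trace of a rational representation, as a real number -/
noncomputable def xr {V : Type} [AddCommGroup V] [Module ℚ V] (ρ : Representation ℚ Gal(K/ℚ) V)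
    (g : Gal(K/ℚ)) : ℝ := ((LinearMap.trace ℚ V (ρ g) : ℚ) : ℝ)

noncomputable def cr {V : Type} [AddCommGroup V] [Module ℚ V]
    (ρ : Representation ℚ Gal(K/ℚ) V) : ℝ := ∑ g, |xr ρ g|

theorem xr_le {V : Type} [AddCommGroup V] [Module ℚ V] (ρ : Representation ℚ Gal(K/ℚ) V)
    (g : Gal(K/ℚ)) : |xr ρ g| ≤ cr ρ :=
  Finset.single_le_sum (f := fun g => |xr ρ g|) (fun _ _ => abs_nonneg _) (Finset.mem_univ g)

theorem cr_nonneg {V : Type} [AddCommGroup V] [Module ℚ V] (ρ : Representation ℚ Gal(K/ℚ) V) :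
    0 ≤ cr ρ := Finset.sum_nonneg fun _ _ => abs_nonneg _

/-- mean value of a product of two rational characters -/
theorem mean_prod {V W : Type} [AddCommGroup V] [Module ℚ V] [FiniteDimensional ℚ V]
    [AddCommGroup W] [Module ℚ W] [FiniteDimensional ℚ W]
    (ρ : Representation ℚ Gal(K/ℚ) V) (σ : Representation ℚ Gal(K/ℚ) W) :
    (∑ g, xr ρ g * xr σ g) / Fintype.card Gal(K/ℚ) =
      Module.finrank ℚ (Representation.IntertwiningMap ρ σ) := by
  have hne : (Nat.card Gal(K/ℚ) : ℚ) ≠ 0 := by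
    rw [Nat.card_eq_fintype_card]
    exact_mod_cast Fintype.card_ne_zero
  let _ : Invertible (Nat.card Gal(K/ℚ) : ℚ) := invertibleOfNonzero hne
  have h1 := Representation.card_inv_mul_sum_char_mul_char_eq_finrank (k := ℚ) ρ σ
  have h2 : ∀ g : Gal(K/ℚ), ρ.character g⁻¹ = ρ.character g := fun g =>
    trace_zpowers ρ g⁻¹ g (by rw [Subgroup.zpowers_inv])
  have h3 := congrArg (fun q : ℚ => (q : ℝ)) h1
  simp only [h2] at h3
  push_cast at h3
  rw [← h3, Nat.card_eq_fintype_card, div_eq_inv_mul]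
  congr 1
  refine Finset.sum_congr rfl fun g _ => ?_
  rw [mul_comm]
  rfl

variable {κ : Type} [DecidableEq κ] {V : κ → Type} [∀ k, AddCommGroup (V k)]
  [∀ k, Module ℚ (V k)] [∀ k, FiniteDimensional ℚ (V k)]

/-- the normalized first coefficients -/
noncomputable def tn (t : Nat.Primes → ℕ → ℂ) (w : ℝ) (S : Finset Nat.Primes) (p : Nat.Primes) : ℂ := by
  classical
  exact if p ∈ S then 0 else t p 1 * (((p : ℝ) ^ (-(w / 2)) : ℝ) : ℂ)

/-- the twisting functions -/
noncomputable def vk (ρ : ∀ k, Representation ℚ Gal(K/ℚ) (V k)) (frob : Nat.Primes → Gal(K/ℚ))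
    (τ : κ → ℝ) (k : κ) (p : Nat.Primes) : ℂ :=
  (xr (ρ k) (frob p) : ℂ) * ((p : ℕ) : ℂ) ^ ((τ k : ℂ) * I)

theorem norm_cpow_I' (p : Nat.Primes) (τ : ℝ) : ‖((p : ℕ) : ℂ) ^ ((τ : ℂ) * I)‖ = 1 := by
  rw [Complex.norm_natCast_cpow_of_pos p.2.pos]
  simp

theorem norm_vk_le (ρ : ∀ k, Representation ℚ Gal(K/ℚ) (V k)) (frob : Nat.Primes → Gal(K/ℚ))
    (τ : κ → ℝ) (k : κ) (p : Nat.Primes) : ‖vk ρ frob τ k p‖ ≤ cr (ρ k) := by
  rw [vk, norm_mul, norm_cpow_I', mul_one, Complex.norm_real]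
  exact xr_le _ _

theorem norm_tn_le {t : Nat.Primes → ℕ → ℂ} {w d : ℝ} {S : Finset Nat.Primes} (hd : 0 ≤ d)
    (ht : ∀ p, p ∉ S → ∀ m : ℕ, ‖t p (m + 1)‖ ≤ d * ((p : ℝ) ^ (w / 2)) ^ (m + 1))
    (p : Nat.Primes) : ‖tn t w S p‖ ≤ d := by
  classical
  unfold tn
  split_ifs with h
  · simpa using hd
  · have h1 := ht p h 0
    have hp0 : (0 : ℝ) < p := by exact_mod_cast p.2.pos
    rw [norm_mul, Complex.norm_real, Real.norm_eq_abs, abs_of_nonneg (by positivity)]
    simp only [zero_add, pow_one] at h1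
    calc ‖t p 1‖ * (p : ℝ) ^ (-(w / 2)) ≤ d * (p : ℝ) ^ (w / 2) * (p : ℝ) ^ (-(w / 2)) :=
          mul_le_mul_of_nonneg_right h1 (by positivity)
      _ = d := by rw [mul_assoc, ← Real.rpow_add hp0, add_neg_cancel, Real.rpow_zero, mul_one]

theorem cpow_I_mul_conj (p : Nat.Primes) (a b : ℝ) :
    ((p : ℕ) : ℂ) ^ ((a : ℂ) * I) * conj (((p : ℕ) : ℂ) ^ ((b : ℂ) * I)) =
      ((p : ℕ) : ℂ) ^ (-(((b - a : ℝ) : ℂ) * I)) := by
  have h0 : ((p : ℕ) : ℂ) ≠ 0 := by exact_mod_cast p.2.ne_zero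
  have h1 : conj (((p : ℕ) : ℂ) ^ ((b : ℂ) * I)) = ((p : ℕ) : ℂ) ^ (-((b : ℂ) * I)) :=
    sysP.conj_cpow_I p b
  rw [h1, ← Complex.cpow_add _ _ h0]
  congr 1
  push_cast
  ring

/-- almost orthogonality of the twisting functions -/
theorem vk_orth (S : Finset Nat.Primes) (frob : Nat.Primes → Gal(K/ℚ))
    (hfrob : ∀ p, p ∉ S → ∃ P, IsFrob (p : ℕ) (frob p) P)
    (ρ : ∀ k, Representation ℚ Gal(K/ℚ) (V k)) (τ : κ → ℝ) (k l : κ)
    (h : k = l ∨ τ k ≠ τ l ∨ Subsingleton (Representation.IntertwiningMap (ρ k) (ρ l))) :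
    PNegl fun p => (vk ρ frob τ k p * conj (vk ρ frob τ l p)).re -
      if k = l then (Module.finrank ℚ (Representation.IntertwiningMap (ρ k) (ρ k)) : ℝ) else 0 := by
  have hre : ∀ p, (vk ρ frob τ k p * conj (vk ρ frob τ l p)).re =
      (xr (ρ k) (frob p) * xr (ρ l) (frob p)) *
        (((p : ℕ) : ℂ) ^ (-(((τ l - τ k : ℝ) : ℂ) * I))).re := by
    intro p
    rw [vk, vk, map_mul, Complex.conj_ofReal, mul_mul_mul_comm, cpow_I_mul_conj,
      ← Complex.ofReal_mul, Complex.re_ofReal_mul]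
  have hm := mean_frob S frob hfrob (fun g => xr (ρ k) g * xr (ρ l) g)
    (fun x y hxy => by
      simp only [xr]
      rw [trace_zpowers (ρ k) x y hxy, trace_zpowers (ρ l) x y hxy])
    (fun a x => by simp only [xr]; rw [trace_conj, trace_conj]) (τ l - τ k)
  rw [mean_prod] at hm
  set M : ℝ := (Module.finrank ℚ (Representation.IntertwiningMap (ρ k) (ρ l)) : ℝ) with hM
  by_cases hτ : τ k = τ l
  · have h1 : ∀ p : Nat.Primes, (((p : ℕ) : ℂ) ^ (-(((τ l - τ k : ℝ) : ℂ) * I))).re = 1 := by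
      intro p
      rw [hτ, sub_self]
      simp
    simp only [hre, h1, mul_one]
    simp only [h1, mul_one] at hm
    have h2 : (if k = l then (Module.finrank ℚ (Representation.IntertwiningMap (ρ k) (ρ k)) : ℝ)
        else 0) = M := by
      split_ifs with hkl
      · subst hkl; rfl
      · have h3 : Subsingleton (Representation.IntertwiningMap (ρ k) (ρ l)) := by
          rcases h with h | h | h
          · exact absurd h hkl
          · exact absurd hτ h
          · exact h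
        rw [hM, Module.finrank_zero_of_subsingleton]
        simp
    rw [h2]
    exact hm
  · have hkl : k ≠ l := fun h => hτ (by rw [h])
    simp only [if_neg hkl, sub_zero, hre]
    have h1 := negl_const_mul M (negl_tau (sub_ne_zero.2 (Ne.symm hτ)))
    have hb1 : ∀ p : Nat.Primes, |((xr (ρ k) (frob p) * xr (ρ l) (frob p)) - M) *
        (((p : ℕ) : ℂ) ^ (-(((τ l - τ k : ℝ) : ℂ) * I))).re| ≤ cr (ρ k) * cr (ρ l) + |M| := by
      intro p
      rw [abs_mul]
      refine (mul_le_of_le_one_right (abs_nonneg _) (abs_cpow_re_le p _)).trans ?_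
      refine (abs_sub _ _).trans (add_le_add_left ?_ _)
      rw [abs_mul]
      exact mul_le_mul (xr_le _ _) (xr_le _ _) (abs_nonneg _) (cr_nonneg _)
    have hb2 : ∀ p : Nat.Primes, |M * (((p : ℕ) : ℂ) ^ (-(((τ l - τ k : ℝ) : ℂ) * I))).re| ≤ |M| := by
      intro p
      rw [abs_mul]
      exact mul_le_of_le_one_right (abs_nonneg _) (abs_cpow_re_le p _)
    have h2 := hm.add h1 hb1 hb2
    refine (iff_of_eq ?_).1 h2
    congr 1
    funext p
    ring

end

end Pool.Agent.W350
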