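import Mathlib

/-!
# Mean values of blocks of Dirichlet polynomials over primes
-/

set_option autoImplicit false

namespace Pool.Agent.W350.Edge

open Filter Topology MeasureTheory Finset

/-- `⌊log n⌋`. -/
noncomputable def lg (n : ℕ) : ℕ := ⌊Real.log n⌋₊

lemma lg_le {n : ℕ} (hn : 1 ≤ n) : (lg n : ℝ) ≤ Real.log n :=
  Nat.floor_le (Real.log_nonneg (by exact_mod_cast hn))

lemma lt_lg (n : ℕ) : Real.log n < lg n + 1 := Nat.lt_floor_add_one _

/-- Chebyshev: the primes with `⌊log p⌋ = k` contribute `O(1/k)` to `∑ 1/p`. -/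
lemma cheb (F : Finset ℕ) (k : ℕ) (hk : 1 ≤ k) (hF : ∀ p ∈ F, p.Prime ∧ lg p = k) :
    ∑ p ∈ F, (1 : ℝ) / p ≤ Real.exp 1 * Real.log 4 / k := by
  have hk0 : (0 : ℝ) < k := by exact_mod_cast hk
  have h1 : ∀ p ∈ F, (1 : ℝ) / p ≤ Real.exp (-k) / k * Real.log p := by
    intro p hp
    obtain ⟨hpp, hl⟩ := hF p hp
    have h2 : (k : ℝ) ≤ Real.log p := by rw [← hl]; exact lg_le hpp.one_le
    have hp0 : (0 : ℝ) < p := by exact_mod_cast hpp.pos
    have h3 : Real.exp k ≤ p := by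
      rw [← Real.le_log_iff_exp_le hp0]; exact h2
    have h4 : (1 : ℝ) / p ≤ Real.exp (-k) := by
      rw [Real.exp_neg, one_div]
      exact inv_anti₀ (Real.exp_pos _) h3
    have h5 : 1 ≤ Real.log p / k := by rw [le_div_iff₀ hk0]; linarith
    calc (1 : ℝ) / p ≤ Real.exp (-k) * 1 := by rw [mul_one]; exact h4
      _ ≤ Real.exp (-k) * (Real.log p / k) :=
        mul_le_mul_of_nonneg_left h5 (Real.exp_pos _).le
      _ = _ := by ring
  have h2 : F ⊆ (Ioc 0 ⌊Real.exp (k + 1)⌋₊).filter Nat.Prime := by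
    intro p hp
    obtain ⟨hpp, hl⟩ := hF p hp
    rw [mem_filter, mem_Ioc]
    refine ⟨⟨hpp.pos, Nat.le_floor ?_⟩, hpp⟩
    have hp0 : (0 : ℝ) < p := by exact_mod_cast hpp.pos
    rw [← Real.log_le_iff_le_exp hp0, ← hl]
    exact (lt_lg p).le
  have h3 : ∑ p ∈ F, Real.log p ≤ Real.log 4 * Real.exp (k + 1) := by
    refine le_trans ?_ (Chebyshev.theta_le_log4_mul_x (Real.exp_pos _).le)
    unfold Chebyshev.theta
    refine sum_le_sum_of_subset_of_nonneg h2 fun p hp _ => ?_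
    rw [mem_filter] at hp
    exact Real.log_nonneg (by exact_mod_cast hp.2.one_le)
  calc ∑ p ∈ F, (1 : ℝ) / p ≤ ∑ p ∈ F, Real.exp (-k) / k * Real.log p := sum_le_sum h1
    _ = Real.exp (-k) / k * ∑ p ∈ F, Real.log p := by rw [mul_sum]
    _ ≤ Real.exp (-k) / k * (Real.log 4 * Real.exp (k + 1)) :=
      mul_le_mul_of_nonneg_left h3 (by positivity)
    _ = Real.exp 1 * Real.log 4 / k := by
      rw [Real.exp_add, Real.exp_neg]
      field_simp

/-- `∑_{l ∈ F} e^{1 - |k - l|} ≤ 12`. -/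
lemma schur_row (F : Finset ℕ) (k : ℕ) :
    ∑ l ∈ F, Real.exp (1 - |(k : ℝ) - l|) ≤ 12 := by
  have h0 : ∀ n : ℕ, Real.exp (-(n : ℝ)) ≤ (1 / 2 : ℝ) ^ n := by
    intro n
    have h1 : Real.exp (-1) ≤ 1 / 2 := by
      rw [Real.exp_neg, one_div]
      refine inv_anti₀ two_pos ?_
      have := Real.add_one_le_exp (1 : ℝ)
      linarith
    calc Real.exp (-(n : ℝ)) = Real.exp (-1) ^ n := by rw [← Real.exp_nat_mul]; ring_nf
      _ ≤ (1 / 2) ^ n := pow_le_pow_left₀ (Real.exp_pos _).le h1 n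
  have hgeo : ∀ G : Finset ℕ, ∑ n ∈ G, (1 / 2 : ℝ) ^ n ≤ 2 := by
    intro G
    have h1 : Summable fun n : ℕ => (1 / 2 : ℝ) ^ n := summable_geometric_two
    refine (h1.sum_le_tsum G fun n _ => by positivity).trans ?_
    rw [tsum_geometric_two]
  have h1 : ∑ l ∈ F, Real.exp (-|(k : ℝ) - l|) ≤ 4 := by
    rw [← sum_filter_add_sum_filter_not F (fun l => l ≤ k)]
    have h2 : ∑ l ∈ F.filter (fun l => l ≤ k), Real.exp (-|(k : ℝ) - l|) ≤ 2 := by
      calc ∑ l ∈ F.filter (fun l => l ≤ k), Real.exp (-|(k : ℝ) - l|)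
          ≤ ∑ l ∈ F.filter (fun l => l ≤ k), (1 / 2 : ℝ) ^ (k - l) := by
            refine sum_le_sum fun l hl => ?_
            rw [mem_filter] at hl
            have : |(k : ℝ) - l| = ((k - l : ℕ) : ℝ) := by
              rw [Nat.cast_sub hl.2, abs_of_nonneg]
              have : (l : ℝ) ≤ k := by exact_mod_cast hl.2
              linarith
            rw [this]
            exact h0 _
        _ = ∑ n ∈ (F.filter (fun l => l ≤ k)).image (fun l => k - l), (1 / 2 : ℝ) ^ n := by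
            rw [sum_image]
            intro x hx y hy hxy
            simp only [coe_filter, Set.mem_ofPred_eq] at hx hy
            simp only at hxy
            omega
        _ ≤ 2 := hgeo _
    have h3 : ∑ l ∈ F.filter (fun l => ¬ l ≤ k), Real.exp (-|(k : ℝ) - l|) ≤ 2 := by
      calc ∑ l ∈ F.filter (fun l => ¬ l ≤ k), Real.exp (-|(k : ℝ) - l|)
          ≤ ∑ l ∈ F.filter (fun l => ¬ l ≤ k), (1 / 2 : ℝ) ^ (l - k) := by
            refine sum_le_sum fun l hl => ?_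
            rw [mem_filter] at hl
            have hlk : k ≤ l := by omega
            have : |(k : ℝ) - l| = ((l - k : ℕ) : ℝ) := by
              rw [Nat.cast_sub hlk, abs_of_nonpos]
              · ring
              have : (k : ℝ) ≤ l := by exact_mod_cast hlk
              linarith
            rw [this]
            exact h0 _
        _ = ∑ n ∈ (F.filter (fun l => ¬ l ≤ k)).image (fun l => l - k), (1 / 2 : ℝ) ^ n := by
            rw [sum_image]
            intro x hx y hy hxy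
            simp only [coe_filter, Set.mem_ofPred_eq] at hx hy
            simp only at hxy
            omega
        _ ≤ 2 := hgeo _
    linarith
  have h2 : ∀ l : ℕ, Real.exp (1 - |(k : ℝ) - l|) = Real.exp 1 * Real.exp (-|(k : ℝ) - l|) := by
    intro l
    rw [← Real.exp_add]
    ring_nf
  simp_rw [h2]
  rw [← mul_sum]
  have h3 : Real.exp 1 ≤ 3 := by
    have := Real.exp_one_lt_d9
    linarith
  calc Real.exp 1 * ∑ l ∈ F, Real.exp (-|(k : ℝ) - l|) ≤ 3 * 4 := by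
        refine mul_le_mul h3 h1 (sum_nonneg fun _ _ => (Real.exp_pos _).le) (by norm_num)
    _ = 12 := by norm_num

/-- The Gaussian mean value of a finite exponential sum. -/
lemma gauss_mean {ι : Type*} (F : Finset ι) (c : ι → ℂ) (u : ι → ℝ) :
    ∫ τ in (0 : ℝ)..1, ‖∑ p ∈ F, c p * Complex.exp (-(τ * u p) * Complex.I)‖ ^ 2 ≤
      6 * ∑ p ∈ F, ∑ q ∈ F, ‖c p‖ * ‖c q‖ * Real.exp (-(u p - u q) ^ 2) := by
  set h : ℝ → ℂ := fun τ => ∑ p ∈ F, c p * Complex.exp (-(τ * u p) * Complex.I) with hh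
  have hcont : Continuous h := by
    rw [hh]
    fun_prop
  -- expansion
  have hexp : ∀ τ : ℝ, ((‖h τ‖ ^ 2 * Real.exp (-(1 / 4) * τ ^ 2) : ℝ) : ℂ) =
      ∑ p ∈ F, ∑ q ∈ F, c p * (starRingEnd ℂ) (c q) *
        (Complex.exp (Complex.I * ((u q - u p : ℝ) : ℂ) * τ) * Complex.exp (-(1 / 4 : ℂ) * (τ : ℂ) ^ 2)) := by
    intro τ
    have h1 : ((‖h τ‖ ^ 2 : ℝ) : ℂ) = h τ * (starRingEnd ℂ) (h τ) := by
      rw [Complex.mul_conj, Complex.normSq_eq_norm_sq]
    rw [Complex.ofReal_mul, h1, hh]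
    simp only [map_sum, map_mul]
    rw [sum_mul_sum, sum_mul]
    refine sum_congr rfl fun p _ => ?_
    rw [sum_mul]
    refine sum_congr rfl fun q _ => ?_
    rw [← Complex.exp_conj]
    have h2 : (starRingEnd ℂ) (-((τ : ℂ) * (u q : ℂ)) * Complex.I) = (τ * u q) * Complex.I := by
      simp
    rw [h2]
    have h3 : ((Real.exp (-(1 / 4) * τ ^ 2) : ℝ) : ℂ) = Complex.exp (-(1 / 4 : ℂ) * (τ : ℂ) ^ 2) := by
      push_cast
      rfl
    rw [h3]
    have h4 : Complex.exp (Complex.I * ((u q - u p : ℝ) : ℂ) * τ) =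
        Complex.exp (-((τ : ℂ) * (u p : ℂ)) * Complex.I) * Complex.exp ((τ * u q) * Complex.I) := by
      rw [← Complex.exp_add]
      congr 1
      push_cast
      ring
    rw [h4]
    ring
  have hb : 0 < ((1 / 4 : ℂ)).re := by norm_num
  have hint : ∀ p q, Integrable fun τ : ℝ => c p * (starRingEnd ℂ) (c q) *
        (Complex.exp (Complex.I * ((u q - u p : ℝ) : ℂ) * τ) *
          Complex.exp (-(1 / 4 : ℂ) * (τ : ℂ) ^ 2)) := by
    intro p q
    refine Integrable.const_mul ?_ _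
    have h1 : Integrable fun τ : ℝ => Complex.exp (-(1 / 4 : ℂ) * (τ : ℂ) ^ 2) :=
      integrable_cexp_neg_mul_sq hb
    refine h1.bdd_mul (c := 1) ?_ ?_
    · exact (by fun_prop : Continuous fun τ : ℝ =>
        Complex.exp (Complex.I * ((u q - u p : ℝ) : ℂ) * τ)).aestronglyMeasurable
    · filter_upwards with τ
      rw [Complex.norm_exp]
      simp
  have hI : ∫ τ : ℝ, ((‖h τ‖ ^ 2 * Real.exp (-(1 / 4) * τ ^ 2) : ℝ) : ℂ) =
      ∑ p ∈ F, ∑ q ∈ F, c p * (starRingEnd ℂ) (c q) *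
        ((Real.pi / (1 / 4 : ℂ)) ^ (1 / 2 : ℂ) * Complex.exp (-((u q - u p : ℝ) : ℂ) ^ 2 / (4 * (1 / 4)))) := by
    simp_rw [hexp]
    rw [integral_finsetSum _ (fun p _ => integrable_finsetSum _ fun q _ => hint p q)]
    refine sum_congr rfl fun p _ => ?_
    rw [integral_finsetSum _ (fun q _ => hint p q)]
    refine sum_congr rfl fun q _ => ?_
    rw [integral_const_mul]
    congr 1
    exact fourierIntegral_gaussian hb _
  have hsq : ‖(Real.pi / (1 / 4 : ℂ)) ^ (1 / 2 : ℂ)‖ ≤ 4 := by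
    have h1 : (Real.pi / (1 / 4 : ℂ)) = ((4 * Real.pi : ℝ) : ℂ) := by push_cast; ring
    rw [h1, Complex.norm_cpow_eq_rpow_re_of_pos (by positivity)]
    have h2 : ((1 / 2 : ℂ)).re = 1 / 2 := by norm_num
    rw [h2, ← Real.sqrt_eq_rpow, Real.sqrt_le_left (by norm_num)]
    have := Real.pi_le_four
    nlinarith [Real.pi_pos]
  have hIn : ‖∫ τ : ℝ, ((‖h τ‖ ^ 2 * Real.exp (-(1 / 4) * τ ^ 2) : ℝ) : ℂ)‖ ≤
      4 * ∑ p ∈ F, ∑ q ∈ F, ‖c p‖ * ‖c q‖ * Real.exp (-(u p - u q) ^ 2) := by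
    rw [hI, mul_sum]
    refine (norm_sum_le _ _).trans (sum_le_sum fun p _ => ?_)
    rw [mul_sum]
    refine (norm_sum_le _ _).trans (sum_le_sum fun q _ => ?_)
    rw [norm_mul, norm_mul, norm_mul, RCLike.norm_conj]
    have h1 : ‖Complex.exp (-((u q - u p : ℝ) : ℂ) ^ 2 / (4 * (1 / 4)))‖ =
        Real.exp (-(u p - u q) ^ 2) := by
      have : (-((u q - u p : ℝ) : ℂ) ^ 2 / (4 * (1 / 4))) = ((-(u p - u q) ^ 2 : ℝ) : ℂ) := by
        push_cast
        ring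
      rw [this, ← Complex.ofReal_exp, Complex.norm_real, Real.norm_of_nonneg (Real.exp_pos _).le]
    rw [h1]
    calc ‖c p‖ * ‖c q‖ * (‖(Real.pi / (1 / 4 : ℂ)) ^ (1 / 2 : ℂ)‖ * Real.exp (-(u p - u q) ^ 2))
        ≤ ‖c p‖ * ‖c q‖ * (4 * Real.exp (-(u p - u q) ^ 2)) := by gcongr
      _ = _ := by ring
  rw [integral_complex_ofReal, Complex.norm_real] at hIn
  have hint2 : Integrable fun τ : ℝ => ‖h τ‖ ^ 2 * Real.exp (-(1 / 4) * τ ^ 2) := by
    have h1 : Integrable fun τ : ℝ => ((‖h τ‖ ^ 2 * Real.exp (-(1 / 4) * τ ^ 2) : ℝ) : ℂ) := by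
      simp_rw [hexp]
      exact integrable_finsetSum _ fun p _ => integrable_finsetSum _ fun q _ => hint p q
    have h2 := h1.re
    simpa only [RCLike.re_eq_complex_re, Complex.ofReal_re] using h2
  have h5 : ∫ τ in (0 : ℝ)..1, ‖h τ‖ ^ 2 ≤
      Real.exp (1 / 4) * ∫ τ : ℝ, ‖h τ‖ ^ 2 * Real.exp (-(1 / 4) * τ ^ 2) := by
    rw [intervalIntegral.integral_of_le zero_le_one]
    have h6 : ∫ τ in Set.Ioc (0 : ℝ) 1, ‖h τ‖ ^ 2 ≤ ∫ τ in Set.Ioc (0 : ℝ) 1,
        Real.exp (1 / 4) * (‖h τ‖ ^ 2 * Real.exp (-(1 / 4) * τ ^ 2)) := by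
      refine setIntegral_mono_on ?_ ?_ measurableSet_Ioc ?_
      · exact ((hcont.norm.pow 2).integrableOn_Icc (a := 0) (b := 1)).mono_set
          Set.Ioc_subset_Icc_self
      · exact (hint2.const_mul _).integrableOn
      · intro τ hτ
        have h7 : 1 ≤ Real.exp (1 / 4) * Real.exp (-(1 / 4) * τ ^ 2) := by
          rw [← Real.exp_add]
          refine Real.one_le_exp ?_
          nlinarith [hτ.1, hτ.2]
        nlinarith [sq_nonneg ‖h τ‖]
    refine h6.trans ?_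
    rw [integral_const_mul]
    refine mul_le_mul_of_nonneg_left ?_ (Real.exp_pos _).le
    exact setIntegral_le_integral hint2 (ae_of_all _ fun τ => by positivity)
  have h6 : Real.exp (1 / 4) ≤ 3 / 2 := by
    have h7 : Real.exp (1 / 4) ^ 4 ≤ (3 / 2) ^ 4 := by
      rw [← Real.exp_nat_mul]
      have := Real.exp_one_lt_d9
      norm_num
      linarith
    exact le_of_pow_le_pow_left₀ (by norm_num) (by norm_num) h7
  have h7 : ∫ τ : ℝ, ‖h τ‖ ^ 2 * Real.exp (-(1 / 4) * τ ^ 2) ≤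
      4 * ∑ p ∈ F, ∑ q ∈ F, ‖c p‖ * ‖c q‖ * Real.exp (-(u p - u q) ^ 2) :=
    (le_abs_self _).trans hIn
  have h8 : 0 ≤ ∑ p ∈ F, ∑ q ∈ F, ‖c p‖ * ‖c q‖ * Real.exp (-(u p - u q) ^ 2) :=
    sum_nonneg fun _ _ => sum_nonneg fun _ _ => by positivity
  calc ∫ τ in (0 : ℝ)..1, ‖h τ‖ ^ 2
      ≤ Real.exp (1 / 4) * ∫ τ : ℝ, ‖h τ‖ ^ 2 * Real.exp (-(1 / 4) * τ ^ 2) := h5
    _ ≤ Real.exp (1 / 4) * (4 * ∑ p ∈ F, ∑ q ∈ F, ‖c p‖ * ‖c q‖ *
          Real.exp (-(u p - u q) ^ 2)) := mul_le_mul_of_nonneg_left h7 (Real.exp_pos _).le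
    _ ≤ 3 / 2 * (4 * ∑ p ∈ F, ∑ q ∈ F, ‖c p‖ * ‖c q‖ *
          Real.exp (-(u p - u q) ^ 2)) := mul_le_mul_of_nonneg_right h6 (by positivity)
    _ = _ := by ring

end Pool.Agent.W350.Edge
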