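import Pool.Agent.W350.Edge1

/-!
# Block mean values, a Sobolev inequality and the counting of bad intervals
-/

set_option autoImplicit false

namespace Pool.Agent.W350.Edge

open Filter Topology MeasureTheory Finset

/-- The constant in Chebyshev's bound. -/
noncomputable def CC : ℝ := Real.exp 1 * Real.log 4

lemma CC_pos : 0 < CC := by
  unfold CC
  have : 0 < Real.log 4 := Real.log_pos (by norm_num)
  positivity

lemma sum_inv_le {F : Finset ℕ} {K L : ℕ} (hK : 1 ≤ K)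
    (hF : ∀ p ∈ F, p.Prime ∧ K ≤ lg p ∧ lg p < K + L) (g : ℕ → ℝ) (hg : ∀ l, 0 ≤ g l) :
    ∑ p ∈ F, (1 : ℝ) / p * g (lg p) ≤ CC / K * ∑ l ∈ Ico K (K + L), g l := by
  have hmaps : ∀ p ∈ F, lg p ∈ Ico K (K + L) := fun p hp => mem_Ico.2 (hF p hp).2
  rw [← sum_fiberwise_of_maps_to hmaps, mul_sum]
  refine sum_le_sum fun l hl => ?_
  have hKl : K ≤ l := (mem_Ico.1 hl).1
  have h1 : ∑ p ∈ F with lg p = l, (1 : ℝ) / p * g (lg p) =
      (∑ p ∈ F with lg p = l, (1 : ℝ) / p) * g l := by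
    rw [sum_mul]
    refine sum_congr rfl fun p hp => ?_
    rw [(mem_filter.1 hp).2]
  rw [h1]
  refine mul_le_mul_of_nonneg_right ?_ (hg l)
  refine (cheb _ l (hK.trans hKl) fun p hp => ?_).trans ?_
  · rw [mem_filter] at hp
    exact ⟨(hF p hp.1).1, hp.2⟩
  · have hK0 : (0 : ℝ) < K := by exact_mod_cast hK
    have hKl' : (K : ℝ) ≤ l := by exact_mod_cast hKl
    exact div_le_div_of_nonneg_left CC_pos.le hK0 hKl'

lemma sum_inv_le' {F : Finset ℕ} {K L : ℕ} (hK : 1 ≤ K)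
    (hF : ∀ p ∈ F, p.Prime ∧ K ≤ lg p ∧ lg p < K + L) :
    ∑ p ∈ F, (1 : ℝ) / p ≤ CC / K * L := by
  have := sum_inv_le hK hF (fun _ => 1) (fun _ => zero_le_one)
  simpa using this

lemma kappa_le {p q : ℕ} (hp : 1 ≤ p) (hq : 1 ≤ q) (κ : ℝ) :
    Real.exp (-((Real.log p - κ) - (Real.log q - κ)) ^ 2) ≤
      Real.exp (1 - |(lg p : ℝ) - lg q|) := by
  refine Real.exp_le_exp.2 ?_
  have h1 := lg_le hp
  have h2 := lt_lg p
  have h3 := lg_le hq
  have h4 := lt_lg q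
  set Δ := Real.log p - Real.log q with hΔ
  have h5 : (Real.log p - κ) - (Real.log q - κ) = Δ := by rw [hΔ]; ring
  rw [h5]
  have h6 : |(lg p : ℝ) - lg q| < |Δ| + 1 := by
    rw [abs_lt]
    constructor
    · have := neg_abs_le Δ
      linarith
    · have := le_abs_self Δ
      linarith
  by_cases h7 : 1 ≤ |Δ|
  · have h8 : |Δ| ≤ Δ ^ 2 := by rw [← sq_abs]; nlinarith
    linarith
  · have h8 : |(lg p : ℝ) - lg q| < 2 := by linarith
    have h9 : |(lg p : ℤ) - lg q| < 2 := by exact_mod_cast h8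
    have h10 : |(lg p : ℤ) - lg q| ≤ 1 := by omega
    have h11 : |(lg p : ℝ) - lg q| ≤ 1 := by exact_mod_cast h10
    nlinarith [sq_nonneg Δ]

/-- The mean square of a block. -/
lemma block_mean {F : Finset ℕ} {K L : ℕ} (hK : 1 ≤ K)
    (hF : ∀ p ∈ F, p.Prime ∧ K ≤ lg p ∧ lg p < K + L) (c : ℕ → ℂ) (M : ℝ) (hM : 0 ≤ M)
    (hc : ∀ p ∈ F, ‖c p‖ ≤ M / p) (κ : ℝ) :
    ∫ τ in (0 : ℝ)..1, ‖∑ p ∈ F, c p * Complex.exp (-(τ * (Real.log p - κ : ℝ)) * Complex.I)‖ ^ 2 ≤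
      72 * CC ^ 2 * M ^ 2 * L / K ^ 2 := by
  refine (gauss_mean F c (fun p => Real.log p - κ)).trans ?_
  have hK0 : (0 : ℝ) < K := by exact_mod_cast hK
  have h1 : ∑ p ∈ F, ∑ q ∈ F, ‖c p‖ * ‖c q‖ *
      Real.exp (-((Real.log p - κ) - (Real.log q - κ)) ^ 2) ≤
      M ^ 2 * (CC / K * (CC / K * 12 * L)) := by
    calc ∑ p ∈ F, ∑ q ∈ F, ‖c p‖ * ‖c q‖ *
          Real.exp (-((Real.log p - κ) - (Real.log q - κ)) ^ 2)
        ≤ ∑ p ∈ F, ∑ q ∈ F, (M / p) * (M / q) * Real.exp (1 - |(lg p : ℝ) - lg q|) := by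
          refine sum_le_sum fun p hp => sum_le_sum fun q hq => ?_
          have h2 := kappa_le (hF p hp).1.one_le (hF q hq).1.one_le κ
          have h3 := hc p hp
          have h4 := hc q hq
          have h5 : 0 ≤ M / (p : ℝ) := by positivity
          exact mul_le_mul (mul_le_mul h3 h4 (norm_nonneg _) h5) h2 (Real.exp_pos _).le
            (by positivity)
      _ = M ^ 2 * ∑ p ∈ F, (1 : ℝ) / p * ∑ q ∈ F, (1 : ℝ) / q *
            Real.exp (1 - |(lg p : ℝ) - lg q|) := by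
          simp_rw [mul_sum]
          refine sum_congr rfl fun p _ => sum_congr rfl fun q _ => ?_
          ring
      _ ≤ M ^ 2 * (CC / K * (CC / K * 12 * L)) := by
          refine mul_le_mul_of_nonneg_left ?_ (sq_nonneg M)
          have h6 : ∑ p ∈ F, (1 : ℝ) / p * ∑ q ∈ F, (1 : ℝ) / q *
              Real.exp (1 - |(lg p : ℝ) - lg q|) ≤ ∑ p ∈ F, (1 : ℝ) / p * (CC / K * 12) := by
            refine sum_le_sum fun p _ => mul_le_mul_of_nonneg_left ?_ (by positivity)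
            refine (sum_inv_le hK hF (fun l => Real.exp (1 - |(lg p : ℝ) - l|))
              (fun _ => (Real.exp_pos _).le)).trans ?_
            exact mul_le_mul_of_nonneg_left (schur_row _ _) (div_pos CC_pos hK0).le
          refine h6.trans ?_
          rw [← sum_mul]
          have h7 := sum_inv_le' hK hF
          have h8 : 0 < CC / K := div_pos CC_pos hK0
          nlinarith
  have h2 : 6 * (M ^ 2 * (CC / K * (CC / K * 12 * L))) = 72 * CC ^ 2 * M ^ 2 * L / K ^ 2 := by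
    field_simp
    ring
  calc 6 * ∑ p ∈ F, ∑ q ∈ F, ‖c p‖ * ‖c q‖ *
          Real.exp (-((Real.log p - κ) - (Real.log q - κ)) ^ 2)
      ≤ 6 * (M ^ 2 * (CC / K * (CC / K * 12 * L))) := by linarith
    _ = _ := h2

/-- A Sobolev inequality on an interval. -/
lemma sobolev (h h' : ℝ → ℂ) (hd : ∀ τ, HasDerivAt h (h' τ) τ) (hc : Continuous h')
    {α β : ℝ} (hαβ : α < β) {x : ℝ} (hx : x ∈ Set.Icc α β) :
    ‖h x‖ ^ 2 ≤ 2 / (β - α) * (∫ τ in α..β, ‖h τ‖ ^ 2) +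
      (β - α) * ∫ τ in α..β, ‖h' τ‖ ^ 2 := by
  have hδ : 0 < β - α := sub_pos.2 hαβ
  have hhc : Continuous h := continuous_iff_continuousAt.2 fun τ => (hd τ).continuousAt
  have hc1 : Continuous fun τ => ‖h τ‖ ^ 2 := hhc.norm.pow 2
  have hc2 : Continuous fun τ => ‖h' τ‖ ^ 2 := hc.norm.pow 2
  set G : ℝ → ℝ := fun τ => 1 / (β - α) * ‖h τ‖ ^ 2 + (β - α) * ‖h' τ‖ ^ 2 with hG
  have hGc : Continuous G := by rw [hG]; fun_prop
  have hG0 : ∀ τ, 0 ≤ G τ := fun τ => by rw [hG]; positivity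
  set F' : ℝ → ℝ := fun τ => 2 * inner ℝ (h τ) (h' τ) with hF'
  have hF'c : Continuous F' := by rw [hF']; fun_prop
  have hF'G : ∀ τ, ‖F' τ‖ ≤ G τ := by
    intro τ
    have h1 : ‖F' τ‖ ≤ 2 * (‖h τ‖ * ‖h' τ‖) := by
      rw [hF', norm_mul, Real.norm_two]
      have := norm_inner_le_norm (𝕜 := ℝ) (h τ) (h' τ)
      linarith
    refine h1.trans ?_
    have h2 : G τ - 2 * (‖h τ‖ * ‖h' τ‖) = (‖h τ‖ - (β - α) * ‖h' τ‖) ^ 2 / (β - α) := by
      rw [hG]
      field_simp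
      ring
    have h3 : 0 ≤ (‖h τ‖ - (β - α) * ‖h' τ‖) ^ 2 / (β - α) := by positivity
    linarith
  have hW : ∀ y ∈ Set.Icc α β, ‖h x‖ ^ 2 ≤ ‖h y‖ ^ 2 + ∫ τ in α..β, G τ := by
    intro y hy
    have h1 : ∫ τ in y..x, F' τ = ‖h x‖ ^ 2 - ‖h y‖ ^ 2 :=
      intervalIntegral.integral_eq_sub_of_hasDerivAt (fun τ _ => (hd τ).norm_sq)
        (hF'c.intervalIntegrable _ _)
    have h2 : ‖∫ τ in y..x, F' τ‖ ≤ ∫ τ in Set.uIoc y x, ‖F' τ‖ :=
      intervalIntegral.norm_integral_le_integral_norm_uIoc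
    have h3 : ∫ τ in Set.uIoc y x, ‖F' τ‖ ≤ ∫ τ in Set.uIoc y x, G τ := by
      refine setIntegral_mono_on ?_ ?_ measurableSet_uIoc fun τ _ => hF'G τ
      · exact (hF'c.norm.intervalIntegrable y x).def'
      · exact (hGc.intervalIntegrable y x).def'
    have h4 : ∫ τ in Set.uIoc y x, G τ ≤ ∫ τ in Set.Ioc α β, G τ := by
      refine setIntegral_mono_set ?_ (ae_of_all _ hG0) (ae_of_all _ ?_)
      · exact (intervalIntegrable_iff_integrableOn_Ioc_of_le hαβ.le).1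
          (hGc.intervalIntegrable α β)
      · intro τ hτ
        have hτ' : τ ∈ Set.uIoc y x := hτ
        rw [Set.mem_uIoc] at hτ'
        rcases hτ' with h5 | h5
        · exact ⟨lt_of_le_of_lt hy.1 h5.1, h5.2.trans hx.2⟩
        · exact ⟨lt_of_le_of_lt hx.1 h5.1, h5.2.trans hy.2⟩
    rw [← intervalIntegral.integral_of_le hαβ.le] at h4
    have h5 := (le_abs_self _).trans ((Real.norm_eq_abs (∫ τ in y..x, F' τ)).symm.le.trans
      (h2.trans (h3.trans h4)))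
    rw [h1] at h5
    linarith
  have h6 : ∫ _y in α..β, ‖h x‖ ^ 2 ≤ ∫ y in α..β, (‖h y‖ ^ 2 + ∫ τ in α..β, G τ) := by
    refine intervalIntegral.integral_mono_on hαβ.le (by simp) ?_ hW
    exact (hc1.add continuous_const).intervalIntegrable _ _
  rw [intervalIntegral.integral_const, intervalIntegral.integral_add
    (hc1.intervalIntegrable _ _) (by simp), intervalIntegral.integral_const,
    smul_eq_mul, smul_eq_mul] at h6
  have h7 : ∫ τ in α..β, G τ = 1 / (β - α) * (∫ τ in α..β, ‖h τ‖ ^ 2) +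
      (β - α) * ∫ τ in α..β, ‖h' τ‖ ^ 2 := by
    rw [hG, intervalIntegral.integral_add, intervalIntegral.integral_const_mul,
      intervalIntegral.integral_const_mul]
    · exact (continuous_const.mul hc1).intervalIntegrable _ _
    · exact (continuous_const.mul hc2).intervalIntegrable _ _
  rw [h7] at h6
  set A := ∫ τ in α..β, ‖h τ‖ ^ 2
  set B := ∫ τ in α..β, ‖h' τ‖ ^ 2
  have h8 : ‖h x‖ ^ 2 ≤ (A + (β - α) * (1 / (β - α) * A + (β - α) * B)) / (β - α) := by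
    rw [le_div_iff₀ hδ]
    linarith
  refine h8.trans (le_of_eq ?_)
  field_simp
  ring

/-- The intervals of length `1/n` in `[0, 1]` that meet `{‖h‖ > lam}`. -/
def badSet (h : ℝ → ℂ) (lam : ℝ) (n : ℕ) : Set ℕ :=
  {m | m < n ∧ ∃ x ∈ Set.Icc ((m : ℝ) / n) ((m + 1 : ℝ) / n), lam < ‖h x‖}

open Classical in
/-- Counting the bad intervals. -/
lemma count (h h' : ℝ → ℂ) (hd : ∀ τ, HasDerivAt h (h' τ) τ) (hc : Continuous h')
    {n : ℕ} (hn : 1 ≤ n) (lam : ℝ) (hlam : 0 ≤ lam) :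
    (((range n).filter fun m => m ∈ badSet h lam n).card : ℝ) * lam ^ 2 ≤
      2 * n * (∫ τ in (0 : ℝ)..1, ‖h τ‖ ^ 2) + 1 / n * ∫ τ in (0 : ℝ)..1, ‖h' τ‖ ^ 2 := by
  have hn0 : (0 : ℝ) < n := by exact_mod_cast hn
  have hhc : Continuous h := continuous_iff_continuousAt.2 fun τ => (hd τ).continuousAt
  have hc1 : Continuous fun τ => ‖h τ‖ ^ 2 := hhc.norm.pow 2
  have hc2 : Continuous fun τ => ‖h' τ‖ ^ 2 := hc.norm.pow 2
  have hsplit : ∀ f : ℝ → ℝ, Continuous f → ∫ τ in (0 : ℝ)..1, f τ =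
      ∑ m ∈ range n, ∫ τ in ((m : ℝ) / n)..((m + 1 : ℝ) / n), f τ := by
    intro f hf
    have h1 := intervalIntegral.sum_integral_adjacent_intervals (f := f) (μ := volume)
      (a := fun m : ℕ => (m : ℝ) / n) (n := n) (fun m _ => hf.intervalIntegrable _ _)
    simp only [Nat.cast_zero, zero_div, div_self hn0.ne', Nat.cast_add, Nat.cast_one] at h1
    exact h1.symm
  rw [hsplit _ hc1, hsplit _ hc2, mul_sum, mul_sum, ← sum_add_distrib,
    Finset.card_eq_sum_ones, Nat.cast_sum, sum_mul]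
  refine le_trans (sum_le_sum fun m hm => ?_) (sum_le_sum_of_subset_of_nonneg
    (filter_subset _ _) fun m _ _ => ?_)
  · rw [mem_filter] at hm
    obtain ⟨-, x, hx, hlx⟩ := hm.2
    have h1 : (m : ℝ) / n < (m + 1 : ℝ) / n := by
      rw [div_lt_div_iff_of_pos_right hn0]
      linarith
    have h2 := sobolev h h' hd hc h1 hx
    have h3 : (m + 1 : ℝ) / n - (m : ℝ) / n = 1 / n := by ring
    rw [h3] at h2
    have h4 : (2 : ℝ) / (1 / n) = 2 * n := by field_simp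
    rw [h4] at h2
    have h5 : lam ^ 2 ≤ ‖h x‖ ^ 2 := pow_le_pow_left₀ hlam hlx.le 2
    push_cast
    linarith
  · have h1 : (m : ℝ) / n ≤ (m + 1 : ℝ) / n := by
      rw [div_le_div_iff_of_pos_right hn0]
      linarith
    have h2 : 0 ≤ ∫ τ in ((m : ℝ) / n)..((m + 1 : ℝ) / n), ‖h τ‖ ^ 2 :=
      intervalIntegral.integral_nonneg h1 fun _ _ => by positivity
    have h3 : 0 ≤ ∫ τ in ((m : ℝ) / n)..((m + 1 : ℝ) / n), ‖h' τ‖ ^ 2 :=
      intervalIntegral.integral_nonneg h1 fun _ _ => by positivity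
    positivity

end Pool.Agent.W350.Edge
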