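import Pool.Agent.W350.Edge2

/-!
# The set of divergence of a prime sum on the edge
-/

set_option autoImplicit false

namespace Pool.Agent.W350.Edge

open Filter Topology MeasureTheory Finset

/-- The terms of the sum `∑_p a_p p^{-1-iτ}`. -/
noncomputable def term (a : ℕ → ℂ) (τ : ℝ) (p : ℕ) : ℂ :=
  if p.Prime then a p / p * Complex.exp (-(τ * Real.log p) * Complex.I) else 0

/-- The partial sums. -/
noncomputable def ps (a : ℕ → ℂ) (τ : ℝ) (x : ℕ) : ℂ := ∑ p ∈ range x, term a τ p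

section blocks

variable (e : ℕ)

/-- The block boundaries (on the scale of `log p`). -/
def KK (j : ℕ) : ℕ := (j + 1) ^ (e + 1)

/-- The length of a block. -/
def LL (j : ℕ) : ℕ := KK e (j + 1) - KK e j

lemma KK_pos (j : ℕ) : 1 ≤ KK e j := Nat.one_le_pow _ _ (Nat.succ_pos j)

lemma KK_le (j : ℕ) : KK e j ≤ KK e (j + 1) := Nat.pow_le_pow_left (by omega) _

lemma KK_add_LL (j : ℕ) : KK e j + LL e j = KK e (j + 1) := by
  unfold LL
  have := KK_le e j
  omega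

lemma LL_ge (j : ℕ) : (j + 1) ^ e ≤ LL e j := by
  unfold LL KK
  have h1 : (j + 1 + 1) ^ (e + 1) = (j + 1) * (j + 1 + 1) ^ e + (j + 1 + 1) ^ e := by ring
  have h2 : (j + 1) * (j + 1) ^ e ≤ (j + 1) * (j + 1 + 1) ^ e :=
    Nat.mul_le_mul_left _ (Nat.pow_le_pow_left (by omega) _)
  have h3 : (j + 1) ^ (e + 1) = (j + 1) * (j + 1) ^ e := by ring
  have h4 : (j + 1) ^ e ≤ (j + 1 + 1) ^ e := Nat.pow_le_pow_left (by omega) _
  omega

lemma LL_pos (j : ℕ) : 1 ≤ LL e j := (Nat.one_le_pow _ _ (Nat.succ_pos j)).trans (LL_ge e j)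

lemma LL_le (j : ℕ) : LL e j ≤ (e + 1) * 2 ^ e * (j + 1) ^ e := by
  have h1 : ∀ (n x : ℕ), (x + 1) ^ (n + 1) ≤ x ^ (n + 1) + (n + 1) * (x + 1) ^ n := by
    intro n x
    induction n with
    | zero => simp
    | succ n ih =>
      calc (x + 1) ^ (n + 1 + 1) = (x + 1) * (x + 1) ^ (n + 1) := by ring
        _ ≤ (x + 1) * (x ^ (n + 1) + (n + 1) * (x + 1) ^ n) := Nat.mul_le_mul_left _ ih
        _ = x ^ (n + 1 + 1) + x ^ (n + 1) + (n + 1) * (x + 1) ^ (n + 1) := by ring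
        _ ≤ x ^ (n + 1 + 1) + (x + 1) ^ (n + 1) + (n + 1) * (x + 1) ^ (n + 1) := by
          have : x ^ (n + 1) ≤ (x + 1) ^ (n + 1) := Nat.pow_le_pow_left (by omega) _
          omega
        _ = _ := by ring
  have h2 := h1 e (j + 1)
  have h3 : (j + 1 + 1) ^ e ≤ (2 * (j + 1)) ^ e := Nat.pow_le_pow_left (by omega) _
  rw [mul_pow] at h3
  have h4 : LL e j ≤ (e + 1) * (j + 1 + 1) ^ e := by
    unfold LL KK
    omega
  calc LL e j ≤ (e + 1) * (j + 1 + 1) ^ e := h4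
    _ ≤ (e + 1) * (2 ^ e * (j + 1) ^ e) := Nat.mul_le_mul_left _ h3
    _ = _ := by ring

/-- `L_j / K_j ≤ c / (j + 1)`. -/
lemma LL_div_KK (j : ℕ) : (LL e j : ℝ) / KK e j ≤ ((e + 1) * 2 ^ e : ℕ) / ((j : ℝ) + 1) := by
  have h1 : (LL e j : ℝ) ≤ ((e + 1) * 2 ^ e : ℕ) * ((j : ℝ) + 1) ^ e := by
    have := LL_le e j
    exact_mod_cast this
  have h2 : (KK e j : ℝ) = ((j : ℝ) + 1) * ((j : ℝ) + 1) ^ e := by
    unfold KK
    push_cast
    ring
  have h3 : (0 : ℝ) < (j : ℝ) + 1 := by positivity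
  rw [h2, div_le_div_iff₀ (by positivity) h3]
  calc (LL e j : ℝ) * ((j : ℝ) + 1) ≤ ((e + 1) * 2 ^ e : ℕ) * ((j : ℝ) + 1) ^ e * ((j : ℝ) + 1) :=
        mul_le_mul_of_nonneg_right h1 h3.le
    _ = _ := by ring

/-- The block boundaries. -/
noncomputable def NN (j : ℕ) : ℕ := ⌈Real.exp (KK e j)⌉₊

lemma tendsto_NN : Tendsto (NN e) atTop atTop := by
  refine tendsto_atTop_mono (fun j => ?_) tendsto_id
  unfold NN
  rw [← Nat.cast_le (α := ℝ)]
  refine le_trans ?_ (Nat.le_ceil _)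
  have h1 : (j : ℝ) ≤ KK e j := by
    have : j ≤ KK e j := by
      unfold KK
      calc j ≤ j + 1 := by omega
        _ = (j + 1) ^ 1 := by ring
        _ ≤ (j + 1) ^ (e + 1) := Nat.pow_le_pow_right (by omega) (by omega)
    exact_mod_cast this
  have h2 := Real.add_one_le_exp (KK e j : ℝ)
  simp only [id]
  linarith

lemma NN_le (j : ℕ) : NN e j ≤ NN e (j + 1) := by
  unfold NN
  refine Nat.ceil_mono (Real.exp_le_exp.2 ?_)
  exact_mod_cast KK_le e j

/-- The primes of a block. -/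
noncomputable def FF (j : ℕ) : Finset ℕ := (Ico (NN e j) (NN e (j + 1))).filter Nat.Prime

lemma mem_FF {j p : ℕ} (hp : p ∈ FF e j) :
    p.Prime ∧ (KK e j : ℝ) ≤ Real.log p ∧ Real.log p < KK e (j + 1) := by
  unfold FF NN at hp
  rw [mem_filter, mem_Ico, Nat.ceil_le, Nat.lt_ceil] at hp
  have hp0 : (0 : ℝ) < p := by exact_mod_cast hp.2.pos
  exact ⟨hp.2, (Real.le_log_iff_exp_le hp0).2 hp.1.1, (Real.log_lt_iff_lt_exp hp0).2 hp.1.2⟩

lemma mem_FF' {j p : ℕ} (hp : p ∈ FF e j) : p.Prime ∧ KK e j ≤ lg p ∧ lg p < KK e j + LL e j := by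
  obtain ⟨h1, h2, h3⟩ := mem_FF e hp
  refine ⟨h1, Nat.le_floor h2, ?_⟩
  rw [KK_add_LL]
  unfold lg
  rw [Nat.floor_lt (Real.log_nonneg (by exact_mod_cast h1.one_le))]
  exact h3

/-- The demodulated block. -/
noncomputable def hh (a : ℕ → ℂ) (j : ℕ) (τ : ℝ) : ℂ :=
  ∑ p ∈ FF e j, a p / p * Complex.exp (-(τ * (Real.log p - KK e j : ℝ)) * Complex.I)

/-- Its derivative. -/
noncomputable def hd (a : ℕ → ℂ) (j : ℕ) (τ : ℝ) : ℂ :=
  ∑ p ∈ FF e j, (a p / p * (-(Real.log p - KK e j : ℝ) * Complex.I)) *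
    Complex.exp (-(τ * (Real.log p - KK e j : ℝ)) * Complex.I)

lemma hasDerivAt_hh (a : ℕ → ℂ) (j : ℕ) (τ : ℝ) : HasDerivAt (hh e a j) (hd e a j τ) τ := by
  unfold hh hd
  have h1 : ∀ p ∈ FF e j, HasDerivAt (fun τ : ℝ => a p / p *
      Complex.exp (-(τ * (Real.log p - KK e j : ℝ)) * Complex.I))
      ((a p / p * (-(Real.log p - KK e j : ℝ) * Complex.I)) *
        Complex.exp (-(τ * (Real.log p - KK e j : ℝ)) * Complex.I)) τ := by
    intro p _
    have h2 : HasDerivAt (fun τ : ℝ => -((τ : ℂ) * (Real.log p - KK e j : ℝ)) * Complex.I)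
        (-(1 * (Real.log p - KK e j : ℝ)) * Complex.I) τ :=
      (((Complex.ofRealCLM.hasDerivAt (x := τ)).mul_const _).neg).mul_const _
    have h3 := (h2.cexp).const_mul (a p / p)
    refine h3.congr_deriv ?_
    ring
  exact HasDerivAt.fun_sum h1

lemma continuous_hd (a : ℕ → ℂ) (j : ℕ) : Continuous (hd e a j) := by
  unfold hd
  fun_prop

lemma norm_hh (a : ℕ → ℂ) (j : ℕ) (τ : ℝ) :
    ‖hh e a j τ‖ = ‖ps a τ (NN e (j + 1)) - ps a τ (NN e j)‖ := by
  unfold ps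
  rw [← sum_Ico_eq_sub _ (NN_le e j)]
  have h1 : ∑ p ∈ Ico (NN e j) (NN e (j + 1)), term a τ p =
      Complex.exp (-(τ * KK e j) * Complex.I) * hh e a j τ := by
    unfold hh FF term
    rw [sum_filter, mul_sum]
    refine sum_congr rfl fun p _ => ?_
    split_ifs
    · rw [mul_left_comm, ← Complex.exp_add]
      congr 2
      push_cast
      ring
    · rw [mul_zero]
  rw [h1, norm_mul]
  have h2 : ‖Complex.exp (-(τ * KK e j) * Complex.I)‖ = 1 := by
    rw [Complex.norm_exp]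
    simp
  rw [h2, one_mul]

open Classical in
/-- The number of bad intervals of level `j`, for `lam = (j + 1)^{-2}`, is `O((j+1)²)`. -/
lemma count_bad (a : ℕ → ℂ) (D : ℝ) (hD : 0 ≤ D) (ha : ∀ p, ‖a p‖ ≤ D) (j : ℕ) :
    (((range (LL e j)).filter fun m =>
      m ∈ badSet (hh e a j) (1 / ((j : ℝ) + 1) ^ 2) (LL e j)).card : ℝ) ≤
      216 * CC ^ 2 * D ^ 2 * ((e + 1) * 2 ^ e : ℕ) ^ 2 * ((j : ℝ) + 1) ^ 2 := by
  set cnt : ℝ := (((range (LL e j)).filter fun m =>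
      m ∈ badSet (hh e a j) (1 / ((j : ℝ) + 1) ^ 2) (LL e j)).card : ℝ) with hcnt
  have hL1 := LL_pos e j
  have hL0 : (0 : ℝ) < LL e j := by exact_mod_cast hL1
  have hK0 : (0 : ℝ) < KK e j := by exact_mod_cast KK_pos e j
  have hj0 : (0 : ℝ) < (j : ℝ) + 1 := by positivity
  have h1 := count (hh e a j) (hd e a j) (hasDerivAt_hh e a j) (continuous_hd e a j) hL1
    (1 / ((j : ℝ) + 1) ^ 2) (by positivity)
  have h2 : ∫ τ in (0 : ℝ)..1, ‖hh e a j τ‖ ^ 2 ≤ 72 * CC ^ 2 * D ^ 2 * LL e j / KK e j ^ 2 := by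
    refine block_mean (KK_pos e j) (fun p hp => mem_FF' e hp) (fun p => a p / p) D hD ?_ _
    intro p _
    rw [norm_div, Complex.norm_natCast]
    exact div_le_div_of_nonneg_right (ha p) (Nat.cast_nonneg _)
  have h3 : ∫ τ in (0 : ℝ)..1, ‖hd e a j τ‖ ^ 2 ≤
      72 * CC ^ 2 * (D * LL e j) ^ 2 * LL e j / KK e j ^ 2 := by
    refine block_mean (KK_pos e j) (fun p hp => mem_FF' e hp)
      (fun p => a p / p * (-(Real.log p - KK e j : ℝ) * Complex.I)) (D * LL e j) (by positivity) ?_ _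
    intro p hp
    obtain ⟨-, h4, h5⟩ := mem_FF e hp
    have h6 : |Real.log p - KK e j| ≤ LL e j := by
      rw [abs_of_nonneg (by linarith)]
      have : (KK e (j + 1) : ℝ) = KK e j + LL e j := by exact_mod_cast (KK_add_LL e j).symm
      linarith
    rw [norm_mul, norm_div, Complex.norm_natCast, norm_mul, norm_neg, Complex.norm_real,
      Complex.norm_I, mul_one, Real.norm_eq_abs]
    calc ‖a p‖ / p * |Real.log p - KK e j| ≤ D / p * LL e j :=
          mul_le_mul (div_le_div_of_nonneg_right (ha p) (Nat.cast_nonneg _)) h6 (abs_nonneg _)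
            (by positivity)
      _ = _ := by ring
  have h4 : cnt * (1 / ((j : ℝ) + 1) ^ 2) ^ 2 ≤ 216 * CC ^ 2 * D ^ 2 * ((LL e j : ℝ) / KK e j) ^ 2 := by
    refine h1.trans ?_
    calc 2 * (LL e j : ℝ) * (∫ τ in (0 : ℝ)..1, ‖hh e a j τ‖ ^ 2) +
          1 / LL e j * ∫ τ in (0 : ℝ)..1, ‖hd e a j τ‖ ^ 2
        ≤ 2 * (LL e j : ℝ) * (72 * CC ^ 2 * D ^ 2 * LL e j / KK e j ^ 2) +
          1 / LL e j * (72 * CC ^ 2 * (D * LL e j) ^ 2 * LL e j / KK e j ^ 2) := by gcongr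
      _ = 216 * CC ^ 2 * D ^ 2 * ((LL e j : ℝ) / KK e j) ^ 2 := by
        field_simp
        ring
  have h5 : ((LL e j : ℝ) / KK e j) ^ 2 ≤ (((e + 1) * 2 ^ e : ℕ) / ((j : ℝ) + 1)) ^ 2 :=
    pow_le_pow_left₀ (by positivity) (LL_div_KK e j) 2
  have h6 : cnt = cnt * (1 / ((j : ℝ) + 1) ^ 2) ^ 2 * ((j : ℝ) + 1) ^ 4 := by
    field_simp
  rw [h6]
  calc cnt * (1 / ((j : ℝ) + 1) ^ 2) ^ 2 * ((j : ℝ) + 1) ^ 4
      ≤ 216 * CC ^ 2 * D ^ 2 * (((e + 1) * 2 ^ e : ℕ) / ((j : ℝ) + 1)) ^ 2 * ((j : ℝ) + 1) ^ 4 := by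
        refine mul_le_mul_of_nonneg_right (h4.trans ?_) (by positivity)
        exact mul_le_mul_of_nonneg_left h5 (by positivity)
    _ = _ := by
      field_simp

end blocks

lemma tendsto_of_blocks (S : ℕ → ℂ) (N : ℕ → ℕ) (hN : Tendsto N atTop atTop) (ω : ℕ → ℝ)
    (hω : Tendsto ω atTop (𝓝 0))
    (hb : ∀ j x, N j ≤ x → x < N (j + 1) → ‖S x - S (N j)‖ ≤ ω j) (l : ℂ)
    (hl : Tendsto (fun j => S (N j)) atTop (𝓝 l)) : Tendsto S atTop (𝓝 l) := by
  rw [Metric.tendsto_atTop] at hl hω ⊢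
  intro ε hε
  obtain ⟨J1, hJ1⟩ := hl (ε / 2) (by positivity)
  obtain ⟨J2, hJ2⟩ := hω (ε / 2) (by positivity)
  set J := max J1 J2
  refine ⟨N J, fun x hx => ?_⟩
  have hex : ∃ m, x < N (J + m) := by
    obtain ⟨m, hm⟩ := (tendsto_atTop.1 hN (x + 1)).exists_forall_of_atTop
    exact ⟨m, lt_of_lt_of_le (Nat.lt_succ_self x) (hm (J + m) (by omega))⟩
  classical
  obtain ⟨m, hm⟩ : ∃ m, Nat.find hex = m + 1 := by
    refine Nat.exists_eq_succ_of_ne_zero fun h0 => ?_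
    have := Nat.find_spec hex
    rw [h0, add_zero] at this
    omega
  have h1 : x < N (J + m + 1) := by
    have := Nat.find_spec hex
    rw [hm] at this
    exact this
  have h2 : N (J + m) ≤ x := by
    have := Nat.find_min hex (m := m) (by omega)
    omega
  have h3 := hb (J + m) x h2 h1
  have h4 := hJ1 (J + m) ((le_max_left _ _).trans (Nat.le_add_right _ _))
  have h5 := hJ2 (J + m) ((le_max_right _ _).trans (Nat.le_add_right _ _))
  rw [Real.dist_eq, sub_zero] at h5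
  rw [dist_eq_norm] at h4 ⊢
  calc ‖S x - l‖ = ‖(S x - S (N (J + m))) + (S (N (J + m)) - l)‖ := by ring_nf
    _ ≤ ‖S x - S (N (J + m))‖ + ‖S (N (J + m)) - l‖ := norm_add_le _ _
    _ < ε / 2 + ε / 2 := by
      have := (le_abs_self _).trans_lt h5
      linarith
    _ = ε := by ring

/-- Convergence outside the limsup set. -/
lemma converge (e : ℕ) (a : ℕ → ℂ) (D : ℝ) (hD : 0 ≤ D) (ha : ∀ p, ‖a p‖ ≤ D) (τ : ℝ) (J : ℕ)
    (hJ : ∀ j, J ≤ j → ‖hh e a j τ‖ ≤ 1 / ((j : ℝ) + 1) ^ 2) :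
    ∃ l, Tendsto (ps a τ) atTop (𝓝 l) := by
  have hsum : Summable fun j : ℕ => 1 / ((j : ℝ) + 1) ^ 2 := by
    have h1 : Summable fun n : ℕ => 1 / (n : ℝ) ^ 2 := Real.summable_one_div_nat_pow.2 one_lt_two
    have h2 := (summable_nat_add_iff 1).2 h1
    simpa using h2
  have h1 : Summable fun j : ℕ => ps a τ (NN e (j + 1)) - ps a τ (NN e j) := by
    rw [← summable_nat_add_iff J]
    refine Summable.of_norm_bounded ((summable_nat_add_iff J).2 hsum) fun j => ?_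
    rw [← norm_hh]
    exact hJ _ (Nat.le_add_left _ _)
  obtain ⟨l, hl⟩ : ∃ l, Tendsto (fun j => ps a τ (NN e j)) atTop (𝓝 l) := by
    have h2 := h1.hasSum.tendsto_sum_nat
    simp_rw [sum_range_sub (fun j => ps a τ (NN e j))] at h2
    refine ⟨(∑' j : ℕ, (ps a τ (NN e (j + 1)) - ps a τ (NN e j))) + ps a τ (NN e 0), ?_⟩
    have h3 := h2.add_const (ps a τ (NN e 0))
    simpa using h3
  refine ⟨l, tendsto_of_blocks _ (NN e) (tendsto_NN e)
    (fun j => D * CC * (((e + 1) * 2 ^ e : ℕ) / ((j : ℝ) + 1))) ?_ ?_ l hl⟩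
  · have h2 : Tendsto (fun j : ℕ => (((e + 1) * 2 ^ e : ℕ) : ℝ) / ((j : ℝ) + 1)) atTop (𝓝 0) := by
      refine Tendsto.div_atTop tendsto_const_nhds ?_
      exact tendsto_atTop_add_const_right _ _ tendsto_natCast_atTop_atTop
    have h3 := h2.const_mul (D * CC)
    simpa using h3
  · intro j x h2 h3
    unfold ps
    rw [← sum_Ico_eq_sub _ h2]
    have h4 : ‖∑ p ∈ Ico (NN e j) x, term a τ p‖ ≤ ∑ p ∈ FF e j, D * ((1 : ℝ) / p) := by
      refine (norm_sum_le _ _).trans ?_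
      unfold FF
      rw [sum_filter]
      refine (sum_le_sum_of_subset_of_nonneg (Ico_subset_Ico_right h3.le)
        fun _ _ _ => norm_nonneg _).trans (sum_le_sum fun p _ => ?_)
      unfold term
      split_ifs
      · rw [norm_mul, norm_div, Complex.norm_natCast, Complex.norm_exp]
        have : (-((τ : ℂ) * (Real.log p : ℂ)) * Complex.I).re = 0 := by
          rw [Complex.mul_I_re, ← Complex.ofReal_mul, ← Complex.ofReal_neg, Complex.ofReal_im,
            neg_zero]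
        rw [this, Real.exp_zero, mul_one, mul_one_div]
        exact div_le_div_of_nonneg_right (ha p) (Nat.cast_nonneg _)
      · simp
    refine h4.trans ?_
    rw [← mul_sum]
    have h5 := sum_inv_le' (KK_pos e j) (fun p hp => mem_FF' e (j := j) hp)
    have h6 : CC / KK e j * LL e j = CC * ((LL e j : ℝ) / KK e j) := by ring
    rw [h6] at h5
    calc D * ∑ p ∈ FF e j, (1 : ℝ) / p ≤ D * (CC * ((LL e j : ℝ) / KK e j)) :=
          mul_le_mul_of_nonneg_left h5 hD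
      _ ≤ D * (CC * (((e + 1) * 2 ^ e : ℕ) / ((j : ℝ) + 1))) :=
          mul_le_mul_of_nonneg_left (mul_le_mul_of_nonneg_left (LL_div_KK e j) CC_pos.le) hD
      _ = _ := by ring

end Pool.Agent.W350.Edge
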