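import Pool.Agent.W350.Edge3

/-!
# The set of divergence has Hausdorff dimension zero
-/

set_option autoImplicit false

namespace Pool.Agent.W350.Edge

open Filter Topology MeasureTheory Finset
open scoped ENNReal NNReal

/-- Every point of `[0, 1]` lies in one of the `n` intervals of length `1/n`. -/
lemma exists_interval {n : ℕ} (hn : 1 ≤ n) {τ : ℝ} (hτ : τ ∈ Set.Icc (0 : ℝ) 1) :
    ∃ m < n, τ ∈ Set.Icc ((m : ℝ) / n) ((m + 1 : ℝ) / n) := by
  have hn0 : (0 : ℝ) < n := by exact_mod_cast hn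
  rcases eq_or_lt_of_le hτ.2 with h1 | h1
  · refine ⟨n - 1, by omega, ?_, ?_⟩
    · rw [div_le_iff₀ hn0, h1, one_mul, Nat.cast_sub hn]
      simp
    · rw [le_div_iff₀ hn0, h1, one_mul, Nat.cast_sub hn]
      simp
  · refine ⟨⌊τ * n⌋₊, ?_, ?_, ?_⟩
    · rw [Nat.floor_lt (by have := hτ.1; positivity)]
      nlinarith
    · rw [div_le_iff₀ hn0]
      exact Nat.floor_le (by have := hτ.1; positivity)
    · rw [le_div_iff₀ hn0]
      exact (Nat.lt_floor_add_one _).le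

open Classical in
/-- The bad intervals of level `j`. -/
noncomputable def bad (e : ℕ) (a : ℕ → ℂ) (j m : ℕ) : Set ℝ :=
  if m ∈ badSet (hh e a j) (1 / ((j : ℝ) + 1) ^ 2) (LL e j) then
    Set.Icc ((m : ℝ) / LL e j) ((m + 1 : ℝ) / LL e j) else ∅

lemma ediam_bad (e : ℕ) (a : ℕ → ℂ) (j m : ℕ) :
    Metric.ediam (bad e a j m) ≤ ENNReal.ofReal (1 / LL e j) := by
  unfold bad
  split_ifs
  · rw [Real.ediam_Icc]
    refine ENNReal.ofReal_le_ofReal (le_of_eq ?_)
    ring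
  · simp

lemma one_div_LL (e : ℕ) (j : ℕ) : 1 / (LL e j : ℝ) ≤ 1 / ((j : ℝ) + 1) ^ e := by
  refine one_div_le_one_div_of_le (by positivity) ?_
  exact_mod_cast LL_ge e j

/-- The sum of the `s`-th powers of the diameters at level `j`. -/
lemma tsum_bad (e : ℕ) (a : ℕ → ℂ) (D : ℝ) (hD : 0 ≤ D) (ha : ∀ p, ‖a p‖ ≤ D) (s : ℝ)
    (hs : 0 < s) (hes : 4 ≤ e * s) (j : ℕ) :
    ∑' m, Metric.ediam (bad e a j m) ^ s ≤
      ENNReal.ofReal (216 * CC ^ 2 * D ^ 2 * ((e + 1) * 2 ^ e : ℕ) ^ 2 * (1 / ((j : ℝ) + 1) ^ 2)) := by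
  classical
  set B := (range (LL e j)).filter fun m =>
      m ∈ badSet (hh e a j) (1 / ((j : ℝ) + 1) ^ 2) (LL e j) with hB
  have h1 : ∀ m, m ∉ B → Metric.ediam (bad e a j m) ^ s = 0 := by
    intro m hm
    have h2 : m ∉ badSet (hh e a j) (1 / ((j : ℝ) + 1) ^ 2) (LL e j) := by
      intro h3
      exact hm (mem_filter.2 ⟨mem_range.2 h3.1, h3⟩)
    unfold bad
    rw [if_neg h2]
    simp [hs]
  rw [tsum_eq_sum (s := B) h1]
  have hj0 : (0 : ℝ) < (j : ℝ) + 1 := by positivity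
  have h2 : ∀ m ∈ B, Metric.ediam (bad e a j m) ^ s ≤
      ENNReal.ofReal (1 / ((j : ℝ) + 1) ^ 4) := by
    intro m _
    calc Metric.ediam (bad e a j m) ^ s ≤ ENNReal.ofReal (1 / ((j : ℝ) + 1) ^ e) ^ s :=
          ENNReal.rpow_le_rpow ((ediam_bad e a j m).trans
            (ENNReal.ofReal_le_ofReal (one_div_LL e j))) hs.le
      _ = ENNReal.ofReal ((1 / ((j : ℝ) + 1) ^ e) ^ s) :=
          ENNReal.ofReal_rpow_of_pos (by positivity)
      _ ≤ ENNReal.ofReal (1 / ((j : ℝ) + 1) ^ 4) := by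
          refine ENNReal.ofReal_le_ofReal ?_
          rw [one_div, Real.inv_rpow (by positivity), one_div, ← Real.rpow_natCast,
            ← Real.rpow_mul hj0.le]
          refine inv_anti₀ (by positivity) ?_
          rw [← Real.rpow_natCast]
          exact Real.rpow_le_rpow_of_exponent_le (by linarith) (by push_cast; exact hes)
  calc ∑ m ∈ B, Metric.ediam (bad e a j m) ^ s
      ≤ ∑ _m ∈ B, ENNReal.ofReal (1 / ((j : ℝ) + 1) ^ 4) := sum_le_sum h2
    _ = ENNReal.ofReal (B.card * (1 / ((j : ℝ) + 1) ^ 4)) := by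
      rw [sum_const, nsmul_eq_mul, ENNReal.ofReal_mul (Nat.cast_nonneg _),
        ENNReal.ofReal_natCast]
    _ ≤ _ := by
      refine ENNReal.ofReal_le_ofReal ?_
      have h3 := count_bad e a D hD ha j
      rw [← hB] at h3
      calc (B.card : ℝ) * (1 / ((j : ℝ) + 1) ^ 4)
          ≤ 216 * CC ^ 2 * D ^ 2 * ((e + 1) * 2 ^ e : ℕ) ^ 2 * ((j : ℝ) + 1) ^ 2 *
            (1 / ((j : ℝ) + 1) ^ 4) := mul_le_mul_of_nonneg_right h3 (by positivity)
        _ = _ := by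
          field_simp

/-- The set of divergence in the unit interval. -/
def divSet (a : ℕ → ℂ) : Set ℝ := {τ | ¬ ∃ l, Tendsto (ps a τ) atTop (𝓝 l)}

lemma hausdorff_zero (a : ℕ → ℂ) (D : ℝ) (hD : 0 ≤ D) (ha : ∀ p, ‖a p‖ ≤ D) (s : ℝ)
    (hs : 0 < s) : μH[s] (divSet a ∩ Set.Icc 0 1) = 0 := by
  obtain ⟨e, he⟩ : ∃ e : ℕ, 4 ≤ e * s := by
    obtain ⟨e, he⟩ := exists_nat_ge (4 / s)
    exact ⟨e, (div_le_iff₀ hs).1 he⟩
  have he1 : 1 ≤ e := by
    rcases Nat.eq_zero_or_pos e with h | h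
    · subst h
      norm_num at he
    · exact h
  set f : ℕ → ℝ≥0∞ := fun j => ∑' m, Metric.ediam (bad e a j m) ^ s with hf
  have hfs : ∑' j, f j ≠ ∞ := by
    have h1 : ∑' j, f j ≤ ∑' j : ℕ, ENNReal.ofReal
        (216 * CC ^ 2 * D ^ 2 * ((e + 1) * 2 ^ e : ℕ) ^ 2 * (1 / ((j : ℝ) + 1) ^ 2)) :=
      ENNReal.tsum_le_tsum fun j => tsum_bad e a D hD ha s hs he j
    refine ne_top_of_le_ne_top ?_ h1
    have hsum : Summable fun j : ℕ => 1 / ((j : ℝ) + 1) ^ 2 := by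
      have h1 : Summable fun n : ℕ => 1 / (n : ℝ) ^ 2 :=
        Real.summable_one_div_nat_pow.2 one_lt_two
      have h2 := (summable_nat_add_iff 1).2 h1
      simpa using h2
    rw [← ENNReal.ofReal_tsum_of_nonneg (fun j => by positivity) (hsum.mul_left _)]
    exact ENNReal.ofReal_ne_top
  have htail := ENNReal.tendsto_sum_nat_add f hfs
  have h0 : μH[s] (divSet a ∩ Set.Icc 0 1) ≤
      liminf (fun J : ℕ => ∑' i : ℕ × ℕ, Metric.ediam (bad e a (i.1 + J) i.2) ^ s) atTop := by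
    refine Measure.hausdorffMeasure_le_liminf_tsum s _
      (fun J : ℕ => ENNReal.ofReal (1 / ((J : ℝ) + 1))) ?_
      (fun J (i : ℕ × ℕ) => bad e a (i.1 + J) i.2) ?_ ?_
    · rw [← ENNReal.ofReal_zero]
      exact ENNReal.tendsto_ofReal tendsto_one_div_add_atTop_nhds_zero_nat
    · refine Eventually.of_forall fun J i => (ediam_bad _ _ _ _).trans ?_
      refine ENNReal.ofReal_le_ofReal ((one_div_LL e _).trans ?_)
      refine one_div_le_one_div_of_le (by positivity) ?_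
      have h1 : (J : ℝ) + 1 ≤ ((i.1 + J : ℕ) : ℝ) + 1 := by
        push_cast
        have : (0 : ℝ) ≤ i.1 := Nat.cast_nonneg _
        linarith
      have h2 : ((i.1 + J : ℕ) : ℝ) + 1 ≤ (((i.1 + J : ℕ) : ℝ) + 1) ^ e := by
        refine le_self_pow₀ ?_ (by omega)
        have : (0 : ℝ) ≤ ((i.1 + J : ℕ) : ℝ) := Nat.cast_nonneg _
        linarith
      exact h1.trans h2
    · refine Eventually.of_forall fun J τ hτ => ?_
      by_contra hcon
      simp only [Set.mem_iUnion, not_exists] at hcon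
      refine hτ.1 (converge e a D hD ha τ J fun j hj => ?_)
      by_contra hlt
      push Not at hlt
      obtain ⟨m, hm, hmτ⟩ := exists_interval (LL_pos e j) hτ.2
      obtain ⟨k, rfl⟩ : ∃ k, j = k + J := ⟨j - J, by omega⟩
      refine hcon (k, m) ?_
      unfold bad
      rw [if_pos ⟨hm, τ, hmτ, hlt⟩]
      exact hmτ
  have h1 : (fun J : ℕ => ∑' i : ℕ × ℕ, Metric.ediam (bad e a (i.1 + J) i.2) ^ s) =
      fun J => ∑' k, f (k + J) := by
    funext J
    rw [ENNReal.tsum_prod']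
  rw [h1, htail.liminf_eq] at h0
  exact le_antisymm h0 zero_le

lemma dimH_unit (a : ℕ → ℂ) (D : ℝ) (hD : 0 ≤ D) (ha : ∀ p, ‖a p‖ ≤ D) :
    dimH (divSet a ∩ Set.Icc 0 1) = 0 := by
  refine le_antisymm ?_ zero_le
  refine ENNReal.le_of_forall_pos_le_add fun s hs _ => ?_
  rw [zero_add]
  refine dimH_le_of_hausdorffMeasure_ne_top ?_
  rw [hausdorff_zero a D hD ha s (by exact_mod_cast hs)]
  exact ENNReal.zero_ne_top

/-- The twist of `a` by `p^{-iz}`. -/
noncomputable def tw (a : ℕ → ℂ) (z : ℝ) (p : ℕ) : ℂ :=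
  a p * Complex.exp (-(z * Real.log p) * Complex.I)

lemma norm_tw (a : ℕ → ℂ) (z : ℝ) (p : ℕ) : ‖tw a z p‖ = ‖a p‖ := by
  unfold tw
  rw [norm_mul, Complex.norm_exp]
  have : (-((z : ℂ) * (Real.log p : ℂ)) * Complex.I).re = 0 := by
    rw [Complex.mul_I_re, ← Complex.ofReal_mul, ← Complex.ofReal_neg, Complex.ofReal_im,
      neg_zero]
  rw [this, Real.exp_zero, mul_one]

lemma ps_tw (a : ℕ → ℂ) (z τ : ℝ) : ps (tw a z) τ = ps a (τ + z) := by
  funext x
  unfold ps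
  refine sum_congr rfl fun p _ => ?_
  unfold term tw
  split_ifs
  · rw [mul_div_right_comm, mul_assoc, ← Complex.exp_add]
    congr 2
    push_cast
    ring
  · rfl

/-- The set of divergence of `∑_p a_p p^{-1-iτ}` has Hausdorff dimension zero. -/
theorem dimH_divSet (a : ℕ → ℂ) (D : ℝ) (ha : ∀ p, ‖a p‖ ≤ D) : dimH (divSet a) = 0 := by
  have hD : 0 ≤ D := (norm_nonneg _).trans (ha 0)
  have h1 : divSet a ⊆ ⋃ z : ℤ, (fun τ : ℝ => τ + z) '' (divSet (tw a z) ∩ Set.Icc 0 1) := by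
    intro τ hτ
    rw [Set.mem_iUnion]
    refine ⟨⌊τ⌋, τ - ⌊τ⌋, ⟨?_, ?_⟩, by simp⟩
    · unfold divSet
      rw [Set.mem_ofPred_eq, ps_tw]
      simpa [divSet] using hτ
    · constructor
      · have := Int.floor_le τ
        linarith
      · have := Int.lt_floor_add_one τ
        linarith
  refine le_antisymm ((dimH_mono h1).trans ?_) zero_le
  rw [dimH_iUnion]
  refine iSup_le fun z => ?_
  have h2 : Isometry fun τ : ℝ => τ + (z : ℝ) := isometry_add_right _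
  rw [h2.dimH_image, dimH_unit (tw a z) D hD fun p => by rw [norm_tw]; exact ha p]

end Pool.Agent.W350.Edge
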