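import Mathlib

/-!
# Abel's theorem in Stolz angles for Dirichlet series
-/

set_option autoImplicit false

namespace Pool.Agent.W350.Edge

open Filter Topology Finset

lemma exp_sub_le (z : ℂ) (hz : 0 < z.re) {u v : ℝ} (huv : u ≤ v) :
    ‖Complex.exp (-z * v) - Complex.exp (-z * u)‖ ≤
      ‖z‖ / z.re * (Real.exp (-z.re * u) - Real.exp (-z.re * v)) := by
  have h := image_norm_le_of_norm_deriv_right_le_deriv_boundary
    (f := fun t : ℝ => Complex.exp (-z * t) - Complex.exp (-z * u))
    (f' := fun t : ℝ => Complex.exp (-z * t) * (-z * 1))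
    (B := fun t : ℝ => ‖z‖ / z.re * (Real.exp (-z.re * u) - Real.exp (-z.re * t)))
    (B' := fun t : ℝ => ‖z‖ / z.re * (0 - Real.exp (-z.re * t) * (-z.re * 1)))
    (a := u) (b := v) ?_ ?_ ?_ ?_ ?_ (Set.right_mem_Icc.2 huv)
  · exact h
  · fun_prop
  · intro x _
    have h1 : HasDerivAt (fun t : ℝ => -z * (t : ℂ)) (-z * 1) x :=
      (Complex.ofRealCLM.hasDerivAt (x := x)).const_mul (-z)
    exact ((h1.cexp).sub_const _).hasDerivWithinAt
  · simp
  · intro x
    have h1 : HasDerivAt (fun t : ℝ => -z.re * t) (-z.re * 1) x :=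
      (hasDerivAt_id x).const_mul (-z.re)
    exact (((hasDerivAt_const x _).sub h1.exp)).const_mul _
  · intro x _
    have h1 : ‖Complex.exp (-z * (x : ℂ)) * (-z * 1)‖ = Real.exp (-z.re * x) * ‖z‖ := by
      rw [norm_mul, Complex.norm_exp, mul_one, norm_neg]
      congr 2
      simp
    rw [h1]
    have h2 : ‖z‖ / z.re * (0 - Real.exp (-z.re * x) * (-z.re * 1)) =
        Real.exp (-z.re * x) * ‖z‖ := by
      field_simp
      ring
    rw [h2]

/-- Abel's theorem in a Stolz angle. -/
theorem abel_stolz (b : ℕ → ℂ) (A : ℂ) (hb : Tendsto (fun n => ∑ k ∈ range n, b k) atTop (𝓝 A))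
    (hs : ∀ z : ℂ, 0 < z.re → Summable fun n : ℕ => Complex.exp (-z * Real.log n) * b n) (K : ℝ) :
    Tendsto (fun z : ℂ => ∑' n : ℕ, Complex.exp (-z * Real.log n) * b n)
      (𝓝[{z : ℂ | 0 < z.re ∧ ‖z‖ ≤ K * z.re}] 0) (𝓝 A) := by
  set Bs : ℕ → ℂ := fun n => ∑ k ∈ range n, b k with hBs
  obtain ⟨C, hC⟩ : ∃ C : ℝ, ∀ n, ‖Bs n - A‖ ≤ C := by
    have h1 := (hb.sub_const A).norm
    obtain ⟨C, hC⟩ := h1.bddAbove_range
    exact ⟨C, fun n => hC ⟨n, rfl⟩⟩
  have hC0 : 0 ≤ C := (norm_nonneg _).trans (hC 0)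
  -- the key inequality
  have key : ∀ z : ℂ, 0 < z.re → ∀ M : ℕ, ∀ η : ℝ, 0 ≤ η → (∀ n, M ≤ n → ‖Bs (n + 1) - A‖ ≤ η) →
      ‖(∑' n : ℕ, Complex.exp (-z * Real.log n) * b n) - A‖ ≤
        ‖z‖ / z.re * (C * (1 - Real.exp (-z.re * Real.log M)) + η) := by
    intro z hz M η hη hM
    set f : ℕ → ℂ := fun n => Complex.exp (-z * Real.log n) with hf
    set g : ℕ → ℝ := fun n => Real.exp (-z.re * Real.log n) with hg
    have hlog : ∀ n : ℕ, Real.log n ≤ Real.log (n + 1 : ℕ) := by
      intro n
      rcases Nat.eq_zero_or_pos n with h | h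
      · subst h
        simp
      · exact Real.log_le_log (by exact_mod_cast h) (by push_cast; linarith)
    have hg1 : ∀ n, g (n + 1) ≤ g n := by
      intro n
      refine Real.exp_le_exp.2 ?_
      have := hlog n
      nlinarith
    have hg0 : g 0 = 1 := by simp [hg]
    have hf0 : f 0 = 1 := by simp [hf]
    have hgpos : ∀ n, 0 < g n := fun n => Real.exp_pos _
    have hnf : ∀ n, ‖f n‖ = g n := by
      intro n
      simp only [hf, hg]
      rw [Complex.norm_exp, Complex.mul_re, Complex.ofReal_re, Complex.ofReal_im, mul_zero,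
        sub_zero, Complex.neg_re]
    have hgle : ∀ n, g n ≤ 1 := by
      intro n
      induction n with
      | zero => exact hg0.le
      | succ n ih => exact (hg1 n).trans ih
    have hfd : ∀ n, ‖f (n + 1) - f n‖ ≤ ‖z‖ / z.re * (g n - g (n + 1)) := fun n =>
      exp_sub_le z hz (hlog n)
    have hparts : ∀ n : ℕ, ∑ k ∈ range (n + 1), f k * b k - A = f n * (Bs (n + 1) - A) -
        ∑ k ∈ range n, (f (k + 1) - f k) * (Bs (k + 1) - A) := by
      intro n
      have h1 := sum_range_by_parts f b (n + 1)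
      simp only [smul_eq_mul, Nat.add_sub_cancel] at h1
      rw [h1]
      have h2 : ∑ k ∈ range n, (f (k + 1) - f k) * (Bs (k + 1) - A) =
          ∑ k ∈ range n, (f (k + 1) - f k) * Bs (k + 1) - (f n - 1) * A := by
        rw [← hf0, ← sum_range_sub f n, sum_mul, ← sum_sub_distrib]
        refine sum_congr rfl fun k _ => ?_
        ring
      rw [h2]
      ring
    have hbd : ∀ n : ℕ, M ≤ n → ‖∑ k ∈ range (n + 1), f k * b k - A‖ ≤ ‖Bs (n + 1) - A‖ +
        ‖z‖ / z.re * (C * (1 - g M) + η) := by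
      intro n hn
      rw [hparts]
      refine (norm_sub_le _ _).trans (add_le_add ?_ ?_)
      · rw [norm_mul, hnf]
        exact mul_le_of_le_one_left (norm_nonneg _) (hgle n)
      · have hzr : 0 ≤ ‖z‖ / z.re := by positivity
        have h1 : ∀ k, ‖(f (k + 1) - f k) * (Bs (k + 1) - A)‖ ≤
            ‖z‖ / z.re * ((g k - g (k + 1)) * ‖Bs (k + 1) - A‖) := by
          intro k
          rw [norm_mul, ← mul_assoc]
          exact mul_le_mul_of_nonneg_right (hfd k) (norm_nonneg _)
        refine (norm_sum_le _ _).trans ((sum_le_sum fun k _ => h1 k).trans ?_)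
        rw [← mul_sum]
        refine mul_le_mul_of_nonneg_left ?_ hzr
        rw [← sum_range_add_sum_Ico _ hn]
        refine add_le_add ?_ ?_
        · calc ∑ k ∈ range M, (g k - g (k + 1)) * ‖Bs (k + 1) - A‖
              ≤ ∑ k ∈ range M, (g k - g (k + 1)) * C := by
                refine sum_le_sum fun k _ => mul_le_mul_of_nonneg_left (hC _) ?_
                linarith [hg1 k]
            _ = C * (1 - g M) := by
                rw [← sum_mul, sum_range_sub' g M, hg0]
                ring
        · calc ∑ k ∈ Ico M n, (g k - g (k + 1)) * ‖Bs (k + 1) - A‖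
              ≤ ∑ k ∈ Ico M n, (g k - g (k + 1)) * η := by
                refine sum_le_sum fun k hk => mul_le_mul_of_nonneg_left (hM k (mem_Ico.1 hk).1) ?_
                linarith [hg1 k]
            _ = (g M - g n) * η := by
                rw [← sum_mul]
                congr 1
                have h3 := sum_range_sub' g n
                have h4 := sum_range_sub' g M
                have h5 := sum_range_add_sum_Ico (fun k => g k - g (k + 1)) hn
                linarith
            _ ≤ 1 * η := by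
                refine mul_le_mul_of_nonneg_right ?_ hη
                linarith [hgle M, hgpos n]
            _ = η := one_mul _
    have hlim : Tendsto (fun n : ℕ => ‖∑ k ∈ range (n + 1), f k * b k - A‖) atTop
        (𝓝 ‖(∑' n : ℕ, f n * b n) - A‖) := by
      have h1 := (hs z hz).hasSum.tendsto_sum_nat
      exact (((tendsto_add_atTop_iff_nat 1).2 h1).sub_const A).norm
    have hlim2 : Tendsto (fun n : ℕ => ‖Bs (n + 1) - A‖ + ‖z‖ / z.re * (C * (1 - g M) + η)) atTop
        (𝓝 (0 + ‖z‖ / z.re * (C * (1 - g M) + η))) := by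
      refine Tendsto.add_const _ ?_
      have h1 := ((tendsto_add_atTop_iff_nat 1).2 (hb.sub_const A)).norm
      simpa using h1
    have h3 := le_of_tendsto_of_tendsto hlim hlim2 (eventually_atTop.2 ⟨M, fun n hn => hbd n hn⟩)
    rw [zero_add] at h3
    exact h3
  rw [Metric.tendsto_nhds]
  intro ε hε
  have hK1 : 0 < |K| + 1 := by positivity
  obtain ⟨M, hM⟩ := (Metric.tendsto_atTop.1 hb) (ε / (2 * (|K| + 1))) (by positivity)
  have hM' : ∀ n, M ≤ n → ‖Bs (n + 1) - A‖ ≤ ε / (2 * (|K| + 1)) := by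
    intro n hn
    have := hM (n + 1) (by omega)
    rw [dist_eq_norm] at this
    exact this.le
  have hcont : Tendsto (fun z : ℂ => (|K| + 1) * (C * (1 - Real.exp (-z.re * Real.log M)) +
      ε / (2 * (|K| + 1)))) (𝓝[{z : ℂ | 0 < z.re ∧ ‖z‖ ≤ K * z.re}] 0)
      (𝓝 ((|K| + 1) * (C * (1 - Real.exp (-(0 : ℂ).re * Real.log M)) + ε / (2 * (|K| + 1))))) := by
    refine Tendsto.mono_left (Continuous.tendsto ?_ 0) nhdsWithin_le_nhds
    fun_prop
  have hval : (|K| + 1) * (C * (1 - Real.exp (-(0 : ℂ).re * Real.log M)) + ε / (2 * (|K| + 1))) <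
      ε := by
    simp only [Complex.zero_re, neg_zero, zero_mul, Real.exp_zero, sub_self, mul_zero, zero_add]
    have : (|K| + 1) * (ε / (2 * (|K| + 1))) = ε / 2 := by field_simp
    rw [this]
    linarith
  filter_upwards [hcont.eventually (gt_mem_nhds hval), self_mem_nhdsWithin] with z hz1 hz2
  rw [dist_eq_norm]
  refine lt_of_le_of_lt ?_ hz1
  refine (key z hz2.1 M (ε / (2 * (|K| + 1))) (by positivity) hM').trans ?_
  refine mul_le_mul_of_nonneg_right ?_ ?_
  · rw [div_le_iff₀ hz2.1]
    have h1 : K * z.re ≤ (|K| + 1) * z.re := by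
      refine mul_le_mul_of_nonneg_right ?_ hz2.1.le
      linarith [le_abs_self K]
    exact hz2.2.trans h1
  · have h1 : Real.exp (-z.re * Real.log M) ≤ 1 := by
      rw [Real.exp_le_one_iff]
      have : 0 ≤ Real.log M := Real.log_natCast_nonneg M
      nlinarith [hz2.1]
    have h2 : 0 ≤ C * (1 - Real.exp (-z.re * Real.log M)) := mul_nonneg hC0 (by linarith)
    positivity

end Pool.Agent.W350.Edge
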