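import Pool.Agent.W350.Edge4
import Pool.Agent.W350.Edge5

/-!
# Boundary values of Euler products with a weight bound
-/

set_option autoImplicit false

namespace Pool.Agent.W350.Edge

open Filter Topology Finset Polynomial

/-- The logarithm of a good Euler factor. -/
noncomputable def logF (t : ℕ → ℕ → ℂ) (p : ℕ) (s : ℂ) : ℂ :=
  ∑' m : ℕ, t p (m + 1) * (p : ℂ) ^ (-((m + 1 : ℂ) * s)) / (m + 1 : ℂ)

open Classical in
/-- The Euler factor. -/
noncomputable def fac (t : ℕ → ℕ → ℂ) (S : Finset ℕ) (B : ℕ → ℂ[X]) (s : ℂ) (p : ℕ) : ℂ :=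
  if p ∈ S then ((B p).eval ((p : ℂ) ^ (-s)))⁻¹ else Complex.exp (logF t p s)

section

variable {t : ℕ → ℕ → ℂ} {S : Finset ℕ} {D w : ℝ}

/-- The weight bound. -/
def WB (t : ℕ → ℕ → ℂ) (w : ℝ) (S : Finset ℕ) (D : ℝ) : Prop :=
  ∀ p, p.Prime → p ∉ S → ∀ m : ℕ, ‖t p (m + 1)‖ ≤ D * ((p : ℝ) ^ (w / 2)) ^ (m + 1)

lemma WB.nonneg (ht : WB t w S D) : 0 ≤ D := by
  obtain ⟨p, hp1, hp2⟩ := Nat.exists_infinite_primes (S.sup id + 1)
  have hpS : p ∉ S := by
    intro h
    have : p ≤ S.sup id := Finset.le_sup (f := id) h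
    omega
  have h1 := ht p hp2 hpS 0
  have hp0 : (0 : ℝ) < p := by exact_mod_cast hp2.pos
  have h2 : 0 < ((p : ℝ) ^ (w / 2)) ^ (0 + 1) := by positivity
  by_contra h3
  push Not at h3
  have h4 : D * ((p : ℝ) ^ (w / 2)) ^ (0 + 1) < 0 := mul_neg_of_neg_of_pos h3 h2
  linarith [norm_nonneg (t p (0 + 1))]

lemma T_bound (ht : WB t w S D) {p : ℕ} (hp : p.Prime) (hpS : p ∉ S) (m : ℕ) {s : ℂ}
    (hs : w / 2 + 1 ≤ s.re) :
    ‖t p (m + 1) * (p : ℂ) ^ (-((m + 1 : ℂ) * s)) / (m + 1 : ℂ)‖ ≤ D * (1 / (p : ℝ)) ^ (m + 1) := by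
  have hp0 : (0 : ℝ) < p := by exact_mod_cast hp.pos
  have hp1 : (1 : ℝ) ≤ p := by exact_mod_cast hp.one_le
  have hD := ht.nonneg
  have h1 : ‖(p : ℂ) ^ (-((m + 1 : ℂ) * s))‖ = ((p : ℝ) ^ (-s.re)) ^ (m + 1) := by
    rw [Complex.norm_natCast_cpow_of_pos hp.pos, ← Real.rpow_natCast, ← Real.rpow_mul hp0.le]
    congr 1
    simp [Complex.mul_re]
    ring
  have h2 : ‖((m : ℂ) + 1)‖ = m + 1 := by
    have : ((m : ℂ) + 1) = ((m + 1 : ℕ) : ℂ) := by push_cast; rfl
    rw [this, Complex.norm_natCast]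
    push_cast
    rfl
  rw [norm_div, norm_mul, h1, h2]
  have h3 : (1 : ℝ) ≤ m + 1 := by
    have : (0 : ℝ) ≤ m := Nat.cast_nonneg m
    linarith
  have h4 : (p : ℝ) ^ (-s.re) ≤ (p : ℝ) ^ (-(w / 2 + 1)) :=
    Real.rpow_le_rpow_of_exponent_le hp1 (by linarith)
  have h5 : (p : ℝ) ^ (w / 2) * (p : ℝ) ^ (-(w / 2 + 1)) = 1 / p := by
    rw [← Real.rpow_add hp0, one_div, ← Real.rpow_neg_one]
    congr 1
    ring
  calc ‖t p (m + 1)‖ * ((p : ℝ) ^ (-s.re)) ^ (m + 1) / (m + 1)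
      ≤ ‖t p (m + 1)‖ * ((p : ℝ) ^ (-s.re)) ^ (m + 1) := div_le_self (by positivity) h3
    _ ≤ (D * ((p : ℝ) ^ (w / 2)) ^ (m + 1)) * ((p : ℝ) ^ (-(w / 2 + 1))) ^ (m + 1) := by
        refine mul_le_mul (ht p hp hpS m) (pow_le_pow_left₀ (by positivity) h4 _)
          (by positivity) (by positivity)
    _ = D * ((p : ℝ) ^ (w / 2) * (p : ℝ) ^ (-(w / 2 + 1))) ^ (m + 1) := by
        rw [mul_pow]
        ring
    _ = _ := by rw [h5]

lemma geo_summable {p : ℕ} (hp : p.Prime) (D : ℝ) :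
    Summable fun m : ℕ => D * (1 / (p : ℝ)) ^ (m + 1 + 1) := by
  refine Summable.mul_left _ ?_
  have h1 : Summable fun m : ℕ => (1 / (p : ℝ)) ^ m := by
    refine summable_geometric_of_lt_one (by positivity) ?_
    rw [div_lt_one (by exact_mod_cast hp.pos)]
    exact_mod_cast hp.one_lt
  exact (summable_nat_add_iff 2).2 h1

lemma geo_tsum {p : ℕ} (hp : p.Prime) (hD : 0 ≤ D) :
    ∑' m : ℕ, D * (1 / (p : ℝ)) ^ (m + 1 + 1) ≤ 2 * D / (p : ℝ) ^ 2 := by
  have hp0 : (0 : ℝ) < p := by exact_mod_cast hp.pos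
  have hp2 : (2 : ℝ) ≤ p := by exact_mod_cast hp.two_le
  have h1 : (1 / (p : ℝ)) ≤ 1 / 2 := one_div_le_one_div_of_le two_pos hp2
  have h2 : ∀ m : ℕ, D * (1 / (p : ℝ)) ^ (m + 1 + 1) ≤ D / (p : ℝ) ^ 2 * (1 / 2) ^ m := by
    intro m
    have h3 : D * (1 / (p : ℝ)) ^ (m + 1 + 1) = D / (p : ℝ) ^ 2 * (1 / (p : ℝ)) ^ m := by
      rw [pow_succ, pow_succ]
      ring
    rw [h3]
    exact mul_le_mul_of_nonneg_left (pow_le_pow_left₀ (by positivity) h1 m) (by positivity)
  refine (Summable.tsum_le_tsum h2 (geo_summable hp D) (summable_geometric_two.mul_left _)).trans ?_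
  rw [tsum_mul_left, tsum_geometric_two]
  refine le_of_eq ?_
  ring

open Classical in
/-- The contribution of the higher powers. -/
noncomputable def RR (t : ℕ → ℕ → ℂ) (S : Finset ℕ) (p : ℕ) (s : ℂ) : ℂ :=
  if p.Prime ∧ p ∉ S then ∑' m : ℕ, t p (m + 1 + 1) * (p : ℂ) ^ (-(((m + 1 : ℕ) + 1 : ℂ) * s)) /
    ((m + 1 : ℕ) + 1 : ℂ) else 0

lemma RR_bound (ht : WB t w S D) (p : ℕ) {s : ℂ} (hs : w / 2 + 1 ≤ s.re) :
    ‖RR t S p s‖ ≤ 2 * D / (p : ℝ) ^ 2 := by
  have hD := ht.nonneg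
  unfold RR
  split_ifs with h
  · refine le_trans ?_ (geo_tsum h.1 hD)
    exact tsum_of_norm_bounded (geo_summable h.1 D).hasSum fun m => T_bound ht h.1 h.2 (m + 1) hs
  · rw [norm_zero]
    positivity

lemma RR_summable_bound (D : ℝ) : Summable fun p : ℕ => 2 * D / (p : ℝ) ^ 2 := by
  have h1 : Summable fun n : ℕ => 1 / (n : ℝ) ^ 2 := Real.summable_one_div_nat_pow.2 one_lt_two
  refine (h1.mul_left (2 * D)).congr fun p => ?_
  ring

/-- The half-plane `Re s ≥ w/2 + 1`. -/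
def HP (w : ℝ) : Set ℂ := {s | w / 2 + 1 ≤ s.re}

lemma RR_tendsto (ht : WB t w S D) (p : ℕ) {s₀ : ℂ} :
    Tendsto (fun s => RR t S p s) (𝓝[HP w] s₀) (𝓝 (RR t S p s₀)) := by
  unfold RR
  split_ifs with h
  · refine tendsto_tsum_of_dominated_convergence (bound := fun m : ℕ =>
      D * (1 / (p : ℝ)) ^ (m + 1 + 1)) (geo_summable h.1 D) (fun m => ?_) ?_
    · refine Tendsto.mono_left (Continuous.tendsto ?_ s₀) nhdsWithin_le_nhds
      have hp : (p : ℂ) ≠ 0 := by exact_mod_cast h.1.ne_zero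
      have h1 : Continuous fun s : ℂ => (p : ℂ) ^ (-(((m + 1 : ℕ) + 1 : ℂ) * s)) := by
        have h2 : Continuous fun s : ℂ => -(((m + 1 : ℕ) + 1 : ℂ) * s) := by fun_prop
        exact h2.const_cpow (Or.inl hp)
      exact (continuous_const.mul h1).div_const _
    · filter_upwards [self_mem_nhdsWithin] with s hs m
      exact T_bound ht h.1 h.2 (m + 1) hs
  · exact tendsto_const_nhds

lemma sum_RR_tendsto (ht : WB t w S D) {s₀ : ℂ} :
    Tendsto (fun s => ∑' p, RR t S p s) (𝓝[HP w] s₀) (𝓝 (∑' p, RR t S p s₀)) := by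
  refine tendsto_tsum_of_dominated_convergence (RR_summable_bound D)
    (fun p => RR_tendsto ht p) ?_
  filter_upwards [self_mem_nhdsWithin] with s hs p
  exact RR_bound ht p hs

open Classical in
/-- The normalised first traces. -/
noncomputable def aa (t : ℕ → ℕ → ℂ) (w : ℝ) (S : Finset ℕ) (p : ℕ) : ℂ :=
  if p.Prime ∧ p ∉ S then t p 1 * ((p : ℝ) ^ (-(w / 2)) : ℝ) else 0

lemma norm_aa (ht : WB t w S D) (p : ℕ) : ‖aa t w S p‖ ≤ D := by
  unfold aa
  split_ifs with h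
  · have hp0 : (0 : ℝ) < p := by exact_mod_cast h.1.pos
    rw [norm_mul, Complex.norm_real, Real.norm_of_nonneg (by positivity)]
    have h1 := ht p h.1 h.2 0
    rw [zero_add, pow_one] at h1
    calc ‖t p 1‖ * (p : ℝ) ^ (-(w / 2)) ≤ (D * (p : ℝ) ^ (w / 2)) * (p : ℝ) ^ (-(w / 2)) :=
          mul_le_mul_of_nonneg_right h1 (by positivity)
      _ = D := by
        rw [mul_assoc, ← Real.rpow_add hp0]
        simp
  · rw [norm_zero]
    exact ht.nonneg

/-- The edge point. -/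
noncomputable def sp (w τ : ℝ) : ℂ := ((w / 2 + 1 : ℝ) : ℂ) + (τ : ℂ) * Complex.I

lemma sp_re (w τ : ℝ) : (sp w τ).re = w / 2 + 1 := by
  simp [sp]

lemma exp_term (z : ℂ) (τ : ℝ) {p : ℕ} (hp : p.Prime) (hpS : p ∉ S) :
    Complex.exp (-z * Real.log p) * term (aa t w S) τ p = t p 1 * (p : ℂ) ^ (-(sp w τ + z)) := by
  have hp0 : (p : ℂ) ≠ 0 := by exact_mod_cast hp.ne_zero
  have hp0' : (0 : ℝ) < p := by exact_mod_cast hp.pos
  have hlog : Complex.log (p : ℂ) = ((Real.log p : ℝ) : ℂ) := by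
    rw [← Complex.ofReal_natCast, Complex.ofReal_log hp0'.le]
  unfold term aa sp
  rw [if_pos hp, if_pos ⟨hp, hpS⟩, Complex.cpow_def_of_ne_zero hp0, hlog,
    Real.rpow_def_of_pos hp0', Complex.ofReal_exp]
  have h1 : (p : ℂ) = Complex.exp ((Real.log p : ℝ) : ℂ) := by
    rw [← Complex.ofReal_exp, Real.exp_log hp0', Complex.ofReal_natCast]
  have h2 : t p 1 * Complex.exp ((Real.log p * (-(w / 2)) : ℝ) : ℂ) / (p : ℂ) =
      t p 1 * Complex.exp ((Real.log p * (-(w / 2)) : ℝ) : ℂ) *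
        Complex.exp (-((Real.log p : ℝ) : ℂ)) := by
    rw [Complex.exp_neg, ← h1, div_eq_mul_inv]
  rw [h2]
  have h3 : ∀ x y u v : ℂ, Complex.exp x * (t p 1 * Complex.exp y * Complex.exp u *
      Complex.exp v) = t p 1 * Complex.exp (x + y + u + v) := by
    intro x y u v
    rw [Complex.exp_add, Complex.exp_add, Complex.exp_add]
    ring
  rw [h3]
  congr 2
  push_cast
  ring

open Classical in
/-- The logarithm of the good part. -/
noncomputable def GG (t : ℕ → ℕ → ℂ) (S : Finset ℕ) (s : ℂ) (p : ℕ) : ℂ :=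
  if p.Prime ∧ p ∉ S then logF t p s else 0

lemma GG_eq (ht : WB t w S D) (z : ℂ) (hz : 0 ≤ z.re) (τ : ℝ) (p : ℕ) :
    GG t S (sp w τ + z) p = Complex.exp (-z * Real.log p) * term (aa t w S) τ p +
      RR t S p (sp w τ + z) := by
  have hre : w / 2 + 1 ≤ (sp w τ + z).re := by
    rw [Complex.add_re, sp_re]
    linarith
  unfold GG
  split_ifs with h
  · rw [exp_term z τ h.1 h.2, RR, if_pos h, logF]
    have hsum : Summable fun m : ℕ => t p (m + 1) * (p : ℂ) ^ (-((m + 1 : ℂ) * (sp w τ + z))) /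
        (m + 1 : ℂ) := by
      refine Summable.of_norm_bounded (g := fun m : ℕ => D * (1 / (p : ℝ)) ^ (m + 1)) ?_
        fun m => T_bound ht h.1 h.2 m hre
      refine Summable.mul_left _ ?_
      have h1 : Summable fun m : ℕ => (1 / (p : ℝ)) ^ m := by
        refine summable_geometric_of_lt_one (by positivity) ?_
        rw [div_lt_one (by exact_mod_cast h.1.pos)]
        exact_mod_cast h.1.one_lt
      exact (summable_nat_add_iff 1).2 h1
    rw [hsum.tsum_eq_zero_add]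
    congr 1
    simp
  · have h1 : RR t S p (sp w τ + z) = 0 := by
      unfold RR
      rw [if_neg h]
    have h2 : term (aa t w S) τ p = 0 := by
      unfold term aa
      rw [if_neg h]
      split_ifs <;> simp
    rw [h1, h2, mul_zero, add_zero]

open Classical in
/-- The bad part. -/
noncomputable def BBf (S : Finset ℕ) (B : ℕ → ℂ[X]) (s : ℂ) (p : ℕ) : ℂ :=
  if p.Prime ∧ p ∈ S then ((B p).eval ((p : ℂ) ^ (-s)))⁻¹ else 1

lemma fac_eq (B : ℕ → ℂ[X]) (s : ℂ) {p : ℕ} (hp : p.Prime) :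
    fac t S B s p = BBf S B s p * Complex.exp (GG t S s p) := by
  unfold fac BBf GG
  by_cases h : p ∈ S
  · simp [h, hp]
  · simp [h, hp]

lemma BBf_hasProd (B : ℕ → ℂ[X]) (s : ℂ) :
    HasProd (BBf S B s) (∏ p ∈ S, BBf S B s p) := by
  refine hasProd_prod_of_ne_finset_one fun p hp => ?_
  unfold BBf
  rw [if_neg fun h => hp h.2]

lemma term_summable (ht : WB t w S D) (τ : ℝ) (z : ℂ) (hz : 0 < z.re) :
    Summable fun n : ℕ => Complex.exp (-z * Real.log n) * term (aa t w S) τ n := by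
  have h1 : Summable fun n : ℕ => D * (1 / (n : ℝ) ^ (1 + z.re)) :=
    (Real.summable_one_div_nat_rpow.2 (by linarith)).mul_left D
  refine Summable.of_norm_bounded h1 fun n => ?_
  unfold term
  split_ifs with hp
  · have hp0 : (0 : ℝ) < n := by exact_mod_cast hp.pos
    have h2 : ‖Complex.exp (-z * Real.log n)‖ = (n : ℝ) ^ (-z.re) := by
      rw [Complex.norm_exp, Complex.mul_re, Complex.ofReal_re, Complex.ofReal_im, mul_zero,
        sub_zero, Complex.neg_re, Real.rpow_def_of_pos hp0, mul_comm]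
    have h3 : ‖Complex.exp (-((τ : ℂ) * (Real.log n : ℂ)) * Complex.I)‖ = 1 := by
      rw [Complex.norm_exp, Complex.mul_I_re, ← Complex.ofReal_mul, ← Complex.ofReal_neg,
        Complex.ofReal_im, neg_zero, Real.exp_zero]
    rw [norm_mul, h2, norm_mul, h3, mul_one, norm_div, Complex.norm_natCast]
    have h4 : 1 / (n : ℝ) ^ (1 + z.re) = (n : ℝ) ^ (-z.re) * (1 / n) := by
      rw [one_div, ← Real.rpow_neg hp0.le, one_div, ← Real.rpow_neg_one, ← Real.rpow_add hp0]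
      congr 1
      ring
    rw [h4]
    have h5 := norm_aa ht n
    calc (n : ℝ) ^ (-z.re) * (‖aa t w S n‖ / n) ≤ (n : ℝ) ^ (-z.re) * (D / n) := by gcongr
      _ = _ := by ring
  · rw [mul_zero, norm_zero]
    have := ht.nonneg
    positivity

/-- The value of the Euler product in the half-plane of absolute convergence. -/
lemma euler_eq (ht : WB t w S D) (B : ℕ → ℂ[X]) (τ : ℝ) (z : ℂ) (hz : 0 < z.re) :
    HasProd (fun p : Nat.Primes => fac t S B (sp w τ + z) p)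
      ((∏ p ∈ S, BBf S B (sp w τ + z) p) *
        Complex.exp (∑' n : ℕ, Complex.exp (-z * Real.log n) * term (aa t w S) τ n +
          ∑' p : ℕ, RR t S p (sp w τ + z))) := by
  have hre : w / 2 + 1 ≤ (sp w τ + z).re := by
    rw [Complex.add_re, sp_re]
    linarith
  have h1 : HasSum (GG t S (sp w τ + z))
      (∑' n : ℕ, Complex.exp (-z * Real.log n) * term (aa t w S) τ n +
          ∑' p : ℕ, RR t S p (sp w τ + z)) := by
    have h2 := (term_summable ht τ z hz).hasSum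
    have h3 : Summable fun p : ℕ => RR t S p (sp w τ + z) :=
      Summable.of_norm_bounded (RR_summable_bound D) fun p => RR_bound ht p hre
    refine (h2.add h3.hasSum).congr_fun ?_
    intro p
    exact GG_eq ht z hz.le τ p
  have h2 := (BBf_hasProd (S := S) B (sp w τ + z)).mul h1.cexp
  have h3 : (fun p : Nat.Primes => fac t S B (sp w τ + z) p) =
      (fun p : ℕ => BBf S B (sp w τ + z) p * (Complex.exp ∘ GG t S (sp w τ + z)) p) ∘
        ((↑) : {p : ℕ | p.Prime} → ℕ) := by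
    funext p
    exact fac_eq B _ p.2
  rw [h3]
  refine (hasProd_subtype_iff_of_mulSupport_subset ?_).2 h2
  intro p hp
  by_contra h4
  refine hp ?_
  have h5 : ¬ p.Prime := h4
  simp [BBf, GG, h5]

/-- The partial products. -/
lemma partial_eq (ht : WB t w S D) (B : ℕ → ℂ[X]) (τ : ℝ) (x : ℕ) :
    ∏ p ∈ Nat.primesBelow x, fac t S B (sp w τ) p =
      (∏ p ∈ range x, BBf S B (sp w τ) p) *
        Complex.exp (ps (aa t w S) τ x + ∑ p ∈ range x, RR t S p (sp w τ)) := by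
  have h1 : ∏ p ∈ Nat.primesBelow x, fac t S B (sp w τ) p =
      ∏ p ∈ range x, (BBf S B (sp w τ) p * Complex.exp (GG t S (sp w τ) p)) := by
    unfold Nat.primesBelow
    rw [prod_filter]
    refine prod_congr rfl fun p _ => ?_
    split_ifs with hp
    · exact fac_eq B _ hp
    · simp [BBf, GG, hp]
  rw [h1, prod_mul_distrib, ← Complex.exp_sum]
  congr 2
  unfold ps
  rw [← sum_add_distrib]
  refine sum_congr rfl fun p _ => ?_
  have h2 := GG_eq ht 0 (by simp) τ p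
  simpa using h2

/-- The main theorem on one edge point. -/
theorem at_point (ht : WB t w S D) (B : ℕ → ℂ[X]) (τ : ℝ)
    (hB : ∀ p ∈ S, p.Prime → (B p).eval ((p : ℂ) ^ (-sp w τ)) ≠ 0)
    (A : ℂ) (hA : Tendsto (ps (aa t w S) τ) atTop (𝓝 A)) :
    ∃ l : ℂ, l ≠ 0 ∧
      Tendsto (fun x : ℕ => ∏ p ∈ Nat.primesBelow x, fac t S B (sp w τ) p) atTop (𝓝 l) ∧
      ∀ K : ℝ, Tendsto (fun s : ℂ => ∏' p : Nat.Primes, fac t S B s p)
        (𝓝[{s : ℂ | w / 2 + 1 < s.re ∧ ‖s - sp w τ‖ ≤ K * (s.re - (w / 2 + 1))}] (sp w τ))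
        (𝓝 l) := by
  have hmem : sp w τ ∈ HP w := by
    show w / 2 + 1 ≤ (sp w τ).re
    rw [sp_re]
  refine ⟨(∏ p ∈ S, BBf S B (sp w τ) p) * Complex.exp (A + ∑' p : ℕ, RR t S p (sp w τ)),
    ?_, ?_, ?_⟩
  · refine mul_ne_zero (prod_ne_zero_iff.2 fun p hp => ?_) (Complex.exp_ne_zero _)
    unfold BBf
    split_ifs with h
    · exact inv_ne_zero (hB p hp h.1)
    · exact one_ne_zero
  · have h1 : Summable fun p : ℕ => RR t S p (sp w τ) :=
      Summable.of_norm_bounded (RR_summable_bound D) fun p => RR_bound ht p hmem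
    have h2 := h1.hasSum.tendsto_sum_nat
    have h3 := (BBf_hasProd (S := S) B (sp w τ)).tendsto_prod_nat
    have h4 := h3.mul ((Complex.continuous_exp.tendsto _).comp (hA.add h2))
    refine h4.congr fun x => ?_
    exact (partial_eq ht B τ x).symm
  · intro K
    set F := {s : ℂ | w / 2 + 1 < s.re ∧ ‖s - sp w τ‖ ≤ K * (s.re - (w / 2 + 1))} with hF
    have hFsub : F ⊆ HP w := fun s hs => hs.1.le
    have h1 : Tendsto (fun s => ∏ p ∈ S, BBf S B s p) (𝓝[F] (sp w τ))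
        (𝓝 (∏ p ∈ S, BBf S B (sp w τ) p)) := by
      refine tendsto_finsetProd _ fun p hp => ?_
      unfold BBf
      split_ifs with h
      · refine Tendsto.inv₀ (Tendsto.mono_left (Continuous.tendsto ?_ _) nhdsWithin_le_nhds)
          (hB p hp h.1)
        have hp0 : (p : ℂ) ≠ 0 := by exact_mod_cast h.1.ne_zero
        exact (B p).continuous.comp (continuous_neg.const_cpow (Or.inl hp0))
      · exact tendsto_const_nhds
    have h2 : Tendsto (fun s => ∑' p, RR t S p s) (𝓝[F] (sp w τ))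
        (𝓝 (∑' p, RR t S p (sp w τ))) := (sum_RR_tendsto ht).mono_left
      (nhdsWithin_mono _ hFsub)
    have h3 : Tendsto (fun s : ℂ => ∑' n : ℕ, Complex.exp (-(s - sp w τ) * Real.log n) *
        term (aa t w S) τ n) (𝓝[F] (sp w τ)) (𝓝 A) := by
      have h4 := abel_stolz (term (aa t w S) τ) A hA (term_summable ht τ) K
      refine h4.comp ?_
      refine tendsto_nhdsWithin_iff.2 ⟨?_, ?_⟩
      · refine Tendsto.mono_left ?_ nhdsWithin_le_nhds
        have h5 : Continuous fun s : ℂ => s - sp w τ := by fun_prop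
        have h6 := h5.tendsto (sp w τ)
        rwa [sub_self] at h6
      · filter_upwards [self_mem_nhdsWithin] with s hs
        have h5 : (s - sp w τ).re = s.re - (w / 2 + 1) := by
          rw [Complex.sub_re, sp_re]
        refine ⟨?_, ?_⟩
        · rw [h5]
          linarith [hs.1]
        · rw [h5]
          exact hs.2
    have h4 := h1.mul ((Complex.continuous_exp.tendsto _).comp (h3.add h2))
    refine h4.congr' ?_
    filter_upwards [self_mem_nhdsWithin] with s hs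
    have h5 : 0 < (s - sp w τ).re := by
      rw [Complex.sub_re, sp_re]
      linarith [hs.1]
    have h6 := (euler_eq ht B τ (s - sp w τ) h5).tprod_eq
    rw [add_sub_cancel] at h6
    exact h6.symm

end

/-- A vertical line meets the zero set of a local factor in a countable set. -/
lemma countable_zeros {p : ℕ} (hp : p.Prime) (w : ℝ) {P : ℂ[X]} (hP : P ≠ 0) :
    {τ : ℝ | P.eval ((p : ℂ) ^ (-sp w τ)) = 0}.Countable := by
  have hp0 : (p : ℂ) ≠ 0 := by exact_mod_cast hp.ne_zero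
  have hp0' : (0 : ℝ) < p := by exact_mod_cast hp.pos
  have hlog0 : 0 < Real.log p := Real.log_pos (by exact_mod_cast hp.one_lt)
  have hlog : Complex.log (p : ℂ) = ((Real.log p : ℝ) : ℂ) := by
    rw [← Complex.ofReal_natCast, Complex.ofReal_log hp0'.le]
  have h1 : {τ : ℝ | P.eval ((p : ℂ) ^ (-sp w τ)) = 0} ⊆
      ⋃ c ∈ P.roots.toFinset, {τ : ℝ | (p : ℂ) ^ (-sp w τ) = c} := by
    intro τ hτ
    simp only [Set.mem_iUnion]
    refine ⟨(p : ℂ) ^ (-sp w τ), ?_, rfl⟩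
    rw [Multiset.mem_toFinset, mem_roots hP]
    exact hτ
  refine Set.Countable.mono h1 (Set.Countable.biUnion (Finset.countable_toSet _) fun c _ => ?_)
  by_cases h2 : ∃ τ₀ : ℝ, (p : ℂ) ^ (-sp w τ₀) = c
  · obtain ⟨τ₀, h3⟩ := h2
    refine Set.Countable.mono ?_ (Set.countable_range fun n : ℤ =>
      τ₀ - n * (2 * Real.pi) / Real.log p)
    intro τ hτ
    have h4 : (p : ℂ) ^ (-sp w τ) = (p : ℂ) ^ (-sp w τ₀) := by
      rw [h3]
      exact hτ
    rw [Complex.cpow_def_of_ne_zero hp0, Complex.cpow_def_of_ne_zero hp0, hlog,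
      Complex.exp_eq_exp_iff_exists_int] at h4
    obtain ⟨n, hn⟩ := h4
    refine ⟨n, ?_⟩
    have h5 := congrArg Complex.im hn
    simp only [sp, Complex.mul_im, Complex.add_im, Complex.neg_im, Complex.ofReal_re,
      Complex.ofReal_im, Complex.I_im, Complex.I_re, Complex.neg_re, Complex.add_re,
      Complex.mul_re, Complex.intCast_re, Complex.intCast_im, Complex.re_ofNat,
      Complex.im_ofNat] at h5
    have h6 : Real.log p * τ = Real.log p * τ₀ - n * (2 * Real.pi) := by linarith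
    show τ₀ - n * (2 * Real.pi) / Real.log p = τ
    field_simp
    linarith
  · have h3 : {τ : ℝ | (p : ℂ) ^ (-sp w τ) = c} = ∅ := by
      ext τ
      simp only [Set.mem_ofPred_eq, Set.mem_empty_iff_false, iff_false]
      exact fun h => h2 ⟨τ, h⟩
    rw [h3]
    exact Set.countable_empty

/-- **Boundary values of Euler products.** -/
theorem boundary {t : ℕ → ℕ → ℂ} {S : Finset ℕ} {D w : ℝ} (ht : WB t w S D) (B : ℕ → ℂ[X])
    (hB : ∀ p ∈ S, B p ≠ 0) :
    ∃ E : Set ℝ, dimH E = 0 ∧ ∀ τ, τ ∉ E → ∃ l : ℂ, l ≠ 0 ∧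
      Tendsto (fun x : ℕ => ∏ p ∈ Nat.primesBelow x, fac t S B (sp w τ) p) atTop (𝓝 l) ∧
      ∀ K : ℝ, Tendsto (fun s : ℂ => ∏' p : Nat.Primes, fac t S B s p)
        (𝓝[{s : ℂ | w / 2 + 1 < s.re ∧ ‖s - sp w τ‖ ≤ K * (s.re - (w / 2 + 1))}] (sp w τ))
        (𝓝 l) := by
  classical
  refine ⟨divSet (aa t w S) ∪ ⋃ p ∈ S.filter Nat.Prime,
    {τ : ℝ | (B p).eval ((p : ℂ) ^ (-sp w τ)) = 0}, ?_, ?_⟩
  · have h1 : (⋃ p ∈ S.filter Nat.Prime,
        {τ : ℝ | (B p).eval ((p : ℂ) ^ (-sp w τ)) = 0}).Countable := by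
      refine Set.Countable.biUnion (Finset.countable_toSet _) fun p hp => ?_
      have hp' := mem_filter.1 hp
      exact countable_zeros hp'.2 w (hB p hp'.1)
    rw [dimH_union, dimH_divSet _ D (norm_aa ht), dimH_countable h1, max_self]
  · intro τ hτ
    rw [Set.mem_union, not_or] at hτ
    obtain ⟨A, hA⟩ : ∃ A, Tendsto (ps (aa t w S) τ) atTop (𝓝 A) := by
      by_contra h
      exact hτ.1 h
    refine at_point ht B τ (fun p hp hpp h => hτ.2 ?_) A hA
    simp only [Set.mem_iUnion]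
    exact ⟨p, mem_filter.2 ⟨hp, hpp⟩, h⟩

end Pool.Agent.W350.Edge
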