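import Pool.Agent.W350.Main

/-!
Conclusion: the edge inequality in terms of `log (1 / ε)`.
-/

set_option autoImplicit false
set_option linter.unusedSectionVars false

namespace Pool.Agent.W350

open Complex Filter Topology ComplexConjugate NumberField Polynomial Pool.Agent.H341R2

section

variable {κ : Type} [DecidableEq κ]

theorem tendsto_logInv : Tendsto (fun ε : ℝ => Real.log (1 / ε)) (𝓝[>] 0) atTop := by
  have h1 : Tendsto (fun ε : ℝ => -Real.log ε) (𝓝[>] 0) atTop :=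
    tendsto_neg_atBot_atTop.comp Real.tendsto_log_nhdsGT_zero
  refine h1.congr fun ε => ?_
  rw [one_div, Real.log_inv]

theorem final1 (T : Finset κ) (t : Nat.Primes → ℂ) (v : κ → Nat.Primes → ℂ)
    (n : κ → ℝ) (hn : ∀ k ∈ T, 0 < n k) (b : ℝ) (ht : ∀ p, ‖t p‖ ≤ b)
    (c : κ → ℝ) (hv : ∀ k p, ‖v k p‖ ≤ c k)
    (horth : ∀ k ∈ T, ∀ l ∈ T,
      PNegl fun p => (v k p * conj (v l p)).re - if k = l then n k else 0)
    (L : κ → ℝ → ℝ) (hL : ∀ k ∈ T, ∃ C : ℝ, ∀ᶠ ε : ℝ in 𝓝[>] 0,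
      |(E ε fun p => (t p * conj (v k p)).re) - L k ε| ≤ C) {η : ℝ} (hη : 0 < η) :
    ∀ᶠ ε : ℝ in 𝓝[>] 0,
      ∑ k ∈ T, (L k ε / Real.log (1 / ε)) ^ 2 / n k ≤
        E ε (fun p => ‖t p‖ ^ 2) / Real.log (1 / ε) + η ∧
      E ε (fun p => ‖t p‖ ^ 2) / Real.log (1 / ε) ≤ b ^ 2 + η := by
  classical
  have hb0 : 0 ≤ b := (norm_nonneg _).trans (ht ⟨2, Nat.prime_two⟩)
  have hc0 : ∀ k, 0 ≤ c k := fun k => (norm_nonneg _).trans (hv k ⟨2, Nat.prime_two⟩)
  have hL' : ∀ k, ∃ C : ℝ, 0 ≤ C ∧ (k ∈ T → ∀ᶠ ε : ℝ in 𝓝[>] 0,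
      |(E ε fun p => (t p * conj (v k p)).re) - L k ε| ≤ C) := by
    intro k
    by_cases hk : k ∈ T
    · obtain ⟨C, hC⟩ := hL k hk
      exact ⟨|C|, abs_nonneg _, fun _ => hC.mono fun ε h => h.trans (le_abs_self C)⟩
    · exact ⟨0, le_refl _, fun h => absurd h hk⟩
  choose C hC0 hC using hL'
  obtain ⟨C0', hC0'⟩ := lam_bounded
  set C0 : ℝ := |C0'| with hC0def
  have hC00 : 0 ≤ C0 := abs_nonneg _
  set a : ℝ := ∑ k ∈ T, 2 * (b * c k) * C k / n k with ha
  set e : ℝ := ∑ k ∈ T, C k ^ 2 / n k with he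
  have ha0 : 0 ≤ a := Finset.sum_nonneg fun k hk => by
    have h1 := hn k hk
    have h2 := hc0 k
    have h3 := hC0 k
    positivity
  have he0 : 0 ≤ e := Finset.sum_nonneg fun k hk => by
    have h1 := hn k hk
    positivity
  have ev1 : ∀ᶠ ε : ℝ in 𝓝[>] 0, ∀ k ∈ T,
      |(E ε fun p => (t p * conj (v k p)).re) - L k ε| ≤ C k := by
    rw [Filter.eventually_all_finset]
    exact fun k hk => hC k hk
  have hη8 : 0 < η / 8 := by positivity
  filter_upwards [ev1, bessel_refined T t v n hn b ht c hv horth hη8, hC0', self_mem_nhdsWithin,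
    tendsto_logInv.eventually_ge_atTop (C0 + 1),
    tendsto_logInv.eventually_ge_atTop ((2 * (C0 * b ^ 2) + 2 * a + e) / (η / 2)),
    tendsto_logInv.eventually_ge_atTop (b ^ 2 * C0 / η)] with ε h1 h2 h3 h4 h5 h6 h8
  have hε : (0 : ℝ) < ε := h4
  set ℓ : ℝ := Real.log (1 / ε) with hℓ
  have hℓ1 : 1 ≤ ℓ := by linarith
  have hℓ0 : 0 < ℓ := by linarith
  have hlam : |lam ε - ℓ| ≤ C0 := by
    have h7 : lam ε - ℓ = lam ε + Real.log ε := by
      rw [hℓ, one_div, Real.log_inv]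
      ring
    rw [h7]
    exact h3.trans (le_abs_self _)
  have hlam1 : lam ε ≤ ℓ + C0 := by linarith [(abs_le.1 hlam).2]
  have hlam2 : lam ε ≤ 2 * ℓ := by linarith
  have hlam0 : 0 ≤ lam ε := tsum_nonneg fun p => w_nonneg ε p
  set Q : ℝ := E ε (fun p => ‖t p‖ ^ 2) with hQ
  have hQ0 : 0 ≤ Q := E_nonneg fun p => sq_nonneg _
  have hbt : ∀ p, ‖t p‖ ^ 2 ≤ b ^ 2 := fun p => pow_le_pow_left₀ (norm_nonneg _) (ht p) 2
  have hQ1 : Q ≤ b ^ 2 * lam ε :=
    E_le hε (B := b ^ 2) (fun p => by rw [abs_of_nonneg (sq_nonneg _)]; exact hbt p) hbt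
  refine ⟨?_, ?_⟩
  · have hA : ∀ k ∈ T, L k ε ^ 2 / n k ≤ (E ε fun p => (t p * conj (v k p)).re) ^ 2 / n k +
        (2 * (b * c k) * C k / n k) * lam ε + C k ^ 2 / n k := by
      intro k hk
      have hk0 := hn k hk
      set A : ℝ := E ε fun p => (t p * conj (v k p)).re with hA
      have hAb : |A| ≤ b * c k * lam ε := by
        have h3 : ∀ p, |(t p * conj (v k p)).re| ≤ b * c k := fun p =>
          abs_re_mul_conj_le (ht p) (hv k p)
        rw [abs_le]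
        constructor
        · have h4 := E_le hε (φ := fun p => (-1) * (t p * conj (v k p)).re) (B := b * c k)
            (fun p => by rw [abs_mul, abs_neg, abs_one, one_mul]; exact h3 p)
            (b := b * c k) (fun p => by have := (abs_le.1 (h3 p)).1; linarith)
          rw [E_const_mul] at h4
          linarith
        · exact E_le hε h3 fun p => (le_abs_self _).trans (h3 p)
      have h9 := h1 k hk
      have h10 : L k ε ^ 2 ≤ A ^ 2 + 2 * (b * c k * lam ε) * C k + C k ^ 2 := by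
        have h11 : |L k ε| ≤ |A| + C k := by
          have := abs_sub_abs_le_abs_sub (L k ε) A
          rw [abs_sub_comm] at this
          linarith
        have h12 : L k ε ^ 2 ≤ (|A| + C k) ^ 2 := by
          rw [← sq_abs (L k ε)]
          exact pow_le_pow_left₀ (abs_nonneg _) h11 2
        have h13 : (|A| + C k) ^ 2 = A ^ 2 + 2 * |A| * C k + C k ^ 2 := by
          rw [← sq_abs A]; ring
        have h14 := mul_le_mul_of_nonneg_right hAb (hC0 k)
        nlinarith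
      calc L k ε ^ 2 / n k ≤ (A ^ 2 + 2 * (b * c k * lam ε) * C k + C k ^ 2) / n k :=
            div_le_div_of_nonneg_right h10 hk0.le
        _ = _ := by ring
    have hsum : ∑ k ∈ T, L k ε ^ 2 / n k ≤ lam ε * Q + η / 8 * (lam ε) ^ 2 + a * lam ε + e := by
      refine (Finset.sum_le_sum hA).trans ?_
      rw [Finset.sum_add_distrib, Finset.sum_add_distrib, ← Finset.sum_mul]
      linarith
    have h9 : ∑ k ∈ T, (L k ε / ℓ) ^ 2 / n k = (∑ k ∈ T, L k ε ^ 2 / n k) / ℓ ^ 2 := by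
      rw [Finset.sum_div]
      refine Finset.sum_congr rfl fun k _ => ?_
      rw [div_pow]
      ring
    rw [h9, div_le_iff₀ (by positivity)]
    have h10 : (Q / ℓ + η) * ℓ ^ 2 = Q * ℓ + η * ℓ ^ 2 := by
      field_simp
    rw [h10]
    have h11 : lam ε * Q ≤ Q * ℓ + C0 * (b ^ 2 * (2 * ℓ)) := by
      have h12 : lam ε * Q ≤ (ℓ + C0) * Q := mul_le_mul_of_nonneg_right hlam1 hQ0
      have h13 : C0 * Q ≤ C0 * (b ^ 2 * (2 * ℓ)) :=
        mul_le_mul_of_nonneg_left (hQ1.trans (mul_le_mul_of_nonneg_left hlam2 (sq_nonneg b))) hC00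
      linarith
    have h12 : (lam ε) ^ 2 ≤ 4 * ℓ ^ 2 := by
      have := pow_le_pow_left₀ hlam0 hlam2 2
      nlinarith
    have h13 : a * lam ε ≤ a * (2 * ℓ) := mul_le_mul_of_nonneg_left hlam2 ha0
    rw [div_le_iff₀ (by positivity)] at h6
    have h14 : (2 * (C0 * b ^ 2) + 2 * a + e) * ℓ ≤ (ℓ * (η / 2)) * ℓ :=
      mul_le_mul_of_nonneg_right h6 hℓ0.le
    have h15 : e ≤ e * ℓ := le_mul_of_one_le_right he0 hℓ1
    have h16 : η / 8 * (lam ε) ^ 2 ≤ η / 8 * (4 * ℓ ^ 2) := mul_le_mul_of_nonneg_left h12 hη8.le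
    nlinarith
  · rw [div_le_iff₀ hℓ0]
    rw [div_le_iff₀ hη] at h8
    have h9 : b ^ 2 * lam ε ≤ b ^ 2 * (ℓ + C0) := mul_le_mul_of_nonneg_left hlam1 (sq_nonneg b)
    linarith

end

end Pool.Agent.W350
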