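import Mathlib

/-!
Homomorphisms from the ring of integers of a subfield of a Galois number field to a prime field,
counted by means of a Frobenius element.
-/

set_option autoImplicit false
set_option linter.unusedSectionVars false
set_option linter.style.haveILetI false

namespace Pool.Agent.W350

open NumberField IntermediateField
open scoped Pointwise

section

variable {K : Type} [Field K] [NumberField K] [IsGalois ℚ K]

/-- fixed points of `σ` on the cosets of `H` -/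
noncomputable def fixCos {G : Type} [Group G] (H : Subgroup G) (σ : G) : ℕ :=
  Nat.card {q : G ⧸ H // σ • q = q}

theorem smul_algebraMap' (H : Subgroup Gal(K/ℚ)) (h : H) (a : 𝓞 (fixedField H)) :
    h • (algebraMap (𝓞 (fixedField H)) (𝓞 K) a) = algebraMap (𝓞 (fixedField H)) (𝓞 K) a := by
  ext
  exact (a : fixedField H).2 h

instance isInv (H : Subgroup Gal(K/ℚ)) : Algebra.IsInvariant (𝓞 (fixedField H)) (𝓞 K) H where
  isInvariant b hb := by
    have h1 : (b : K) ∈ fixedField H := by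
      intro h
      have h2 := congrArg (fun x : 𝓞 K => (x : K)) (hb h)
      exact h2
    have h3 : IsIntegral ℤ (⟨(b : K), h1⟩ : fixedField H) := by
      have := b.2
      rw [mem_integralClosure_iff] at this
      exact (isIntegral_algHom_iff ((fixedField H).val.restrictScalars ℤ)
        (fixedField H).val.injective).1 this
    refine ⟨⟨⟨(b : K), h1⟩, h3⟩, ?_⟩
    ext
    rfl

instance smulComm (H : Subgroup Gal(K/ℚ)) : SMulCommClass H (𝓞 (fixedField H)) (𝓞 K) where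
  smul_comm h a b := by
    rw [Algebra.smul_def, Algebra.smul_def, smul_mul', smul_algebraMap']

/-- `σ` is a Frobenius element at a prime `P` above `p` with trivial inertia -/
structure IsFrob (p : ℕ) (σ : Gal(K/ℚ)) (P : Ideal (𝓞 K)) : Prop where
  prime : P.IsPrime
  mem : (p : 𝓞 K) ∈ P
  frob : ∀ x : 𝓞 K, σ • x - x ^ p ∈ P
  unram : ∀ g : Gal(K/ℚ), (∀ x : 𝓞 K, g • x - x ∈ P) → g = 1

variable {p : ℕ} [Fact p.Prime] {σ : Gal(K/ℚ)} {P : Ideal (𝓞 K)}

/-- if two conjugates of the reduction agree on the subfield, the conjugating elements are in the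
same coset -/
theorem IsFrob.coset_eq (h : IsFrob p σ P) (H : Subgroup Gal(K/ℚ)) (g g' : Gal(K/ℚ))
    (heq : ∀ a : 𝓞 (fixedField H), g • (algebraMap (𝓞 (fixedField H)) (𝓞 K) a) -
      g' • (algebraMap (𝓞 (fixedField H)) (𝓞 K) a) ∈ P) : ∃ τ ∈ H, g' = g * τ := by
  have hP := h.prime
  -- the kernels
  set Q : Ideal (𝓞 K) := g⁻¹ • P with hQ
  set Q' : Ideal (𝓞 K) := g'⁻¹ • P with hQ'
  have mQ : ∀ x : 𝓞 K, x ∈ Q ↔ g • x ∈ P := fun x => by
    rw [hQ, Ideal.mem_inv_pointwise_smul_iff]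
  have mQ' : ∀ x : 𝓞 K, x ∈ Q' ↔ g' • x ∈ P := fun x => by
    rw [hQ', Ideal.mem_inv_pointwise_smul_iff]
  have : Q.IsPrime := hP.smul _
  have : Q'.IsPrime := hP.smul _
  have hunder : Q.under (𝓞 (fixedField H)) = Q'.under (𝓞 (fixedField H)) := by
    ext a
    rw [Ideal.mem_comap, Ideal.mem_comap, mQ, mQ']
    constructor
    · intro h1
      have := P.sub_mem h1 (heq a)
      rwa [sub_sub_cancel] at this
    · intro h1
      have := P.add_mem (heq a) h1
      rwa [sub_add_cancel] at this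
  obtain ⟨τ, hτ⟩ := Algebra.IsInvariant.exists_smul_of_under_eq (𝓞 (fixedField H)) (𝓞 K) H Q Q'
    hunder
  -- `e = g⁻¹ g' τ` stabilises `Q` and acts trivially on the residue ring of the subfield
  set e : Gal(K/ℚ) := g⁻¹ * g' * (τ : Gal(K/ℚ)) with he
  have hfixa : ∀ (s : Gal(K/ℚ)), s ∈ H → ∀ a : 𝓞 (fixedField H),
      s • (algebraMap (𝓞 (fixedField H)) (𝓞 K) a) = algebraMap (𝓞 (fixedField H)) (𝓞 K) a :=
    fun s hs a => smul_algebraMap' H ⟨s, hs⟩ a
  have heQ : e • Q = Q := by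
    have h1 : (τ : Gal(K/ℚ)) • Q = Q' := hτ.symm
    rw [he, mul_smul, h1, hQ', mul_smul, smul_inv_smul, ← hQ]
  have heF : ∀ a : 𝓞 (fixedField H), e • (algebraMap (𝓞 (fixedField H)) (𝓞 K) a) -
      algebraMap (𝓞 (fixedField H)) (𝓞 K) a ∈ Q := by
    intro a
    rw [mQ, smul_sub, he, mul_smul, hfixa _ τ.2, mul_smul, smul_inv_smul]
    have := P.neg_mem (heq a)
    rwa [neg_sub] at this
  -- the induced automorphism of the residue ring
  set q : Ideal (𝓞 (fixedField H)) := Q.under (𝓞 (fixedField H)) with hq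
  let f0 := Ideal.Quotient.stabilizerHom Q (Q.under ℤ) Gal(K/ℚ) ⟨e, heQ⟩
  have hf0 : ∀ b : 𝓞 K, f0 (Ideal.Quotient.mk Q b) = Ideal.Quotient.mk Q (e • b) := fun b =>
    Ideal.Quotient.stabilizerHom_apply Q (Q.under ℤ) Gal(K/ℚ) ⟨e, heQ⟩ b
  let f : (𝓞 K ⧸ Q) ≃ₐ[𝓞 (fixedField H) ⧸ q] (𝓞 K ⧸ Q) :=
    AlgEquiv.ofRingEquiv (f := (f0 : (𝓞 K ⧸ Q) ≃+* (𝓞 K ⧸ Q))) (by
      intro x
      obtain ⟨a, rfl⟩ := Ideal.Quotient.mk_surjective x
      rw [Ideal.Quotient.algebraMap_mk_of_liesOver]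
      change f0 _ = _
      rw [hf0, Ideal.Quotient.mk_eq_mk_iff_sub_mem]
      exact heF a)
  obtain ⟨t, ht⟩ := Ideal.Quotient.stabilizerHom_surjective H q Q f
  have ht2 : ∀ b : 𝓞 K, ((t : H) : Gal(K/ℚ)) • b - e • b ∈ Q := by
    intro b
    rw [← Ideal.Quotient.mk_eq_mk_iff_sub_mem, ← hf0]
    have h1 := Ideal.Quotient.stabilizerHom_apply Q q H t b
    rw [ht] at h1
    exact h1.symm
  have hc : g * (e⁻¹ * ((t : H) : Gal(K/ℚ))) * g⁻¹ = 1 := by
    refine h.unram _ fun x => ?_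
    have h1 : e⁻¹ • (((t : H) : Gal(K/ℚ)) • (g⁻¹ • x) - e • (g⁻¹ • x)) ∈ Q := by
      have h2 := (Ideal.smul_mem_pointwise_smul_iff (a := e⁻¹)).2 (ht2 (g⁻¹ • x))
      have h3 : e⁻¹ • Q = Q := by rw [inv_smul_eq_iff, heQ]
      rwa [h3] at h2
    rw [mQ] at h1
    rw [smul_sub, inv_smul_smul, smul_sub, smul_inv_smul] at h1
    rwa [mul_smul, mul_smul, mul_smul]
  have hte : ((t : H) : Gal(K/ℚ)) = e := by
    have h1 : e⁻¹ * ((t : H) : Gal(K/ℚ)) = 1 := by
      have h2 : g * (e⁻¹ * ((t : H) : Gal(K/ℚ))) = g := by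
        have h3 := congrArg (· * g) hc
        simpa using h3
      simpa using h2
    rw [← mul_inv_eq_one] 
    have h4 := congrArg (fun z => e * z * e⁻¹) h1
    simpa [mul_assoc] using h4
  refine ⟨((t : H) : Gal(K/ℚ)) * (τ : Gal(K/ℚ))⁻¹, H.mul_mem (t : H).2 (H.inv_mem τ.2), ?_⟩
  rw [hte, he]
  group

theorem intCast_mem_iff {Q : Ideal (𝓞 K)} (hQ : Q.IsPrime) (hp : (p : 𝓞 K) ∈ Q) (n : ℤ) :
    (n : 𝓞 K) ∈ Q ↔ (p : ℤ) ∣ n := by
  constructor
  · intro hn
    by_contra hcon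
    have hco : IsCoprime (p : ℤ) n :=
      (Nat.prime_iff_prime_int.1 (Fact.out : p.Prime)).coprime_iff_not_dvd.2 hcon
    obtain ⟨a, b, hab⟩ := hco
    apply hQ.ne_top
    rw [Ideal.eq_top_iff_one]
    have h1 : (1 : 𝓞 K) = (a : 𝓞 K) * (p : 𝓞 K) + (b : 𝓞 K) * (n : 𝓞 K) := by
      have := congrArg (fun z : ℤ => (z : 𝓞 K)) hab
      push_cast at this
      exact this.symm
    rw [h1]
    exact Q.add_mem (Q.mul_mem_left _ hp) (Q.mul_mem_left _ hn)
  · rintro ⟨c, rfl⟩
    push_cast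
    exact Q.mul_mem_right _ hp

/-- the number of homomorphisms of the ring of integers of the fixed field of `H` to the field with
`p` elements is the number of cosets of `H` fixed by a Frobenius element -/
theorem IsFrob.card_homs (h : IsFrob p σ P) (H : Subgroup Gal(K/ℚ)) :
    Nat.card (𝓞 (fixedField H) →+* ZMod p) = fixCos H σ := by
  classical
  have hP := h.prime
  have hp0 : (p : 𝓞 K) ≠ 0 := by exact_mod_cast (Fact.out : p.Prime).ne_zero
  have hPne : P ≠ ⊥ := by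
    intro h1
    have := h.mem
    rw [h1, Ideal.mem_bot] at this
    exact hp0 this
  have hmax : P.IsMaximal := hP.isMaximal hPne
  letI : Field (𝓞 K ⧸ P) := Ideal.Quotient.field P
  have hpk : ((p : ℕ) : 𝓞 K ⧸ P) = 0 := by
    have := Ideal.Quotient.eq_zero_iff_mem.2 h.mem
    simpa using this
  haveI hchar : CharP (𝓞 K ⧸ P) p := by
    obtain ⟨c, hc⟩ := CharP.exists (𝓞 K ⧸ P)
    have h1 : c ∣ p := (CharP.cast_eq_zero_iff (𝓞 K ⧸ P) c p).1 hpk
    rcases (Nat.dvd_prime (Fact.out : p.Prime)).1 h1 with h2 | h2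
    · subst h2
      exact absurd rfl (CharP.char_ne_one (𝓞 K ⧸ P) 1)
    · rwa [h2] at hc
  set ι : ZMod p →+* (𝓞 K ⧸ P) := ZMod.castHom (m := p) dvd_rfl (𝓞 K ⧸ P) with hι
  have hmem : ∀ x : 𝓞 K ⧸ P, x ^ p = x → ∃ y, ι y = x := by
    intro x hx
    have h1 := (Subfield.mem_bot_iff_pow_eq_self (𝓞 K ⧸ P) p).2 hx
    rw [← ZMod.fieldRange_castHom_eq_bot p] at h1
    exact h1
  have hinj : Function.Injective ι := ι.injective
  set F := fixedField H with hF
  set am : 𝓞 F →+* 𝓞 K := algebraMap (𝓞 F) (𝓞 K) with ham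
  -- reduction of a conjugate
  let red : Gal(K/ℚ) → 𝓞 F →+* (𝓞 K ⧸ P) := fun g =>
    ((Ideal.Quotient.mk P).comp (MulSemiringAction.toRingHom Gal(K/ℚ) (𝓞 K) g)).comp am
  have hred : ∀ g a, red g a = Ideal.Quotient.mk P (g • am a) := fun g a => rfl
  have hredmul : ∀ g, ∀ t ∈ H, red (g * t) = red g := by
    intro g t ht
    ext a
    rw [hred, hred, mul_smul, ham, smul_algebraMap' H ⟨t, ht⟩ a |> fun h => (h : t • _ = _)]
  -- the coset is fixed iff the reduction lands in the prime field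
  have hfix : ∀ g : Gal(K/ℚ), (σ • (g : Gal(K/ℚ) ⧸ H) = (g : Gal(K/ℚ) ⧸ H)) ↔
      ∀ a, (red g a) ^ p = red g a := by
    intro g
    have hs : ∀ a, (red g a) ^ p = red (σ * g) a := by
      intro a
      rw [hred, hred, ← map_pow, mul_smul, Ideal.Quotient.mk_eq_mk_iff_sub_mem]
      have := P.neg_mem (h.frob (g • am a))
      rwa [neg_sub] at this
    constructor
    · intro h1 a
      rw [hs]
      have h2 : ((σ * g : Gal(K/ℚ)) : Gal(K/ℚ) ⧸ H) = (g : Gal(K/ℚ) ⧸ H) := h1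
      rw [eq_comm, QuotientGroup.eq] at h2
      have h3 := hredmul g _ h2
      rw [mul_inv_cancel_left] at h3
      rw [h3]
    · intro h1
      obtain ⟨t, ht, h2⟩ := h.coset_eq H g (σ * g) (fun a => by
        rw [← Ideal.Quotient.mk_eq_mk_iff_sub_mem]
        change red g a = red (σ * g) a
        rw [← hs, h1])
      change ((σ * g : Gal(K/ℚ)) : Gal(K/ℚ) ⧸ H) = (g : Gal(K/ℚ) ⧸ H)
      rw [eq_comm, QuotientGroup.eq, h2, inv_mul_cancel_left]
      exact ht
  -- the homomorphism of a fixed coset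
  have hex : ∀ q : {q : Gal(K/ℚ) ⧸ H // σ • q = q}, ∃ ψ : 𝓞 F →+* ZMod p,
      ∀ a, ι (ψ a) = red q.1.out a := by
    rintro ⟨q, hq⟩
    have h1 : ∀ a, (red q.out a) ^ p = red q.out a := by
      rw [← hfix, QuotientGroup.out_eq']
      exact hq
    choose f hf using fun a => hmem _ (h1 a)
    refine ⟨{ toFun := f, map_one' := ?_, map_mul' := ?_, map_zero' := ?_, map_add' := ?_ }, hf⟩
    · apply hinj
      rw [hf, map_one, map_one]
    · intro a b
      apply hinj
      rw [hf, map_mul, map_mul, hf, hf]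
    · apply hinj
      rw [hf, map_zero, map_zero]
    · intro a b
      apply hinj
      rw [hf, map_add, map_add, hf, hf]
  choose T hT using hex
  symm
  unfold fixCos
  refine Nat.card_eq_of_bijective T ⟨?_, ?_⟩
  · rintro q q' hqq
    obtain ⟨t, ht, h2⟩ := h.coset_eq H q.1.out q'.1.out (fun a => by
        rw [← Ideal.Quotient.mk_eq_mk_iff_sub_mem]
        change red q.1.out a = red q'.1.out a
        rw [← hT, ← hT, hqq])
    apply Subtype.ext
    rw [← QuotientGroup.out_eq' q.1, ← QuotientGroup.out_eq' q'.1, QuotientGroup.eq, h2,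
      inv_mul_cancel_left]
    exact ht
  · intro ψ
    -- a prime of `K` above the kernel
    have hker : (RingHom.ker ψ).IsMaximal :=
      RingHom.ker_isMaximal_of_surjective ψ (ZMod.ringHom_surjective ψ)
    obtain ⟨Q, hQmax, hQ⟩ := Ideal.exists_maximal_ideal_liesOver_of_isIntegral (RingHom.ker ψ) (S := 𝓞 K)
    have hQp : Q.IsPrime := hQmax.isPrime
    have hmemQ : ∀ a : 𝓞 F, am a ∈ Q ↔ ψ a = 0 := by
      intro a
      have h1 := hQ.over
      have h2 : a ∈ RingHom.ker ψ ↔ a ∈ Q.under (𝓞 F) := by rw [← h1]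
      rw [RingHom.mem_ker, Ideal.mem_comap] at h2
      exact h2.symm
    have hpQ : (p : 𝓞 K) ∈ Q := by
      have h1 := (hmemQ (p : 𝓞 F)).2 (by rw [map_natCast]; exact ZMod.natCast_self _)
      rwa [map_natCast] at h1
    have hund : Q.under ℤ = P.under ℤ := by
      ext n
      rw [Ideal.mem_comap, Ideal.mem_comap]
      simp only [algebraMap_int_eq, eq_intCast]
      rw [intCast_mem_iff hQp hpQ, intCast_mem_iff hP h.mem]
    obtain ⟨g, hg⟩ := Algebra.IsInvariant.exists_smul_of_under_eq ℤ (𝓞 K) Gal(K/ℚ) Q P hund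
    have hgm : ∀ x : 𝓞 K, x ∈ Q ↔ g • x ∈ P := by
      intro x
      rw [hg, Ideal.smul_mem_pointwise_smul_iff]
    have hred2 : ∀ a, red g a = ι (ψ a) := by
      intro a
      obtain ⟨n, hn⟩ := ZMod.intCast_surjective (ψ a)
      have h1 : am (a - (n : 𝓞 F)) ∈ Q := by
        rw [hmemQ, map_sub, map_intCast, hn, sub_self]
      rw [hgm] at h1
      have h2 : red g (a - (n : 𝓞 F)) = 0 := Ideal.Quotient.eq_zero_iff_mem.2 h1
      rw [map_sub, map_intCast, sub_eq_zero] at h2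
      rw [h2, ← hn, map_intCast]
    have hq : σ • (g : Gal(K/ℚ) ⧸ H) = (g : Gal(K/ℚ) ⧸ H) := by
      rw [hfix]
      intro a
      rw [hred2, ← map_pow, ZMod.pow_card]
    refine ⟨⟨(g : Gal(K/ℚ) ⧸ H), hq⟩, ?_⟩
    ext a
    apply hinj
    rw [hT, ← hred2]
    have h1 : g⁻¹ * (Quotient.out (g : Gal(K/ℚ) ⧸ H)) ∈ H := by
      rw [← QuotientGroup.eq, QuotientGroup.out_eq']
    have h2 := hredmul g _ h1
    rw [mul_inv_cancel_left] at h2
    rw [← h2]

end

end Pool.Agent.W350
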