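import Pool.Agent.W350.Core
import Pool.Agent.H341R2.NF.SysEuler

/-!
Edge behaviour of the Euler products `L(M ⊗ A, s)`.
-/

set_option autoImplicit false
set_option linter.unusedSectionVars false

namespace Pool.Agent.W350

open Complex Filter Topology ComplexConjugate NumberField Polynomial Pool.Agent.H341R2

section

variable {K : Type} [Field K] [NumberField K] [IsGalois ℚ K]

open Classical in
/-- The Euler product of `M ⊗ A`. -/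
noncomputable def LF {V : Type} [AddCommGroup V] [Module ℚ V] (t : Nat.Primes → ℕ → ℂ)
    (ρ : Representation ℚ Gal(K/ℚ) V) (frob : Nat.Primes → Gal(K/ℚ)) (S : Finset Nat.Primes)
    (B : Nat.Primes → ℂ[X]) (s : ℂ) : ℂ :=
  ∏' p : Nat.Primes, if p ∈ S then ((B p).eval (((p : ℕ) : ℂ) ^ (-s)))⁻¹ else
    cexp (∑' m : ℕ, t p (m + 1) * ((LinearMap.trace ℚ V (ρ (frob p ^ (m + 1))) : ℚ) : ℂ) *
      ((p : ℕ) : ℂ) ^ (-((m + 1 : ℂ) * s)) / (m + 1 : ℂ))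

variable {κ : Type} [DecidableEq κ] {V : κ → Type} [∀ k, AddCommGroup (V k)]
  [∀ k, Module ℚ (V k)] [∀ k, FiniteDimensional ℚ (V k)]

theorem tn_zero {t : Nat.Primes → ℕ → ℂ} {w : ℝ} {S : Finset Nat.Primes} {p : Nat.Primes}
    (hp : p ∈ S) (z : ℂ) : tn t w S p * z = 0 := by
  rw [tn, if_pos hp, zero_mul]

theorem local_bound {t : Nat.Primes → ℕ → ℂ} {w d : ℝ} {S : Finset Nat.Primes} (hd : 0 ≤ d)
    (ht : ∀ p, p ∉ S → ∀ m : ℕ, ‖t p (m + 1)‖ ≤ d * ((p : ℝ) ^ (w / 2)) ^ (m + 1))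
    (ρ : ∀ k, Representation ℚ Gal(K/ℚ) (V k)) (frob : Nat.Primes → Gal(K/ℚ)) (τ : κ → ℝ) (k : κ)
    {ε : ℝ} (hε : 0 < ε) (p : Nat.Primes) (hp : p ∉ S) :
    ‖(∑' m : ℕ, t p (m + 1) * ((LinearMap.trace ℚ (V k) (ρ k (frob p ^ (m + 1))) : ℚ) : ℂ) *
      ((p : ℕ) : ℂ) ^ (-((m + 1 : ℂ) * ((w / 2 + 1 : ℝ) + (τ k : ℂ) * I + (ε : ℂ)))) / (m + 1 : ℂ)) -
      (tn t w S p * conj (vk ρ frob τ k p)) * (((p : ℝ) ^ (-(1 + ε)) : ℝ) : ℂ)‖ ≤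
      2 * (d * cr (ρ k)) * (p : ℝ) ^ (-2 : ℝ) := by
  classical
  set c : ℕ → ℂ := fun m => t p m *
    ((LinearMap.trace ℚ (V k) (ρ k (frob p ^ m)) : ℚ) : ℂ) with hc
  have hcb : ∀ m : ℕ, ‖c (m + 1)‖ ≤ (d * cr (ρ k)) * ((sysP.N p : ℝ) ^ (w / 2)) ^ (m + 1) := by
    intro m
    rw [hc]
    simp only
    rw [norm_mul]
    have h1 : ‖((LinearMap.trace ℚ (V k) (ρ k (frob p ^ (m + 1))) : ℚ) : ℂ)‖ ≤ cr (ρ k) := by
      have h2 := xr_le (ρ k) (frob p ^ (m + 1))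
      have h3 : ((LinearMap.trace ℚ (V k) (ρ k (frob p ^ (m + 1))) : ℚ) : ℂ) =
          ((xr (ρ k) (frob p ^ (m + 1)) : ℝ) : ℂ) := by
        rw [xr, Complex.ofReal_ratCast]
      rw [h3, Complex.norm_real]
      exact h2
    calc ‖t p (m + 1)‖ * ‖((LinearMap.trace ℚ (V k) (ρ k (frob p ^ (m + 1))) : ℚ) : ℂ)‖
        ≤ (d * ((p : ℝ) ^ (w / 2)) ^ (m + 1)) * cr (ρ k) :=
          mul_le_mul (ht p hp m) h1 (norm_nonneg _) (by positivity)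
      _ = _ := by
          change _ = (d * cr (ρ k)) * ((p : ℝ) ^ (w / 2)) ^ (m + 1)
          ring
  have h1 := sysP.goodLog_bound c (d * cr (ρ k)) (w / 2) (mul_nonneg hd (cr_nonneg _)) p hcb
    ((w / 2 + 1 : ℝ) + (τ k : ℂ) * I + (ε : ℂ)) (by simp; linarith)
  have h2 : c 1 * ((p : ℕ) : ℂ) ^ (-((w / 2 + 1 : ℝ) + (τ k : ℂ) * I + (ε : ℂ))) =
      (tn t w S p * conj (vk ρ frob τ k p)) * (((p : ℝ) ^ (-(1 + ε)) : ℝ) : ℂ) := by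
    have h0 : ((p : ℕ) : ℂ) ≠ 0 := by exact_mod_cast p.2.ne_zero
    have h3 : conj (((p : ℕ) : ℂ) ^ ((τ k : ℂ) * I)) = ((p : ℕ) : ℂ) ^ (-((τ k : ℂ) * I)) :=
      sysP.conj_cpow_I p (τ k)
    have hp0 : (0 : ℝ) ≤ ((p : ℕ) : ℝ) := Nat.cast_nonneg _
    rw [tn, if_neg hp, vk, map_mul, Complex.conj_ofReal, h3, hc]
    simp only [pow_one]
    rw [Complex.ofReal_cpow hp0, Complex.ofReal_cpow hp0, Complex.ofReal_natCast]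
    have h4 : (-((w / 2 + 1 : ℝ) + (τ k : ℂ) * I + (ε : ℂ)) : ℂ) =
        ((-(w / 2) : ℝ) : ℂ) + (-((τ k : ℂ) * I) + ((-(1 + ε) : ℝ) : ℂ)) := by
      push_cast
      ring
    rw [h4, Complex.cpow_add _ _ h0, Complex.cpow_add _ _ h0]
    have h5 : ((LinearMap.trace ℚ (V k) (ρ k (frob p)) : ℚ) : ℂ) =
          ((xr (ρ k) (frob p) : ℝ) : ℂ) := by
      rw [xr, Complex.ofReal_ratCast]
    rw [h5]
    ring
  rw [← h2]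
  exact h1

theorem logL {t : Nat.Primes → ℕ → ℂ} {w d : ℝ} {S : Finset Nat.Primes} (hd : 0 ≤ d)
    (ht : ∀ p, p ∉ S → ∀ m : ℕ, ‖t p (m + 1)‖ ≤ d * ((p : ℝ) ^ (w / 2)) ^ (m + 1))
    (ρ : ∀ k, Representation ℚ Gal(K/ℚ) (V k)) (frob : Nat.Primes → Gal(K/ℚ)) (τ : κ → ℝ) (k : κ)
    (B : Nat.Primes → ℂ[X])
    (hB : ∀ p, p ∈ S → (B p).eval (((p : ℕ) : ℂ) ^ (-((w / 2 + 1 : ℝ) + (τ k : ℂ) * I))) ≠ 0) :
    ∃ C' : ℝ, ∀ᶠ ε : ℝ in 𝓝[>] 0,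
      |(E ε fun p => (tn t w S p * conj (vk ρ frob τ k p)).re) -
        Real.log ‖LF t (ρ k) frob S B ((w / 2 + 1 : ℝ) + (τ k : ℂ) * I + (ε : ℂ))‖| ≤ C' := by
  classical
  obtain ⟨C', hC⟩ := Pool.Agent.H126T.log_norm sysP (Good := fun p : Nat.Primes => p ∉ S)
    (hdec := fun p => Classical.propDecidable _)
    (by simp only [not_not]; exact S.finite_toSet) B ((w / 2 + 1 : ℝ) + (τ k : ℂ) * I)
    (fun p hp => hB p (not_not.1 hp))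
    (fun p => tn t w S p * conj (vk ρ frob τ k p)) (K := d * cr (ρ k))
    (fun p => by
      rw [norm_mul, Complex.norm_conj]
      exact mul_le_mul (norm_tn_le hd ht p) (norm_vk_le ρ frob τ k p) (norm_nonneg _) hd)
    (fun p hp => tn_zero (not_not.1 hp) _)
    (fun ε (p : Nat.Primes) => ∑' m : ℕ, t p (m + 1) *
      ((LinearMap.trace ℚ (V k) (ρ k (frob p ^ (m + 1))) : ℚ) : ℂ) *
      ((p : ℕ) : ℂ) ^ (-((m + 1 : ℂ) * ((w / 2 + 1 : ℝ) + (τ k : ℂ) * I + (ε : ℂ)))) / (m + 1 : ℂ))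
    (C := 2 * (d * cr (ρ k)))
    (fun ε hε p hp => local_bound hd ht ρ frob τ k hε p hp)
  refine ⟨C', ?_⟩
  filter_upwards [hC] with ε hε
  have h1 := hε.2
  have h2 : (∏' p : Nat.Primes, if p ∉ S then cexp (∑' m : ℕ, t p (m + 1) *
      ((LinearMap.trace ℚ (V k) (ρ k (frob p ^ (m + 1))) : ℚ) : ℂ) *
      ((p : ℕ) : ℂ) ^ (-((m + 1 : ℂ) * ((w / 2 + 1 : ℝ) + (τ k : ℂ) * I + (ε : ℂ)))) / (m + 1 : ℂ))
      else ((B p).eval (((p : ℕ) : ℂ) ^ (-((w / 2 + 1 : ℝ) + (τ k : ℂ) * I + (ε : ℂ)))))⁻¹) =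
      LF t (ρ k) frob S B ((w / 2 + 1 : ℝ) + (τ k : ℂ) * I + (ε : ℂ)) := by
    unfold LF
    refine tprod_congr fun p => ?_
    by_cases hp : p ∈ S
    · rw [if_pos hp, if_neg (not_not.2 hp)]
    · rw [if_neg hp, if_pos hp]
  rw [← h2]
  have h3 : (∏' p : Nat.Primes, @ite ℂ (p ∉ S) (Classical.propDecidable (p ∉ S))
      (cexp (∑' m : ℕ, t p (m + 1) *
      ((LinearMap.trace ℚ (V k) (ρ k (frob p ^ (m + 1))) : ℚ) : ℂ) *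
      ((p : ℕ) : ℂ) ^ (-((m + 1 : ℂ) * ((w / 2 + 1 : ℝ) + (τ k : ℂ) * I + (ε : ℂ)))) / (m + 1 : ℂ)))
      ((B p).eval (((p : ℕ) : ℂ) ^ (-((w / 2 + 1 : ℝ) + (τ k : ℂ) * I + (ε : ℂ)))))⁻¹) =
      (∏' p : Nat.Primes, if p ∉ S then
      cexp (∑' m : ℕ, t p (m + 1) *
      ((LinearMap.trace ℚ (V k) (ρ k (frob p ^ (m + 1))) : ℚ) : ℂ) *
      ((p : ℕ) : ℂ) ^ (-((m + 1 : ℂ) * ((w / 2 + 1 : ℝ) + (τ k : ℂ) * I + (ε : ℂ)))) / (m + 1 : ℂ))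
      else ((B p).eval (((p : ℕ) : ℂ) ^ (-((w / 2 + 1 : ℝ) + (τ k : ℂ) * I + (ε : ℂ)))))⁻¹) := by
    refine tprod_congr fun (p : Nat.Primes) => ?_
    by_cases hp : p ∈ S
    · rw [if_neg (not_not.2 hp), if_neg (not_not.2 hp)]
    · rw [if_pos hp, if_pos hp]
  rw [← h3]
  exact h1

theorem orderL {t : Nat.Primes → ℕ → ℂ} {w d : ℝ} {S : Finset Nat.Primes} (hd : 0 ≤ d)
    (ht : ∀ p, p ∉ S → ∀ m : ℕ, ‖t p (m + 1)‖ ≤ d * ((p : ℝ) ^ (w / 2)) ^ (m + 1))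
    (ρ : ∀ k, Representation ℚ Gal(K/ℚ) (V k)) (frob : Nat.Primes → Gal(K/ℚ)) (τ : κ → ℝ) (k : κ)
    (B : Nat.Primes → ℂ[X])
    (hB : ∀ p, p ∈ S → (B p).eval (((p : ℕ) : ℂ) ^ (-((w / 2 + 1 : ℝ) + (τ k : ℂ) * I))) ≠ 0)
    {Λ : ℂ → ℂ} (hΛ : MeromorphicAt Λ ((w / 2 + 1 : ℝ) + (τ k : ℂ) * I))
    (hΛL : ∀ᶠ s in 𝓝 ((w / 2 + 1 : ℝ) + (τ k : ℂ) * I), w / 2 + 1 < s.re →
      Λ s = LF t (ρ k) frob S B s) :
    ∃ m : ℤ, meromorphicOrderAt Λ ((w / 2 + 1 : ℝ) + (τ k : ℂ) * I) = m ∧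
      ∃ C' : ℝ, ∀ᶠ ε : ℝ in 𝓝[>] 0,
      |(E ε fun p => (tn t w S p * conj (vk ρ frob τ k p)).re) + m * lam ε| ≤ C' := by
  classical
  refine sysP.two_sided (Good := fun p : Nat.Primes => p ∉ S)
    (by simp only [not_not]; exact S.finite_toSet) B ((w / 2 + 1 : ℝ) + (τ k : ℂ) * I)
    (fun p hp => hB p (not_not.1 hp))
    (fun p => tn t w S p * conj (vk ρ frob τ k p)) (K := d * cr (ρ k))
    (fun p => by
      rw [norm_mul, Complex.norm_conj]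
      exact mul_le_mul (norm_tn_le hd ht p) (norm_vk_le ρ frob τ k p) (norm_nonneg _) hd)
    (fun p hp => tn_zero (not_not.1 hp) _)
    (fun ε (p : Nat.Primes) => ∑' m : ℕ, t p (m + 1) *
      ((LinearMap.trace ℚ (V k) (ρ k (frob p ^ (m + 1))) : ℚ) : ℂ) *
      ((p : ℕ) : ℂ) ^ (-((m + 1 : ℂ) * ((w / 2 + 1 : ℝ) + (τ k : ℂ) * I + (ε : ℂ)))) / (m + 1 : ℂ))
    (C := 2 * (d * cr (ρ k)))
    (fun ε hε p hp => local_bound hd ht ρ frob τ k hε p hp) hΛ ?_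
  have hpath := path_tendsto' ((w / 2 + 1 : ℝ) + (τ k : ℂ) * I)
  filter_upwards [hpath.eventually hΛL, self_mem_nhdsWithin] with ε h1 h2
  have hε : (0 : ℝ) < ε := h2
  rw [h1 (by simp [hε])]
  unfold LF
  refine tprod_congr fun (p : Nat.Primes) => ?_
  by_cases hp : p ∈ S
  · rw [if_pos hp, if_neg (not_not.2 hp)]
    rfl
  · rw [if_neg hp, if_pos hp]

end

end Pool.Agent.W350
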