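import Pool.Agent.W350.ArtinInd
import Pool.Agent.H341R2.NF.Orth
import Pool.Agent.H126T.LogB

/-!
Mean values of rational class functions at Frobenius elements, and Bessel's inequality at the edge.
-/

set_option autoImplicit false
set_option linter.unusedSectionVars false

namespace Pool.Agent.W350

open Complex Filter Topology ComplexConjugate NumberField IntermediateField Pool.Agent.H341R2
open Pool.Agent.H921R2.TatePole (R R_eq_hc R_le hc)

/-- the system of prime numbers -/
noncomputable def sysP : NormSys where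
  X := Nat.Primes
  N := fun p => (p : ℕ)
  two_le := fun p => p.2.two_le
  summable := fun _ hr => summable_prime_rpow hr
  log_bdd := lam_bounded

theorem negl_const_mul {φ : Nat.Primes → ℝ} (c : ℝ) (h : PNegl φ) : PNegl fun p => c * φ p := by
  intro η hη
  have h1 := h (η / (|c| + 1)) (by positivity)
  filter_upwards [h1, lam_tendsto.eventually_ge_atTop 0] with ε h2 h3
  rw [E_const_mul, abs_mul]
  calc |c| * |E ε φ| ≤ |c| * (η / (|c| + 1) * lam ε) := mul_le_mul_of_nonneg_left h2 (abs_nonneg _)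
    _ = (|c| / (|c| + 1)) * (η * lam ε) := by ring
    _ ≤ 1 * (η * lam ε) := by
        refine mul_le_mul_of_nonneg_right ?_ (by positivity)
        rw [div_le_one (by positivity)]
        linarith
    _ = η * lam ε := one_mul _

theorem negl_sum {ι : Type*} (s : Finset ι) (φ : ι → Nat.Primes → ℝ) (B : ι → ℝ)
    (hB : ∀ i ∈ s, ∀ p, |φ i p| ≤ B i) (h : ∀ i ∈ s, PNegl (φ i)) :
    PNegl fun p => ∑ i ∈ s, φ i p := by
  classical
  induction s using Finset.induction_on with
  | empty =>
    apply PNegl.of_bdd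
    refine ⟨0, Eventually.of_forall fun ε => ?_⟩
    simp [E]
  | insert a s ha ih =>
    have h1 := ih (fun i hi => hB i (Finset.mem_insert_of_mem hi))
      (fun i hi => h i (Finset.mem_insert_of_mem hi))
    have h2 := (h a (Finset.mem_insert_self a s)).add h1 (hB a (Finset.mem_insert_self a s))
      (B' := ∑ i ∈ s, B i) (fun p => (Finset.abs_sum_le_sum_abs _ _).trans
        (Finset.sum_le_sum fun i hi => hB i (Finset.mem_insert_of_mem hi) p))
    simpa only [Finset.sum_insert ha] using h2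

theorem negl_of_finset {φ ψ : Nat.Primes → ℝ} {B B' : ℝ} (hφ : PNegl φ)
    (h1 : ∀ p, |φ p| ≤ B) (h2 : ∀ p, |ψ p| ≤ B') (S : Finset Nat.Primes)
    (h : ∀ p, p ∉ S → φ p = ψ p) : PNegl ψ := by
  have hN : (∏ p ∈ S, ((p : ℕ) : ℤ)) ≠ 0 :=
    Finset.prod_ne_zero_iff.2 fun p _ => by exact_mod_cast p.2.ne_zero
  refine PNegl.congr hφ h1 h2 hN fun p hp => h p fun hS => hp (Finset.dvd_prod_of_mem _ hS)

section

variable {K : Type} [Field K] [NumberField K] [IsGalois ℚ K]

theorem abs_cpow_re_le (p : Nat.Primes) (τ : ℝ) : |(((p : ℕ) : ℂ) ^ (-(τ * I))).re| ≤ 1 :=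
  abs_re_le _ p.2.pos τ

/-- the mean value of a rational class function at Frobenius elements -/
theorem mean_frob (S : Finset Nat.Primes) (frob : Nat.Primes → Gal(K/ℚ))
    (hfrob : ∀ p, p ∉ S → ∃ P, IsFrob (p : ℕ) (frob p) P) (f : Gal(K/ℚ) → ℝ)
    (hz : ∀ x y, Subgroup.zpowers x = Subgroup.zpowers y → f x = f y)
    (hcj : ∀ a x, f (a⁻¹ * x * a) = f x) (τ : ℝ) :
    PNegl fun p => (f (frob p) - (∑ x, f x) / Fintype.card Gal(K/ℚ)) *
      (((p : ℕ) : ℂ) ^ (-(τ * I))).re := by
  classical
  obtain ⟨c, hc1, hc2⟩ := artin_induction f hz hcj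
  set M : ℝ := (∑ x, f x) / Fintype.card Gal(K/ℚ) with hM
  have hRb : ∀ g : Gal(K/ℚ), ∀ p : Nat.Primes,
      |((R (fixedField (Subgroup.zpowers g)) p : ℝ) - R ℚ p) * (((p : ℕ) : ℂ) ^ (-(τ * I))).re| ≤
        Module.finrank ℚ (fixedField (Subgroup.zpowers g)) + 1 := by
    intro g p
    rw [abs_mul, R_rat]
    refine (mul_le_of_le_one_right (abs_nonneg _) (abs_cpow_re_le p τ)).trans ?_
    have := R_le (K := fixedField (Subgroup.zpowers g)) p
    have h3 : (R (fixedField (Subgroup.zpowers g)) p : ℝ) ≤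
      Module.finrank ℚ (fixedField (Subgroup.zpowers g)) := by exact_mod_cast this
    have h4 : (0 : ℝ) ≤ R (fixedField (Subgroup.zpowers g)) p := Nat.cast_nonneg _
    rw [abs_le]
    constructor <;> push_cast <;> linarith
  have h1 : PNegl fun p => ∑ g : Gal(K/ℚ), c g *
      (((R (fixedField (Subgroup.zpowers g)) p : ℝ) - R ℚ p) *
        (((p : ℕ) : ℂ) ^ (-(τ * I))).re) := by
    refine negl_sum Finset.univ _
      (fun g => |c g| * (Module.finrank ℚ (fixedField (Subgroup.zpowers g)) + 1)) ?_ ?_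
    · intro g _ p
      rw [abs_mul]
      exact mul_le_mul_of_nonneg_left (hRb g p) (abs_nonneg _)
    · intro g _
      exact negl_const_mul _ (negl_R ℚ _ τ)
  refine negl_of_finset h1 (B := ∑ g : Gal(K/ℚ),
      |c g| * (Module.finrank ℚ (fixedField (Subgroup.zpowers g)) + 1)) ?_
    (B' := (∑ x, |f x|) + |M|) ?_ S ?_
  · intro p
    refine (Finset.abs_sum_le_sum_abs _ _).trans (Finset.sum_le_sum fun g _ => ?_)
    rw [abs_mul]
    exact mul_le_mul_of_nonneg_left (hRb g p) (abs_nonneg _)
  · intro p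
    rw [abs_mul]
    refine (mul_le_of_le_one_right (abs_nonneg _) (abs_cpow_re_le p τ)).trans ?_
    refine (abs_sub _ _).trans (add_le_add_left ?_ _)
    exact Finset.single_le_sum (f := fun x => |f x|) (fun x _ => abs_nonneg _) (Finset.mem_univ _)
  · intro p hp
    obtain ⟨P, hP⟩ := hfrob p hp
    have : Fact (p : ℕ).Prime := ⟨p.2⟩
    have h2 : ∀ g : Gal(K/ℚ), (R (fixedField (Subgroup.zpowers g)) p : ℝ) =
        fixCos (Subgroup.zpowers g) (frob p) := by
      intro g
      rw [R_eq_hc]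
      unfold hc
      rw [hP.card_homs]
    rw [hc1 (frob p), ← hc2, ← Finset.sum_sub_distrib, Finset.sum_mul]
    refine Finset.sum_congr rfl fun g _ => ?_
    rw [h2, R_rat]
    push_cast
    ring

end

end Pool.Agent.W350
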